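import Pool.Agent.Work.MP_2738db_R.Defs

set_option autoImplicit false

/-! # MP_2738db_nt, THEOREM T*: block COW (the two factors of a solution) -/

namespace Pool.FCR

open NumberField Pool.FCS

theorem COW_phi {K : Type} [Field K] [NumberField K] {n c R w w₀ w₁ : ℕ} {s : ℤ} {θ : 𝓞 K}
    (hW : Wd n c R w w₀ w₁) (hF : FldW K n w₀ s θ) :
    ((w₁ : 𝓞 K) * θ) ^ n = -((s : 𝓞 K) * (w : 𝓞 K)) := by
  rw [mul_pow, hF.root, hW.dec]
  push_cast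
  ring

theorem COW_y1 {A : Type} [CommRing A] (n : ℕ) (b φ : A) :
    b - φ ∣ (∑ i ∈ Finset.range n, b ^ i * φ ^ (n - 1 - i)) - (n : A) * b ^ (n - 1) := by
  have h : (∑ i ∈ Finset.range n, b ^ i * φ ^ (n - 1 - i)) - (n : A) * b ^ (n - 1) =
      ∑ i ∈ Finset.range n, b ^ i * (φ ^ (n - 1 - i) - b ^ (n - 1 - i)) := by
    have h1 : (n : A) * b ^ (n - 1) = ∑ _i ∈ Finset.range n, b ^ (n - 1) := by
      rw [Finset.sum_const, Finset.card_range, nsmul_eq_mul]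
    rw [h1, ← Finset.sum_sub_distrib]
    refine Finset.sum_congr rfl fun i hi => ?_
    have h2 : i + (n - 1 - i) = n - 1 := by
      have := Finset.mem_range.1 hi
      omega
    rw [mul_sub, ← pow_add, h2]
  rw [h]
  refine Finset.dvd_sum fun i _ => Dvd.dvd.mul_left ?_ _
  have h3 : φ - b ∣ φ ^ (n - 1 - i) - b ^ (n - 1 - i) := sub_dvd_pow_sub_pow φ b _
  rw [← neg_sub]
  exact (neg_dvd).2 h3

theorem COW_y2 {A : Type} [CommRing A] (n : ℕ) (hn : 1 ≤ n) (b C θ : A) :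
    C ∣ (∑ i ∈ Finset.range n, b ^ i * (C * θ) ^ (n - 1 - i)) - b ^ (n - 1) := by
  obtain ⟨n, rfl⟩ : ∃ n', n = n' + 1 := ⟨n - 1, by omega⟩
  rw [Finset.sum_range_succ]
  have h0 : n + 1 - 1 - n = 0 := by omega
  have h1 : n + 1 - 1 = n := by omega
  rw [h0, pow_zero, mul_one, h1, add_sub_cancel_right]
  refine Finset.dvd_sum fun i hi => ?_
  have h2 := Finset.mem_range.1 hi
  obtain ⟨j, hj⟩ : ∃ j, n - i = j + 1 := ⟨n - i - 1, by omega⟩
  rw [hj, pow_succ]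
  exact ⟨b ^ i * (C * θ) ^ j * θ, by ring⟩

theorem COW_cop {n m c R w w₀ w₁ : ℕ} {s t : ℤ} {a b : ℕ} (hW : Wd n c R w w₀ w₁)
    (hS : SolW n m w s t a b) : Nat.Coprime a R := by
  by_contra h
  obtain ⟨p, hp, hpa, hpR⟩ := Nat.Prime.not_coprime_iff_dvd.1 h
  exact Nat.Prime.not_coprime_iff_dvd.2 ⟨p, hp, hpa, hW.back p hp hpR⟩ hS.haw

theorem p_COW : S_COW := by
  intro K _ _ n m c R w w₀ w₁ s t θ a b hW hF hS
  have hn : 1 ≤ n := le_trans (by norm_num) hF.hn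
  have hprod : xw θ w₁ b * yw θ w₁ b n = (t : 𝓞 K) * (a : 𝓞 K) ^ m := by
    unfold xw yw
    rw [mul_comm, geom_sum₂_mul, COW_phi hW hF, sub_neg_eq_add]
    have h := congrArg (fun z : ℤ => (z : 𝓞 K)) hS.eq
    push_cast at h
    exact h.symm
  have h2 : xw θ w₁ b ∣ yw θ w₁ b n - (n : 𝓞 K) * (b : 𝓞 K) ^ (n - 1) :=
    COW_y1 n (b : 𝓞 K) _
  have h3 : (w₁ : 𝓞 K) ∣ yw θ w₁ b n - (b : 𝓞 K) ^ (n - 1) :=
    COW_y2 n hn (b : 𝓞 K) _ θ
  have h4 : (w₁ : 𝓞 K) ∣ xw θ w₁ b - (b : 𝓞 K) :=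
    ⟨-θ, by unfold xw; ring⟩
  have hne : (t : 𝓞 K) * (a : 𝓞 K) ^ m ≠ 0 := by
    have ht : (t : 𝓞 K) ≠ 0 := by
      rcases hS.ht with h | h
      · rw [h]; simp
      · rw [h]; simp
    have ha : (a : 𝓞 K) ≠ 0 := by
      have := hS.ha
      exact_mod_cast (by omega : a ≠ 0)
    exact mul_ne_zero ht (pow_ne_zero _ ha)
  rw [← hprod] at hne
  have hcop : IsCoprime ((t : 𝓞 K) * (a : 𝓞 K) ^ m) (R : 𝓞 K) := by
    have h5 : IsCoprime (a : ℤ) (R : ℤ) := Nat.isCoprime_iff_coprime.2 (COW_cop hW hS)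
    have h6 := h5.map (Int.castRingHom (𝓞 K))
    have h7 : IsCoprime (a : 𝓞 K) (R : 𝓞 K) := by
      simpa using h6
    have h8 : IsUnit (t : 𝓞 K) := by
      rcases hS.ht with h | h
      · rw [h]; simp
      · rw [h]; simp
    exact (isCoprime_mul_unit_left_left h8 _ _).2 h7.pow_left
  rw [← hprod] at hcop
  exact ⟨hprod, h2, h3, h4, left_ne_zero_of_mul hne, right_ne_zero_of_mul hne,
    hcop.of_mul_left_left, hcop.of_mul_left_right, a, b, _, t, hS.ht, hS.ha, hS.hab, hprod, h2⟩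

end Pool.FCR
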