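import Pool.Agent.Work.MP_2738db_R.Defs

/-! # Block DCW -/

set_option autoImplicit false

namespace Pool.FCR

open NumberField Pool.FCS

theorem p_DCW : S_DCW := by
  intro n c w hn hc hw hr
  have hpr : ∀ p ∈ w.primeFactors, p.Prime := fun p hp => Nat.prime_of_mem_primeFactors hp
  obtain ⟨w₁, hw₁⟩ : ∃ w₁, w₁ = ∏ p ∈ w.primeFactors, p ^ (w.factorization p / n) := ⟨_, rfl⟩
  obtain ⟨w₀, hw₀⟩ : ∃ w₀, w₀ = ∏ p ∈ w.primeFactors, p ^ (w.factorization p % n) := ⟨_, rfl⟩
  have hdec : w = w₀ * w₁ ^ n := by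
    have h1 : w = ∏ p ∈ w.primeFactors, p ^ w.factorization p := by
      have := Nat.factorization_prod_pow_eq_self (n := w) (by omega)
      rw [Finsupp.prod, Nat.support_factorization] at this
      exact this.symm
    rw [hw₀, hw₁, ← Finset.prod_pow, ← Finset.prod_mul_distrib]
    refine h1.trans (Finset.prod_congr rfl fun p _ => ?_)
    rw [← pow_mul, ← pow_add, mul_comm, Nat.mod_add_div]
  have hsm : w₀ ≤ (rad w) ^ (n - 1) := by
    rw [hw₀, rad, ← Finset.prod_pow]
    refine Finset.prod_le_prod' fun p hp => ?_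
    refine Nat.pow_le_pow_right (hpr p hp).pos ?_
    have := Nat.mod_lt (w.factorization p) (show n > 0 by omega)
    omega
  have hw₀1 : 1 ≤ w₀ := by
    rw [hw₀]
    exact Finset.prod_pos fun p hp => pow_pos (hpr p hp).pos _
  have hw₁1 : 1 ≤ w₁ := by
    rw [hw₁]
    exact Finset.prod_pos fun p hp => pow_pos (hpr p hp).pos _
  refine ⟨w₀, w₁, hc, ?_, hr, hw₀1, hw₁1, hdec, ?_, ?_, ?_, ?_⟩
  · exact Finset.prod_pos fun p hp => (hpr p hp).pos
  · calc w₀ ≤ (rad w) ^ (n - 1) := hsm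
      _ ≤ c ^ (n - 1) := Nat.pow_le_pow_left hr _
      _ < c ^ n := Nat.pow_lt_pow_right (by omega) (by omega)
  · intro p hp hd
    rw [hw₁, hp.prime.dvd_finset_prod_iff] at hd
    obtain ⟨q, hq, hpq⟩ := hd
    have h1 : p = q := (Nat.prime_dvd_prime_iff_eq hp (hpr q hq)).1 (hp.dvd_of_dvd_pow hpq)
    rw [h1]
    exact Finset.dvd_prod_of_mem (fun x => x) hq
  · intro p hp hd
    rw [rad, hp.prime.dvd_finset_prod_iff] at hd
    obtain ⟨q, hq, hpq⟩ := hd
    exact hpq.trans (Nat.dvd_of_mem_primeFactors hq)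
  · refine le_trans ?_ hr
    unfold rad
    have hsub : w₀.primeFactors ⊆ w.primeFactors :=
      Nat.primeFactors_mono (by rw [hdec]; exact dvd_mul_right _ _) (by omega)
    exact Finset.prod_le_prod_of_subset_of_one_le' hsub fun p hp _ => (hpr p hp).pos

end Pool.FCR
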