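import Pool.Agent.Work.MP_2738db_R.Defs

set_option autoImplicit false

/-! # MP_2738db_nt, THEOREM T*, block DT1 -/

namespace Pool.FCR

open NumberField Pool.FCS

theorem DT1_det {D : ℕ} (q : ℕ) (A B : Fin D → Fin D → ℤ) (h : ∀ k l, (q : ℤ) ∣ B k l - A k l)
    (hA : (q : ℤ) ∣ (Matrix.of B).det) : (q : ℤ) ∣ (Matrix.of A).det := by
  have h1 : (Int.castRingHom (ZMod q)).mapMatrix (Matrix.of A) =
      (Int.castRingHom (ZMod q)).mapMatrix (Matrix.of B) := by
    ext k l
    simp only [RingHom.mapMatrix_apply, Matrix.map_apply, Matrix.of_apply, eq_intCast]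
    exact (ZMod.intCast_eq_intCast_iff_dvd_sub _ _ _).2 (h k l)
  have h2 := RingHom.map_det (Int.castRingHom (ZMod q)) (Matrix.of A)
  have h3 := RingHom.map_det (Int.castRingHom (ZMod q)) (Matrix.of B)
  rw [h1, ← h3, eq_intCast, eq_intCast] at h2
  rw [← ZMod.intCast_zmod_eq_zero_iff_dvd] at hA ⊢
  rw [h2, hA]

theorem p_DT1 (h1 : S_HEN) (h2 : S_VDM) : S_DT1 := by
  intro p m D g x₀ y₀ x y i j hp hm hy₀ hx hy hg
  obtain ⟨P, hP⟩ := h1 p m (D * (D - 1) / 2) g x₀ y₀ hp hm hy₀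
  have h3 := h2 D p x₀ x (fun l => Polynomial.X ^ i l * P ^ j l) hx
  have h4 := DT1_det (p ^ (D * (D - 1) / 2)) (fun k l => x k ^ i l * y k ^ j l)
    (fun k l => (Polynomial.X ^ i l * P ^ j l : Polynomial ℤ).eval (x k)) ?_ (by
      push_cast
      exact h3)
  · push_cast at h4
    exact h4
  · intro k l
    have h5 := hP (x k) (y k) (hx k) (hy k) (hg k)
    have h6 : y k - P.eval (x k) ∣ y k ^ j l - P.eval (x k) ^ j l := sub_dvd_pow_sub_pow _ _ _
    push_cast
    simp only [Polynomial.eval_mul, Polynomial.eval_pow, Polynomial.eval_X]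
    have h7 : x k ^ i l * P.eval (x k) ^ j l - x k ^ i l * y k ^ j l =
        (y k ^ j l - P.eval (x k) ^ j l) * (-x k ^ i l) := by ring
    rw [h7]
    exact (h5.trans h6).mul_right _

end Pool.FCR
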