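import Pool.Agent.Work.MP_2738db_R.Defs

set_option autoImplicit false

/-! # MP_2738db_nt, THEOREM T*, block EQW -/

namespace Pool.FCR

open NumberField Pool.FCS

theorem p_EQW (h1 : S_EQC) : S_EQW := by
  intro w n hw hn
  rcases Nat.lt_or_ge 1 w with h | h
  · have h2 := h1 w 1 n h hn
    have h3 : {p : ℕ × ℕ | EqE n w 1 p.1 p.2} = {p : ℕ × ℕ | EqW n w p.1 p.2} := by
      ext p
      simp only [Set.mem_setOf_eq, EqE, EqW, pow_one]
    rw [h3, pow_one] at h2
    exact h2
  · have hw1 : w = 1 := by omega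
    subst hw1
    have h3 : {p : ℕ × ℕ | EqW n 1 p.1 p.2} = ∅ := by
      ext ⟨a, b⟩
      simp only [Set.mem_setOf_eq, EqW, Set.mem_empty_iff_false, iff_false]
      rintro ⟨ha, hb, h4⟩
      have ha1 : 1 ≤ a ^ n := Nat.one_le_pow _ _ ha
      have hb1 : 1 ≤ b ^ n := Nat.one_le_pow _ _ hb
      rcases h4 with ⟨_, h4⟩ | h4
      · omega
      · have hlt : b < a := by
          by_contra hab
          have h5 : a ^ n ≤ b ^ n := Nat.pow_le_pow_left (by omega) n
          omega
        obtain ⟨k, rfl⟩ : ∃ k, n = k + 1 := ⟨n - 1, by omega⟩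
        have h6 : (b + 1) ^ (k + 1) ≤ a ^ (k + 1) := Nat.pow_le_pow_left hlt _
        have h7 : b ^ k ≤ (b + 1) ^ k := Nat.pow_le_pow_left (by omega) k
        have h8 : 2 ^ k ≤ (b + 1) ^ k := Nat.pow_le_pow_left (by omega) k
        have h9 : 2 ^ 2 ≤ 2 ^ k := Nat.pow_le_pow_right (by norm_num) (by omega)
        have h10 : (b + 1) ^ (k + 1) = b * (b + 1) ^ k + (b + 1) ^ k := by ring
        have h11 : b ^ (k + 1) = b * b ^ k := by ring
        have h12 : b * b ^ k ≤ b * (b + 1) ^ k := Nat.mul_le_mul_left b h7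
        omega
    rw [h3]
    exact ⟨Set.finite_empty, by simp⟩

end Pool.FCR
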