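import Pool.Agent.Work.MP_2738db_R.Defs

/-! Block FBW (helper74), a copy of the block FIB of THEOREM S with `w = w₀ w₁ ^ n` -/

set_option autoImplicit false

namespace Pool.FCR

open NumberField Pool.FCS

theorem FBW_card (K : Type) [Field K] [NumberField K] (R c n : ℕ) (hR : 1 ≤ R) (hRc : R ≤ c)
    (hd : Module.finrank ℚ K ≤ n) :
    Finite (𝓞 K ⧸ Ideal.span {(R : 𝓞 K) ^ 2}) ∧
      Nat.card (𝓞 K ⧸ Ideal.span {(R : 𝓞 K) ^ 2}) ≤ c ^ (2 * n) := by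
  have h1 : Nat.card (𝓞 K ⧸ Ideal.span {(R : 𝓞 K) ^ 2}) = R ^ (2 * Module.finrank ℚ K) := by
    have e : Ideal.absNorm (Ideal.span {(R : 𝓞 K) ^ 2}) = R ^ (2 * Module.finrank ℚ K) := by
      have e1 := Ideal.absNorm_span_natCast (S := 𝓞 K) (R ^ 2)
      rw [RingOfIntegers.rank, ← pow_mul] at e1
      rw [← e1]
      push_cast
      rfl
    rw [← e, Ideal.absNorm_apply, Submodule.cardQuot_apply]
  have h2 : Nat.card (𝓞 K ⧸ Ideal.span {(R : 𝓞 K) ^ 2}) ≠ 0 := by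
    rw [h1]
    exact pow_ne_zero _ (by omega)
  refine ⟨Nat.finite_of_card_ne_zero h2, ?_⟩
  rw [h1]
  exact (Nat.pow_le_pow_left hRc _).trans (Nat.pow_le_pow_right (hR.trans hRc) (by omega))

theorem FBW_log {b b' : ℕ} (hb' : 1 ≤ b') (h : Nat.log 2 b = Nat.log 2 b') : b ≤ 2 * b' := by
  have h1 : b < 2 ^ (Nat.log 2 b + 1) := Nat.lt_pow_succ_log_self (by norm_num) b
  have h2 : 2 ^ Nat.log 2 b' ≤ b' := Nat.pow_log_le_self 2 (by omega)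
  rw [h, pow_succ] at h1
  omega

theorem FBW_eqa {n m w : ℕ} {s t : ℤ} {a a' b : ℕ} (hm : m ≠ 0) (h : SolW n m w s t a b)
    (h' : SolW n m w s t a' b) : a = a' := by
  have e1 := h.eq
  rw [← h'.eq] at e1
  have ht : t ≠ 0 := by
    rcases h.ht with h | h <;> rw [h] <;> norm_num
  have e2 : (a : ℤ) ^ m = (a' : ℤ) ^ m := mul_left_cancel₀ ht e1
  have e3 : a ^ m = a' ^ m := by exact_mod_cast e2
  exact Nat.pow_left_injective (by omega) e3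

theorem p_FBW (h1 : S_COW) (h2 : S_GAM) (h3 : S_REW) (h4 : S_PW2) (h5 : S_ZW1) (h6 : S_ZW2)
    (h7 : S_ROT) : S_FBW := by
  intro K _ _ n m c R w w₀ w₁ s t θ a₀ b₀ Z hnm hW hF hS₀
  have hm1 : 1 ≤ m := by omega
  obtain ⟨hxy, -, -, -, hx0, -, -, -, -⟩ := h1 K n m c R w w₀ w₁ s t θ a₀ b₀ hW hF hS₀
  obtain ⟨F, hFF⟩ := h7 K m (xw θ w₁ b₀) hm1 hx0
  obtain ⟨A, hA⟩ : ∃ A : Set (ℕ × ℕ), A = {p : ℕ × ℕ | SolW n m w s t p.1 p.2 ∧
      Hb n m c ≤ p.2 ∧ p.2 ≤ Z ∧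
      ∃ ρ : K, (xw θ w₁ p.2 : K) = (xw θ w₁ b₀ : K) * ρ ^ m} := ⟨_, rfl⟩
  rw [← hA]
  have hSol : ∀ p : A, SolW n m w s t p.1.1 p.1.2 ∧ Hb n m c ≤ p.1.2 ∧ p.1.2 ≤ Z ∧
      ∃ ρ : K, (xw θ w₁ p.1.2 : K) = (xw θ w₁ b₀ : K) * ρ ^ m := by
    intro p
    have h := hA.subset p.2
    exact h
  have hex : ∀ p : A, ∃ (ρ : K) (g : 𝓞 K),
      (xw θ w₁ p.1.2 : K) = (xw θ w₁ b₀ : K) * ρ ^ m ∧
      (g : K) = (a₀ : K) * ρ := by
    intro p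
    obtain ⟨-, -, -, ρ, hρ⟩ := hSol p
    obtain ⟨g, hg, -⟩ := h2 K a₀ m t _ _ (xw θ w₁ p.1.2) ρ hm1 hS₀.ht hx0 hxy hρ
    exact ⟨ρ, g, hρ, hg⟩
  choose ρ g hρ hg using hex
  have hxne : ∀ p : A, xw θ w₁ p.1.2 ≠ 0 := fun p =>
    (h1 K n m c R w w₀ w₁ s t θ p.1.1 p.1.2 hW hF (hSol p).1).2.2.2.2.1
  obtain ⟨hfin, hcard⟩ := FBW_card K R c n hW.hR hW.hRc hF.deg
  have hFlt : ∀ p : A, F (ρ p) < m ^ n := by
    intro p
    refine lt_of_lt_of_le (hFF _ _ _ _ (hxne p) (hxne p) (hρ p) (hρ p)).1 ?_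
    exact Nat.pow_le_pow_right hm1 hF.deg
  have hblt : ∀ p : A, (if p.1.2 ^ n < 8 ^ n * w then 0 else 1 + Nat.log 2 p.1.2) <
      Nat.log 2 Z + 2 := by
    intro p
    have := Nat.log_mono_right (b := 2) (hSol p).2.2.1
    split_ifs <;> omega
  obtain ⟨f, hf⟩ : ∃ f : A → (𝓞 K ⧸ Ideal.span {(R : 𝓞 K) ^ 2}) × Fin (m ^ n) ×
      Fin (Nat.log 2 Z + 2), ∀ p, f p = (Ideal.Quotient.mk _ (g p), ⟨F (ρ p), hFlt p⟩,
        ⟨_, hblt p⟩) := ⟨fun p => (Ideal.Quotient.mk _ (g p), ⟨F (ρ p), hFlt p⟩,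
        ⟨_, hblt p⟩), fun p => rfl⟩
  have hinj : Function.Injective f := by
    intro p p' hpp
    rw [hf, hf] at hpp
    simp only [Prod.mk.injEq, Fin.mk.injEq] at hpp
    obtain ⟨e1, e2, e3⟩ := hpp
    obtain ⟨hs, hH, hZ, -⟩ := hSol p
    obtain ⟨hs', hH', hZ', -⟩ := hSol p'
    have e1' : (R : 𝓞 K) ^ 2 ∣ g p - g p' := by
      rw [Ideal.Quotient.eq, Ideal.mem_span_singleton] at e1
      exact e1
    obtain ⟨hρ0, hx, γ, hγ, hγc⟩ := h3 K n m c R w w₀ w₁ s t θ a₀ b₀ p.1.1 p.1.2 p'.1.1 p'.1.2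
      (ρ p) (ρ p') (g p) (g p') hm1 hW hF hS₀ hs hs' (hρ p) (hρ p') (hg p) (hg p') e1'
    have hsz : ∀ σ τ : K →+* ℂ, (m : ℝ) * Module.finrank ℚ K * ‖σ (γ : K) - τ (γ : K)‖ <
        (w₁ : ℝ) := by
      by_cases hb : p.1.2 ^ n < 8 ^ n * w
      · have hb' : p'.1.2 ^ n < 8 ^ n * w := by
          by_contra hcon
          rw [if_pos hb, if_neg hcon] at e3
          omega
        exact h5 K n m c R w w₀ w₁ s t θ p.1.1 p.1.2 p'.1.1 p'.1.2 (ρ p' / ρ p) γ hnm hW hF hs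
          hs' hx hγ hH hb hb'
      · have hb' : ¬ p'.1.2 ^ n < 8 ^ n * w := by
          intro hcon
          rw [if_neg hb, if_pos hcon] at e3
          omega
        rw [if_neg hb, if_neg hb'] at e3
        have e4 : Nat.log 2 p.1.2 = Nat.log 2 p'.1.2 := by omega
        exact h6 K n m c R w w₀ w₁ s t θ p.1.1 p.1.2 p'.1.1 p'.1.2 (ρ p' / ρ p) γ hnm hW hF hs
          hs' ((hFF _ _ _ _ (hxne p) (hxne p') (hρ p) (hρ p')).2 e2) hγ hH hH' (not_lt.1 hb)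
          (not_lt.1 hb') (FBW_log hs'.hb e4) (FBW_log hs.hb e4.symm)
    have hbb : p.1.2 = p'.1.2 := h4 K n m c R w w₀ w₁ s t θ p.1.1 p.1.2 p'.1.1 p'.1.2
      (ρ p' / ρ p) γ hm1 hW hF hs hs' hx hγ hγc hsz
    have haa : p.1.1 = p'.1.1 := by
      rw [← hbb] at hs'
      exact FBW_eqa (by omega) hs hs'
    exact Subtype.ext (Prod.ext haa hbb)
  have : Finite A := Finite.of_injective f hinj
  refine ⟨A.toFinite, ?_⟩
  have hle := Nat.card_le_card_of_injective f hinj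
  rw [Nat.card_prod, Nat.card_prod, Nat.card_fin, Nat.card_fin] at hle
  have e : A.ncard = Nat.card A := rfl
  rw [e]
  refine hle.trans ?_
  rw [mul_assoc]
  exact Nat.mul_le_mul_right _ hcard

end Pool.FCR
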