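import Pool.Agent.Work.MP_2738db_R.Defs

set_option autoImplicit false

/-! # Block FLW: the number field of `θ ^ n = - s w₀` -/

namespace Pool.FCR

open NumberField Pool.FCS

theorem p_FLW (h1 : S_FLD) : S_FLW := by
  intro n w₀ s hn hw hs hsq
  rcases Nat.lt_or_ge w₀ 2 with h2 | h2
  · have hw1 : w₀ = 1 := by omega
    subst hw1
    obtain ⟨K, fK, nK, θ, hF⟩ := h1 2 n 0 s le_rfl hn (by omega) hs
      (by intro a b; simpa using hsq a b)
    exact ⟨K, fK, nK, θ, hF.hn, le_rfl, hF.hs, by simpa using hF.root, hF.irr, hF.gen, hF.deg⟩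
  · obtain ⟨K, fK, nK, θ, hF⟩ := h1 w₀ n 1 s h2 hn (by omega) hs
      (by intro a b; simpa using hsq a b)
    exact ⟨K, fK, nK, θ, hF.hn, hw, hF.hs, by simpa using hF.root, hF.irr, hF.gen, hF.deg⟩

end Pool.FCR
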