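import Pool.Agent.Work.MP_2738db_R.Defs

set_option autoImplicit false

/-! # THEOREM T*, block FXW: the determinant method for fixed `w` (helper41) -/

namespace Pool.FCR

open NumberField Pool.FCS

open Finset in
/-- the points of one residue class -/
theorem FXW_class (h1 : S_DT1) (h2 : S_RNK) (h3 : S_ZER) (n m w p N : ℕ) (s t : ℤ)
    (hn : 2 ≤ n) (hm : 2 ≤ m) (hw : 1 ≤ w) (hp : p.Prime) (hpn : n < p) (hpm : m < p)
    (hlt : ((n * m).factorial : ℤ) * ((N : ℤ) ^ 2) ^ (n * m) <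
      (p : ℤ) ^ (n * m * (n * m - 1) / 2))
    (T : Finset (ℕ × ℕ)) (hT : ∀ q ∈ T, SolW n m w s t q.1 q.2 ∧ q.1 ^ m ≤ N ∧ q.2 ^ n ≤ N)
    (q₀ : ℕ × ℕ) (hq₀ : q₀ ∈ T)
    (hres : ∀ q ∈ T, (p : ℤ) ∣ (q.1 : ℤ) - q₀.1 ∧ (p : ℤ) ∣ (q.2 : ℤ) - q₀.2) :
    T.card ≤ 2 * (n * m) := by
  classical
  set i : Fin (n * m) → ℕ := fun l => ((finProdFinEquiv.symm l : Fin n × Fin m).1 : ℕ) with hi
  set j : Fin (n * m) → ℕ := fun l => ((finProdFinEquiv.symm l : Fin n × Fin m).2 : ℕ) with hj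
  have hs : s = 1 ∨ s = -1 := (hT _ hq₀).1.hs
  have ht : t = 1 ∨ t = -1 := (hT _ hq₀).1.ht
  have ht2 : t * t = 1 := by rcases ht with h | h <;> simp [h]
  have hpr : Prime (p : ℤ) := Nat.prime_iff_prime_int.1 hp
  have hdiv : ∀ k : Fin (n * m) → ℕ × ℕ, (∀ l, k l ∈ T) →
      (p : ℤ) ^ (n * m * (n * m - 1) / 2) ∣
        (Matrix.of fun r l => ((k r).2 : ℤ) ^ i l * ((k r).1 : ℤ) ^ j l).det := by
    intro k hk
    have hnd : ¬ (p : ℤ) ∣ (q₀.1 : ℤ) ∨ ¬ (p : ℤ) ∣ (q₀.2 : ℤ) := by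
      by_contra hcon
      push Not at hcon
      have h4 := Int.natCast_dvd_natCast.1 hcon.1
      have h5 := Int.natCast_dvd_natCast.1 hcon.2
      have h6 : p ∣ Nat.gcd q₀.1 q₀.2 := Nat.dvd_gcd h4 h5
      rw [(hT _ hq₀).1.hab] at h6
      exact hp.one_lt.ne' (Nat.dvd_one.1 h6)
    have hndm : ¬ (p : ℤ) ∣ (m : ℤ) := by
      intro h
      have := Nat.le_of_dvd (by omega) (Int.natCast_dvd_natCast.1 h)
      omega
    have hndn : ¬ (p : ℤ) ∣ (n : ℤ) := by
      intro h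
      have := Nat.le_of_dvd (by omega) (Int.natCast_dvd_natCast.1 h)
      omega
    rcases hnd with h4 | h4
    · refine h1 p m (n * m) (Polynomial.C t * (Polynomial.X ^ n + Polynomial.C (s * (w : ℤ))))
        q₀.2 q₀.1 (fun r => ((k r).2 : ℤ)) (fun r => ((k r).1 : ℤ)) i j hp (by omega) ?_
        (fun r => (hres _ (hk r)).2) (fun r => (hres _ (hk r)).1) ?_
      · intro h
        rcases hpr.dvd_or_dvd h with h | h
        · exact hndm h
        · exact h4 h
      · intro r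
        have he := (hT _ (hk r)).1.eq
        simp only [Polynomial.eval_mul, Polynomial.eval_C, Polynomial.eval_add,
          Polynomial.eval_pow, Polynomial.eval_X]
        rw [← he, ← mul_assoc, ht2, one_mul]
    · have h5 := h1 p n (n * m) (Polynomial.C t * Polynomial.X ^ m - Polynomial.C (s * (w : ℤ)))
        q₀.1 q₀.2 (fun r => ((k r).1 : ℤ)) (fun r => ((k r).2 : ℤ)) j i hp (by omega) ?_
        (fun r => (hres _ (hk r)).1) (fun r => (hres _ (hk r)).2) ?_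
      · have h6 : (Matrix.of fun r l => ((k r).2 : ℤ) ^ i l * ((k r).1 : ℤ) ^ j l) =
            Matrix.of fun r l => ((k r).1 : ℤ) ^ j l * ((k r).2 : ℤ) ^ i l := by
          ext r l
          show ((k r).2 : ℤ) ^ i l * ((k r).1 : ℤ) ^ j l = ((k r).1 : ℤ) ^ j l * ((k r).2 : ℤ) ^ i l
          ring
        rw [h6]
        exact h5
      · intro h
        rcases hpr.dvd_or_dvd h with h | h
        · exact hndn h
        · exact h4 h
      · intro r
        have he := (hT _ (hk r)).1.eq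
        simp only [Polynomial.eval_mul, Polynomial.eval_C, Polynomial.eval_sub,
          Polynomial.eval_pow, Polynomial.eval_X]
        linarith
  obtain ⟨c, hc0, hc⟩ := h2 (ℕ × ℕ) (T : Set (ℕ × ℕ)) (n * m)
    (fun l q => (q.2 : ℤ) ^ i l * (q.1 : ℤ) ^ j l) (by
      intro k hk
      have h5 := hdiv k hk
      refine Int.eq_zero_of_abs_lt_dvd h5 ?_
      refine lt_of_le_of_lt ?_ hlt
      have h6 := Matrix.det_le (A := Matrix.of fun r l => ((k r).2 : ℤ) ^ i l * ((k r).1 : ℤ) ^ j l)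
        (abv := (AbsoluteValue.abs : AbsoluteValue ℤ ℤ)) (x := (N : ℤ) ^ 2) (by
          intro r l
          have hr := hT _ (hk r)
          have e1 : ((k r).2 : ℤ) ^ i l ≤ N := by
            have h7 : (k r).2 ^ i l ≤ (k r).2 ^ n :=
              Nat.pow_le_pow_right hr.1.hb (finProdFinEquiv.symm l).1.2.le
            exact_mod_cast h7.trans hr.2.2
          have e2 : ((k r).1 : ℤ) ^ j l ≤ N := by
            have h7 : (k r).1 ^ j l ≤ (k r).1 ^ m :=
              Nat.pow_le_pow_right hr.1.ha (finProdFinEquiv.symm l).2.2.le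
            exact_mod_cast h7.trans hr.2.1
          have e3 : (0 : ℤ) ≤ ((k r).2 : ℤ) ^ i l := by positivity
          have e4 : (0 : ℤ) ≤ ((k r).1 : ℤ) ^ j l := by positivity
          show |((k r).2 : ℤ) ^ i l * ((k r).1 : ℤ) ^ j l| ≤ (N : ℤ) ^ 2
          rw [abs_of_nonneg (mul_nonneg e3 e4), sq]
          exact mul_le_mul e1 e2 e4 (by positivity))
      rw [Fintype.card_fin, nsmul_eq_mul] at h6
      exact h6)
  have hc' : (fun (a : Fin n) (b : Fin m) => c (finProdFinEquiv (a, b))) ≠ 0 := by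
    intro h
    apply hc0
    funext l
    have h5 : c (finProdFinEquiv (finProdFinEquiv.symm l)) = 0 :=
      congrFun (congrFun h (finProdFinEquiv.symm l).1) (finProdFinEquiv.symm l).2
    rw [Equiv.apply_symm_apply] at h5
    exact h5
  obtain ⟨hfin, hcard⟩ := h3 n m w n m s t (fun a b => c (finProdFinEquiv (a, b))) (by omega)
    (by omega) hw hs ht le_rfl hc'
  have hsub : (T : Set (ℕ × ℕ)) ⊆ {p : ℕ × ℕ | t * (p.1 : ℤ) ^ m = (p.2 : ℤ) ^ n + s * (w : ℤ) ∧
      ∑ a : Fin n, ∑ b : Fin m, c (finProdFinEquiv (a, b)) * (p.2 : ℤ) ^ (a : ℕ) *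
        (p.1 : ℤ) ^ (b : ℕ) = 0} := by
    intro q hq
    refine ⟨(hT q hq).1.eq, ?_⟩
    have h5 := hc q hq
    rw [← h5, ← Fintype.sum_prod_type', ← finProdFinEquiv.sum_comp]
    refine Finset.sum_congr rfl fun x _ => ?_
    simp only [hi, hj, Equiv.symm_apply_apply]
    ring
  have h5 := Set.ncard_le_ncard hsub hfin
  rw [Set.ncard_coe_finset] at h5
  calc T.card ≤ _ := h5
    _ ≤ m * n + n * m := hcard
    _ = 2 * (n * m) := by ring

/-- the size of `p` -/
theorem FXW_size (D N p : ℕ) (X : ℝ) (hD : 4 ≤ D) (hX : 3 ≤ X) (hN : (N : ℝ) ≤ X)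
    (hp : ((D : ℝ) * X ^ 2) ^ ((4 : ℝ) / D) < p) :
    (D.factorial : ℤ) * ((N : ℤ) ^ 2) ^ D < (p : ℤ) ^ (D * (D - 1) / 2) := by
  have hD' : (4 : ℝ) ≤ D := by exact_mod_cast hD
  set A : ℝ := (D : ℝ) * X ^ 2 with hA
  have hA1 : 1 ≤ A := by
    rw [hA]; nlinarith [sq_nonneg X]
  have hp1 : A ^ 2 < (p : ℝ) ^ (D - 1) := by
    have h1 : A ^ (2 : ℝ) ≤ (A ^ ((4 : ℝ) / D)) ^ (D - 1) := by
      rw [← Real.rpow_natCast, ← Real.rpow_mul (by linarith)]
      apply Real.rpow_le_rpow_of_exponent_le hA1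
      rw [Nat.cast_sub (by omega), Nat.cast_one, div_mul_eq_mul_div, le_div_iff₀ (by linarith)]
      linarith
    have h2 : (A ^ ((4 : ℝ) / D)) ^ (D - 1) < (p : ℝ) ^ (D - 1) :=
      pow_lt_pow_left₀ hp (by positivity) (by omega)
    have h3 : A ^ (2 : ℝ) = A ^ (2 : ℕ) := by
      rw [← Real.rpow_natCast A 2]; norm_num
    calc A ^ (2 : ℕ) = A ^ (2 : ℝ) := h3.symm
      _ ≤ _ := h1
      _ < _ := h2
  have h4 : (D.factorial : ℝ) * ((N : ℝ) ^ 2) ^ D ≤ A ^ D := by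
    rw [hA, mul_pow]
    have h5 : (D.factorial : ℝ) ≤ (D : ℝ) ^ D := by exact_mod_cast Nat.factorial_le_pow D
    have h6 : ((N : ℝ) ^ 2) ^ D ≤ (X ^ 2) ^ D := by gcongr
    exact mul_le_mul h5 h6 (by positivity) (by positivity)
  have h7 : A ^ D < (p : ℝ) ^ (D * (D - 1) / 2) := by
    have h8 : (A ^ D) ^ 2 < ((p : ℝ) ^ (D * (D - 1) / 2)) ^ 2 := by
      rw [← pow_mul, ← pow_mul, Nat.div_mul_cancel (Nat.even_mul_pred_self D).two_dvd,
        mul_comm D 2, mul_comm D (D - 1), pow_mul, pow_mul]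
      exact pow_lt_pow_left₀ hp1 (by positivity) (by omega)
    exact lt_of_pow_lt_pow_left₀ 2 (by positivity) h8
  have h9 := h4.trans_lt h7
  exact_mod_cast h9

theorem p_FXW (h1 : S_DT1) (h2 : S_RNK) (h3 : S_ZER) : S_FXW := by
  classical
  refine ⟨72, by norm_num, ?_⟩
  intro n m w s t X hn hm hw hX
  set S : Set (ℕ × ℕ) := {p : ℕ × ℕ | SolW n m w s t p.1 p.2 ∧ (p.1 : ℝ) ^ m ≤ X ∧
    (p.2 : ℝ) ^ n ≤ X} with hS
  set N := ⌊X⌋₊ with hN
  have hNX : (N : ℝ) ≤ X := Nat.floor_le (by linarith)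
  have hle : ∀ q ∈ S, q.1 ^ m ≤ N ∧ q.2 ^ n ≤ N := by
    intro q hq
    exact ⟨Nat.le_floor (by exact_mod_cast hq.2.1), Nat.le_floor (by exact_mod_cast hq.2.2)⟩
  have hfin : S.Finite := by
    refine Set.Finite.subset (Finset.finite_toSet (Finset.range (N + 1) ×ˢ Finset.range (N + 1)))
      fun q hq => ?_
    have h4 := hle q hq
    have h5 := Nat.le_self_pow (show m ≠ 0 by omega) q.1
    have h6 := Nat.le_self_pow (show n ≠ 0 by omega) q.2
    simp only [Finset.coe_product, Finset.coe_range, Set.mem_prod, Set.mem_Iio]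
    omega
  refine ⟨hfin, ?_⟩
  have hD4 : 4 ≤ n * m := by nlinarith
  have hD4' : (4 : ℝ) ≤ ((n * m : ℕ) : ℝ) := by exact_mod_cast hD4
  set D := n * m with hD
  set y : ℝ := ((D : ℝ) * X ^ 2) ^ ((4 : ℝ) / D) with hy
  have hA1 : (1 : ℝ) ≤ (D : ℝ) * X ^ 2 := by nlinarith [sq_nonneg X]
  have hy1 : 1 ≤ y := Real.one_le_rpow hA1 (by positivity)
  set P := ⌈y⌉₊ + (m + n) with hP
  obtain ⟨p, hp, hPp, hp2⟩ := Nat.exists_prime_lt_and_le_two_mul P (by omega)
  have hyp : y < p := lt_of_le_of_lt (Nat.le_ceil y) (by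
    have : ⌈y⌉₊ < p := by omega
    exact_mod_cast this)
  have hsz := FXW_size D N p X hD4 hX hNX hyp
  -- the count
  have hcount : hfin.toFinset.card ≤ 2 * D * (p * p) := by
    have h4 := Finset.card_le_mul_card_image (f := fun q : ℕ × ℕ => (q.1 % p, q.2 % p))
      hfin.toFinset (2 * D) (by
        intro b hb
        obtain ⟨q₀, hq₀, hqb⟩ := Finset.mem_image.1 hb
        refine FXW_class h1 h2 h3 n m w p N s t hn hm hw hp (by omega) (by omega) hsz _ ?_ q₀
          (by simp only [Finset.mem_filter]; exact ⟨hq₀, hqb⟩) ?_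
        · intro q hq
          have h5 : q ∈ S := hfin.mem_toFinset.1 (Finset.mem_filter.1 hq).1
          exact ⟨h5.1, hle q h5⟩
        · intro q hq
          have h5 := (Finset.mem_filter.1 hq).2
          rw [← hqb] at h5
          have h6 : q.1 % p = q₀.1 % p := congrArg Prod.fst h5
          have h7 : q.2 % p = q₀.2 % p := congrArg Prod.snd h5
          constructor
          · exact (Nat.modEq_iff_dvd.1 (show q₀.1 ≡ q.1 [MOD p] from h6.symm))
          · exact (Nat.modEq_iff_dvd.1 (show q₀.2 ≡ q.2 [MOD p] from h7.symm)))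
    refine h4.trans (Nat.mul_le_mul_left _ ?_)
    calc _ ≤ (Finset.range p ×ˢ Finset.range p).card := by
          refine Finset.card_le_card fun b hb => ?_
          obtain ⟨q, hq, rfl⟩ := Finset.mem_image.1 hb
          simp only [Finset.mem_product, Finset.mem_range]
          exact ⟨Nat.mod_lt _ hp.pos, Nat.mod_lt _ hp.pos⟩
      _ = p * p := by simp
  rw [Set.ncard_eq_toFinset_card S hfin]
  -- real estimates
  have hmn : m + n + 1 ≤ 2 * D := by rw [hD]; nlinarith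
  have hp6 : (p : ℝ) ≤ 6 * D * y := by
    have e1 : (p : ℝ) ≤ 2 * P := by exact_mod_cast hp2
    have e2 : (P : ℝ) ≤ y + 1 + (m + n) := by
      rw [hP]; push_cast
      have := Nat.ceil_lt_add_one (show 0 ≤ y by linarith)
      linarith
    have e3 : (m : ℝ) + n + 1 ≤ 2 * D := by exact_mod_cast hmn
    nlinarith
  have hy2 : y ^ 2 ≤ (D : ℝ) ^ 2 * X ^ ((16 : ℝ) / D) := by
    have e1 : y ^ 2 = ((D : ℝ) * X ^ 2) ^ ((8 : ℝ) / D) := by
      rw [hy, ← Real.rpow_natCast, ← Real.rpow_mul (by linarith)]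
      congr 1; push_cast; ring
    rw [e1, Real.mul_rpow (by positivity) (by positivity)]
    have e2 : (D : ℝ) ^ ((8 : ℝ) / D) ≤ (D : ℝ) ^ 2 := by
      rw [← Real.rpow_natCast (D : ℝ) 2]
      apply Real.rpow_le_rpow_of_exponent_le (by linarith)
      rw [div_le_iff₀ (by linarith)]; push_cast; linarith
    have e3 : (X ^ 2) ^ ((8 : ℝ) / D) = X ^ ((16 : ℝ) / D) := by
      rw [← Real.rpow_natCast X 2, ← Real.rpow_mul (by linarith)]
      congr 1; push_cast; ring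
    rw [e3]
    exact mul_le_mul_of_nonneg_right e2 (by positivity)
  have hDD : ((m : ℝ) * n) = D := by rw [hD]; push_cast; ring
  rw [hDD]
  have hc2 : (hfin.toFinset.card : ℝ) ≤ 2 * D * ((p : ℝ) * p) := by exact_mod_cast hcount
  have hpp : (p : ℝ) * p ≤ 36 * D ^ 2 * (D ^ 2 * X ^ ((16 : ℝ) / D)) := by
    calc (p : ℝ) * p ≤ (6 * D * y) * (6 * D * y) :=
          mul_le_mul hp6 hp6 (by positivity) (by positivity)
      _ = 36 * D ^ 2 * y ^ 2 := by ring
      _ ≤ _ := by gcongr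
  calc (hfin.toFinset.card : ℝ) ≤ 2 * D * ((p : ℝ) * p) := hc2
    _ ≤ 2 * D * (36 * D ^ 2 * (D ^ 2 * X ^ ((16 : ℝ) / D))) := by gcongr
    _ = 72 * (D : ℝ) ^ 5 * X ^ ((16 : ℝ) / D) := by ring
    _ ≤ 72 * (D : ℝ) ^ (72 : ℝ) * X ^ ((72 : ℝ) / D) := by
        gcongr 72 * ?_ * ?_
        · rw [← Real.rpow_natCast (D : ℝ) 5]
          apply Real.rpow_le_rpow_of_exponent_le (by linarith); norm_num
        · apply Real.rpow_le_rpow_of_exponent_le (by linarith)
          gcongr; norm_num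

end Pool.FCR
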