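import Pool.Agent.Work.MP_2738db_R.Defs

set_option autoImplicit false

namespace Pool.FCR

open NumberField Pool.FCS

theorem p_LTW (h1 : S_LTE) : S_LTW := by
  intro A _ _ _ R w₁ m y d hm hR hw hp hy hd hdvd
  have hprod : (w₁ : A) = ∏ p ∈ w₁.primeFactors, (p : A) ^ (w₁.factorization p) := by
    have e : ∏ p ∈ w₁.primeFactors, p ^ (w₁.factorization p) = w₁ := by
      have := Nat.factorization_prod_pow_eq_self (n := w₁) (by omega)
      rw [Finsupp.prod, Nat.support_factorization] at this
      exact this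
    calc (w₁ : A) = ((∏ p ∈ w₁.primeFactors, p ^ (w₁.factorization p) : ℕ) : A) := by rw [e]
      _ = _ := by push_cast; rfl
  have hcop : ∀ p q : ℕ, Nat.Coprime p q → IsCoprime (p : A) (q : A) := by
    intro p q h
    have h2 : IsCoprime (p : ℤ) (q : ℤ) := Nat.isCoprime_iff_coprime.2 h
    have h3 := h2.map (Int.castRingHom A)
    simpa using h3
  rw [hprod]
  apply Finset.prod_dvd_of_coprime
  · intro p hp1 q hq1 hpq
    have hpp := Nat.prime_of_mem_primeFactors hp1
    have hqq := Nat.prime_of_mem_primeFactors hq1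
    exact ((hcop p q ((Nat.coprime_primes hpp hqq).2 hpq)).pow_left).pow_right
  · intro p hp1
    have hpp := Nat.prime_of_mem_primeFactors hp1
    have hpw : p ∣ w₁ := Nat.dvd_of_mem_primeFactors hp1
    have hpR : p ∣ R := hp p hpp hpw
    have hpRA : (p : A) ∣ (R : A) := by
      obtain ⟨k, hk⟩ := hpR
      exact ⟨(k : A), by rw [hk]; push_cast; rfl⟩
    apply h1 A p (w₁.factorization p) m y d hm hpp.two_le
    · exact hy.of_isCoprime_of_dvd_right hpRA
    · exact (pow_dvd_pow_of_dvd hpRA 2).trans hd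
    · refine Dvd.dvd.trans ?_ hdvd
      have : p ^ (w₁.factorization p) ∣ w₁ := Nat.ordProj_dvd w₁ p
      obtain ⟨k, hk⟩ := this
      refine ⟨(k : A), ?_⟩
      have hk' : (w₁ : A) = ((p ^ (w₁.factorization p) * k : ℕ) : A) := by rw [← hk]
      rw [hk']
      push_cast
      rfl

end Pool.FCR
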