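import Pool.Agent.Work.MP_2738db_R.Defs

set_option autoImplicit false

namespace Pool.FCR

open NumberField Pool.FCS

namespace X_OMW

/-- the denominators -/
def D (n w₀ i : ℕ) : ℕ := ∏ p ∈ w₀.primeFactors, p ^ (i * w₀.factorization p / n)

/-- the values -/
def V (n w₀ i : ℕ) : ℕ := ∏ p ∈ w₀.primeFactors, p ^ (i * w₀.factorization p % n)

lemma D_pos (n w₀ i : ℕ) : 0 < D n w₀ i := by
  apply Finset.prod_pos
  intro p hp
  exact pow_pos (Nat.prime_of_mem_primeFactors hp).pos _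

lemma split (n w₀ i : ℕ) (hw : 1 ≤ w₀) : w₀ ^ i = D n w₀ i ^ n * V n w₀ i := by
  have e : ∏ p ∈ w₀.primeFactors, p ^ (w₀.factorization p) = w₀ := by
    have := Nat.prod_factorization_pow_eq_self (n := w₀) (by omega)
    rw [Finsupp.prod, Nat.support_factorization] at this
    exact this
  calc w₀ ^ i = (∏ p ∈ w₀.primeFactors, p ^ (w₀.factorization p)) ^ i := by rw [e]
    _ = ∏ p ∈ w₀.primeFactors, (p ^ (w₀.factorization p)) ^ i := (Finset.prod_pow _ _ _).symm
    _ = ∏ p ∈ w₀.primeFactors, ((p ^ (i * w₀.factorization p / n)) ^ n *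
          p ^ (i * w₀.factorization p % n)) := by
        apply Finset.prod_congr rfl
        intro p _
        rw [← pow_mul, ← pow_mul, ← pow_add]
        congr 1
        rw [mul_comm (w₀.factorization p) i, mul_comm (i * w₀.factorization p / n) n]
        exact (Nat.div_add_mod _ _).symm
    _ = D n w₀ i ^ n * V n w₀ i := by
        rw [Finset.prod_mul_distrib, Finset.prod_pow]
        rfl

lemma V_le (n w₀ i : ℕ) (hn : 0 < n) : V n w₀ i ≤ rad w₀ ^ n := by
  unfold V rad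
  rw [← Finset.prod_pow]
  apply Finset.prod_le_prod'
  intro p hp
  exact Nat.pow_le_pow_right (Nat.prime_of_mem_primeFactors hp).pos (Nat.mod_lt _ hn).le

variable {K : Type} [Field K] [NumberField K] {n w₀ : ℕ} {s : ℤ} {θ : 𝓞 K}

lemma rootK (h : FldW K n w₀ s θ) : (θ : K) ^ n = -(s : K) * (w₀ : K) := by
  have := congrArg (algebraMap (𝓞 K) K) h.root
  simpa using this

lemma D_ne (n w₀ i : ℕ) : (D n w₀ i : K) ≠ 0 := Nat.cast_ne_zero.2 (D_pos n w₀ i).ne'

lemma pow_eq (h : FldW K n w₀ s θ) (i : ℕ) :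
    ((θ : K) ^ i / (D n w₀ i : K)) ^ n = (((-s) ^ i * (V n w₀ i : ℤ) : ℤ) : K) := by
  rw [div_pow, ← pow_mul, mul_comm i n, pow_mul, rootK h, mul_pow]
  rw [div_eq_iff (pow_ne_zero _ (D_ne n w₀ i))]
  push_cast
  have e : (w₀ : K) ^ i = (D n w₀ i : K) ^ n * (V n w₀ i : K) := by
    exact_mod_cast congrArg (Nat.cast : ℕ → K) (split n w₀ i h.hw)
  rw [e]
  ring

lemma integral (h : FldW K n w₀ s θ) (i : ℕ) :
    IsIntegral ℤ ((θ : K) ^ i / (D n w₀ i : K)) := by
  have hn : 0 < n := by have := h.hn; omega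
  refine IsIntegral.of_pow hn ?_
  rw [pow_eq h i]
  exact isIntegral_algebraMap (R := ℤ) (A := K)

/-- the small elements -/
noncomputable def om (h : FldW K n w₀ s θ) (i : ℕ) : 𝓞 K :=
  ⟨(θ : K) ^ i / (D n w₀ i : K), integral h i⟩

lemma om_coe (h : FldW K n w₀ s θ) (i : ℕ) :
    (om h i : K) = (θ : K) ^ i / (D n w₀ i : K) := rfl

lemma norm_le (h : FldW K n w₀ s θ) (c : ℕ) (hr : rad w₀ ≤ c) (i : ℕ) (σ : K →+* ℂ) :
    ‖σ (om h i : K)‖ ≤ c := by
  have hn : 0 < n := by have := h.hn; omega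
  have h1 : ‖σ (om h i : K)‖ ^ n = (V n w₀ i : ℝ) := by
    rw [← norm_pow, ← map_pow, om_coe, pow_eq h i, map_intCast]
    push_cast
    rw [norm_mul, norm_pow, Complex.norm_natCast]
    have hs : ‖(-(s : ℂ))‖ = 1 := by
      rcases h.hs with h1 | h1 <;> rw [h1] <;> simp
    rw [hs, one_pow, one_mul]
  have h2 : ‖σ (om h i : K)‖ ^ n ≤ (c : ℝ) ^ n := by
    rw [h1]
    have := (V_le n w₀ i hn).trans (Nat.pow_le_pow_left hr n)
    exact_mod_cast this
  exact le_of_pow_le_pow_left₀ hn.ne' (by positivity) h2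

lemma deg_eq (h : FldW K n w₀ s θ) :
    Module.finrank ℚ K = (minpoly ℚ (θ : K)).natDegree := by
  have hi : IsIntegral ℚ (θ : K) := Algebra.IsIntegral.isIntegral _
  rw [← IntermediateField.adjoin.finrank hi, h.gen, IntermediateField.finrank_top']

lemma linIndep (h : FldW K n w₀ s θ) :
    LinearIndependent ℤ (fun i : Fin (Module.finrank ℚ K) => om h i) := by
  have hD : ∀ i : ℕ, (D n w₀ i : ℚ) ≠ 0 := fun i => Nat.cast_ne_zero.2 (D_pos n w₀ i).ne'
  have h1 := linearIndependent_pow (K := ℚ) (θ : K)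
  have h2 := h1.comp (Fin.cast (deg_eq h)) (Fin.cast_injective (deg_eq h))
  have h3 := h2.units_smul
    (fun i : Fin (Module.finrank ℚ K) => Units.mk0 (((D n w₀ i : ℚ))⁻¹)
      (inv_ne_zero (hD i)))
  have h4 : LinearIndependent ℚ (fun i : Fin (Module.finrank ℚ K) => (om h i : K)) := by
    have e : (fun i : Fin (Module.finrank ℚ K) => (om h i : K)) =
        (fun i : Fin (Module.finrank ℚ K) => Units.mk0 (((D n w₀ i : ℚ))⁻¹)
          (inv_ne_zero (hD i))) •
          ((fun i : Fin (minpoly ℚ (θ : K)).natDegree => (θ : K) ^ (i : ℕ)) ∘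
            Fin.cast (deg_eq h)) := by
      funext i
      show _ = ((D n w₀ i : ℚ))⁻¹ • ((θ : K) ^ (i : ℕ))
      rw [om_coe, Algebra.smul_def, div_eq_inv_mul]
      simp
    rw [e]
    exact h3
  have h5 : LinearIndependent ℤ (fun i : Fin (Module.finrank ℚ K) => (om h i : K)) := by
    refine h4.restrict_scalars ?_
    intro a b hab
    simpa using hab
  have h6 : LinearIndependent ℤ ((Algebra.linearMap (𝓞 K) K).restrictScalars ℤ ∘
      fun i : Fin (Module.finrank ℚ K) => om h i) := h5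
  exact h6.of_comp _

end X_OMW

theorem p_OMW : S_OMW := by
  intro K _ _ c n w₀ s θ h _ hr
  exact ⟨fun i => X_OMW.om h i, X_OMW.linIndep h, fun i σ => X_OMW.norm_le h c hr i σ⟩

end Pool.FCR
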