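import Pool.Agent.Work.MP_2738db_R.Defs

set_option autoImplicit false

namespace Pool.FCR

open NumberField Pool.FCS

theorem PW1_cop {n c R w w₀ w₁ a : ℕ} (hW : Wd n c R w w₀ w₁) (h : Nat.Coprime a w) :
    Nat.Coprime a R := by
  rw [Nat.coprime_iff_gcd_eq_one]
  by_contra hne
  obtain ⟨p, hp, hpd⟩ := Nat.exists_prime_and_dvd hne
  have h1 : p ∣ a := hpd.trans (Nat.gcd_dvd_left _ _)
  have h2 : p ∣ R := hpd.trans (Nat.gcd_dvd_right _ _)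
  have h3 : p ∣ w := hW.back p hp h2
  have h4 : p ∣ Nat.gcd a w := Nat.dvd_gcd h1 h3
  rw [Nat.coprime_iff_gcd_eq_one.1 h] at h4
  exact hp.one_lt.ne' (Nat.dvd_one.1 h4)

theorem p_PW1 (h1 : S_COW) (h2 : S_GAM) (h3 : S_LTW) : S_PW1 := by
  intro K _ _ n m c R w w₀ w₁ s t θ a b a' b' ρ γ hm hW hF hS hS' hx hγ hdvd σ τ
  obtain ⟨hxy, -, hy2, -, hx0, -, -, -, -⟩ := h1 K n m c R w w₀ w₁ s t θ a b hW hF hS
  obtain ⟨-, -, -, hx2, -, -, -, -, -⟩ := h1 K n m c R w w₀ w₁ s t θ a' b' hW hF hS'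
  obtain ⟨γ', hγ', hγm⟩ := h2 K a m t _ _ (xw θ w₁ b') ρ hm hS.ht hx0 hxy hx
  have hgg : γ' = γ := RingOfIntegers.coe_injective (hγ'.trans hγ.symm)
  rw [hgg] at hγm
  obtain ⟨u, hu⟩ := hy2
  obtain ⟨v, hv⟩ := hx2
  obtain ⟨w1, hw1⟩ := hdvd
  set X' := xw θ w₁ b' with hX'
  set Y := yw θ w₁ b n with hY
  have hYe : Y = (b : 𝓞 K) ^ (n - 1) + (w₁ : 𝓞 K) * u := by rw [← hu]; ring
  have hXe : X' = (b' : 𝓞 K) + (w₁ : 𝓞 K) * v := by rw [← hv]; ring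
  have hge : γ = (a : 𝓞 K) + (R : 𝓞 K) ^ 2 * w1 := by rw [← hw1]; ring
  have hgm : γ ^ m = (t : 𝓞 K) * (b : 𝓞 K) ^ (n - 1) * (b' : 𝓞 K) + (w₁ : 𝓞 K) *
      ((t : 𝓞 K) * ((b : 𝓞 K) ^ (n - 1) * v + u * (b' : 𝓞 K) + (w₁ : 𝓞 K) * u * v)) := by
    rw [hγm, hYe, hXe]
    ring
  set w0 := (t : 𝓞 K) * ((b : 𝓞 K) ^ (n - 1) * v + u * (b' : 𝓞 K) + (w₁ : 𝓞 K) * u * v)
    with hw0
  have hac : IsCoprime (a : 𝓞 K) (R : 𝓞 K) := by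
    have h4 : IsCoprime (a : ℤ) (R : ℤ) := Nat.isCoprime_iff_coprime.2 (PW1_cop hW hS.haw)
    have h5 := h4.map (Int.castRingHom (𝓞 K))
    simpa using h5
  have hgc : IsCoprime γ (R : 𝓞 K) := by
    rw [hge, pow_two, mul_assoc]
    exact hac.add_mul_left_left _
  let S : 𝓞 K →+* 𝓞 ℂ := RingOfIntegers.mapRingHom σ
  let T : 𝓞 K →+* 𝓞 ℂ := RingOfIntegers.mapRingHom τ
  have hScoe : ∀ z : 𝓞 K, ((S z : 𝓞 ℂ) : ℂ) = σ (z : K) := fun z => rfl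
  have hTcoe : ∀ z : 𝓞 K, ((T z : 𝓞 ℂ) : ℂ) = τ (z : K) := fun z => rfl
  have k1 : IsCoprime (T γ) ((R : ℕ) : 𝓞 ℂ) := by
    have := hgc.map T
    simpa using this
  have k2 : ((R : ℕ) : 𝓞 ℂ) ^ 2 ∣ S γ - T γ := by
    refine ⟨S w1 - T w1, ?_⟩
    rw [hge]
    simp only [map_add, map_mul, map_pow, map_natCast]
    ring
  have k3 : ((w₁ : ℕ) : 𝓞 ℂ) ∣ (T γ + (S γ - T γ)) ^ m - (T γ) ^ m := by
    refine ⟨S w0 - T w0, ?_⟩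
    have e : T γ + (S γ - T γ) = S γ := by ring
    rw [e, ← map_pow, ← map_pow, hgm]
    simp only [map_add, map_mul, map_pow, map_natCast, map_intCast]
    ring
  obtain ⟨z, hz⟩ := h3 (𝓞 ℂ) R w₁ m (T γ) (S γ - T γ) hm hW.hR hW.hw₁ hW.prim k1 k2 k3
  refine ⟨(z : ℂ), RingOfIntegers.isIntegral_coe z, ?_⟩
  have h6 := congrArg (algebraMap (𝓞 ℂ) ℂ) hz
  simp only [map_mul, map_sub, map_natCast] at h6
  exact h6

end Pool.FCR
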