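import Pool.Agent.Work.MP_2738db_R.Defs

set_option autoImplicit false

/-! # MP_2738db_nt, THEOREM T*, block QCW (helper24, after B_QCG) -/

namespace Pool.FCR

open NumberField Pool.FCS

theorem QCW_cop (m c e₁ e₂ : ℕ) (h : E2 m e₁ e₂) (he : Even c → e₁ = 1 ∧ e₂ = 1) :
    Nat.Coprime (e₁ * e₂) c := by
  rcases Nat.even_or_odd c with hc | hc
  · obtain ⟨h1, h2⟩ := he hc
    rw [h1, h2]
    simp
  · have h2 : Nat.Coprime 2 c := Nat.coprime_two_left.mpr hc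
    rcases h with ⟨a, b⟩ | ⟨a, b⟩ | ⟨a, b⟩
    · rw [a, b]
      simp
    · rw [a, b]
      exact Nat.Coprime.mul_left h2 (h2.pow_left _)
    · rw [a, b]
      exact Nat.Coprime.mul_left (h2.pow_left _) h2

theorem QCW_rad (w R u : ℕ) (hR : ∀ p : ℕ, p.Prime → (p ∣ w ↔ p ∣ R)) (h : Nat.Coprime u w) :
    Nat.Coprime u R := by
  refine Nat.Coprime.symm (Nat.coprime_of_dvd fun p hp hpR hpu => ?_)
  have h1 : p ∣ w := (hR p hp).2 hpR
  have h2 : p ∣ Nat.gcd u w := Nat.dvd_gcd hpu h1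
  rw [h] at h2
  exact hp.one_lt.ne' (Nat.dvd_one.1 h2)

/-- BLOCK QCW -/
theorem p_QCW (h1 : S_LTW) : S_QCW := by
  intro m R w y t b b' e₁ e₂ u v u' v' hm hR hw hy hpr ht h h' hdvd
  have hy1 : 1 ≤ y := by
    rcases Nat.eq_zero_or_pos y with h0 | h0
    · rw [h0] at hy
      simp at hy
      omega
    · exact h0
  have hyw : y ∣ w := ⟨y, by rw [← hy, sq]⟩
  have hX : (y : ℤ) ∣ (e₂ : ℤ) * (v : ℤ) ^ m - t * e₁ * (u : ℤ) ^ m := by
    rw [← h.minus, ← h.plus]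
    have : (b : ℤ) + y - (b - y) = y * 2 := by ring
    rw [this]
    exact Dvd.intro _ rfl
  have hX' : (y : ℤ) ∣ (e₂ : ℤ) * (v' : ℤ) ^ m - t * e₁ * (u' : ℤ) ^ m := by
    rw [← h'.minus, ← h'.plus]
    have : (b' : ℤ) + y - (b' - y) = y * 2 := by ring
    rw [this]
    exact Dvd.intro _ rfl
  have hcross : (y : ℤ) ∣ (((u : ℤ) * v' + (v * u' - u * v')) ^ m - ((u : ℤ) * v') ^ m) *
      (t * (e₁ * e₂)) := by
    have h2 : (((u : ℤ) * v' + (v * u' - u * v')) ^ m - ((u : ℤ) * v') ^ m) * (t * (e₁ * e₂)) =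
        ((e₂ : ℤ) * (v : ℤ) ^ m - t * e₁ * (u : ℤ) ^ m) * (t * e₁ * (u' : ℤ) ^ m) -
        ((e₂ : ℤ) * (v' : ℤ) ^ m - t * e₁ * (u' : ℤ) ^ m) * (t * e₁ * (u : ℤ) ^ m) := by
      have h3 : (u : ℤ) * v' + (v * u' - u * v') = v * u' := by ring
      rw [h3, mul_pow, mul_pow]
      ring
    rw [h2]
    exact dvd_sub (Dvd.dvd.mul_right hX _) (Dvd.dvd.mul_right hX' _)
  have hco : IsCoprime (y : ℤ) (t * ((e₁ : ℤ) * e₂)) := by
    refine IsCoprime.mul_right ?_ ?_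
    · rcases ht with ht | ht
      · rw [ht]
        exact isCoprime_one_right
      · rw [ht]
        exact isCoprime_one_right.neg_right
    · have h4 : IsCoprime ((y : ℕ) : ℤ) ((e₁ * e₂ : ℕ) : ℤ) :=
        Nat.isCoprime_iff_coprime.mpr
          (Nat.Coprime.coprime_dvd_left hyw (QCW_cop m w e₁ e₂ h.e2 h.even).symm)
      rwa [Nat.cast_mul] at h4
  have hpow : (y : ℤ) ∣ (((u : ℤ) * v' + (v * u' - u * v')) ^ m - ((u : ℤ) * v') ^ m) :=
    hco.dvd_of_dvd_mul_right hcross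
  have hyc : IsCoprime ((u : ℤ) * v') (R : ℤ) := by
    have h5 : IsCoprime ((u * v' : ℕ) : ℤ) ((R : ℕ) : ℤ) :=
      Nat.isCoprime_iff_coprime.mpr
        (Nat.Coprime.mul_left (QCW_rad w R u hpr h.uw) (QCW_rad w R v' hpr h'.vw))
    rwa [Nat.cast_mul] at h5
  exact_mod_cast h1 ℤ R y m ((u : ℤ) * v') (v * u' - u * v') (by omega) hR hy1
    (fun p hp hpy => (hpr p hp).1 (dvd_trans hpy hyw))
    (by exact_mod_cast hyc) (by exact_mod_cast hdvd) (by exact_mod_cast hpow)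

end Pool.FCR
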