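import Pool.Agent.Work.MP_2738db_R.Defs
import Pool.Agent.Work.MP_2738db_S.B_QDC

set_option autoImplicit false

/-! # Block QDW: decomposition in the square case, third term `w` (helper88) -/

namespace Pool.FCR

open NumberField Pool.FCS

theorem p_QDW : S_QDW := by
  intro m w y t a b hm hw hy hs
  have hy1 : 1 ≤ y := by
    rcases Nat.eq_zero_or_pos y with h | h
    · rw [h] at hy
      norm_num at hy
      omega
    · exact h
  have hyZ : ((y : ℤ)) ^ 2 = (w : ℤ) := by exact_mod_cast hy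
  have heq : t * (a : ℤ) ^ m = ((b : ℤ) - y) * ((b : ℤ) + y) := by
    rw [hs.eq, ← hyZ]
    ring
  have ht2 : t * t = 1 := by
    rcases hs.ht with h | h <;> rw [h] <;> norm_num
  have haZ : (0 : ℤ) < (a : ℤ) ^ m := by
    have := hs.ha
    positivity
  have hb := hs.hb
  have hby : (0 : ℤ) < (b : ℤ) + y := by omega
  -- the sign
  obtain ⟨X₁, hX₁⟩ : ∃ X₁ : ℕ, t * ((b : ℤ) - y) = X₁ := by
    have h1 : 0 ≤ t * ((b : ℤ) - y) := by
      by_contra h2
      push Not at h2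
      have h3 : t * ((b : ℤ) - y) * ((b : ℤ) + y) < 0 := mul_neg_of_neg_of_pos h2 hby
      have h4 : t * ((b : ℤ) - y) * ((b : ℤ) + y) = (a : ℤ) ^ m := by
        calc t * ((b : ℤ) - y) * ((b : ℤ) + y) = t * (((b : ℤ) - y) * ((b : ℤ) + y)) := by ring
          _ = t * (t * (a : ℤ) ^ m) := by rw [heq]
          _ = (t * t) * (a : ℤ) ^ m := by ring
          _ = (a : ℤ) ^ m := by rw [ht2, one_mul]
      omega
    exact ⟨(t * ((b : ℤ) - y)).toNat, (Int.toNat_of_nonneg h1).symm⟩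
  have hX1b : (b : ℤ) - y = t * X₁ := by
    rw [← hX₁, ← mul_assoc, ht2, one_mul]
  have hprodZ : (X₁ : ℤ) * ((b + y : ℕ) : ℤ) = (a : ℤ) ^ m := by
    push_cast
    calc (X₁ : ℤ) * ((b : ℤ) + y) = t * (((b : ℤ) - y) * ((b : ℤ) + y)) := by rw [← hX₁]; ring
      _ = t * (t * (a : ℤ) ^ m) := by rw [heq]
      _ = (t * t) * (a : ℤ) ^ m := by ring
      _ = (a : ℤ) ^ m := by rw [ht2, one_mul]
  have hprod : X₁ * (b + y) = a ^ m := by exact_mod_cast hprodZ
  have hX11 : 1 ≤ X₁ := by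
    rcases Nat.eq_zero_or_pos X₁ with h | h
    · exfalso
      rw [h, zero_mul] at hprod
      have := hs.ha
      have h5 : 0 < a ^ m := by positivity
      omega
    · exact h
  -- the gcd
  have hg : Nat.gcd X₁ (b + y) ∣ 2 := by
    have h1 : (Nat.gcd X₁ (b + y) : ℤ) ∣ (X₁ : ℤ) := by exact_mod_cast Nat.gcd_dvd_left X₁ (b + y)
    have h2 : (Nat.gcd X₁ (b + y) : ℤ) ∣ ((b + y : ℕ) : ℤ) := by
      exact_mod_cast Nat.gcd_dvd_right X₁ (b + y)
    have h3 : (Nat.gcd X₁ (b + y) : ℤ) ∣ ((2 * b : ℕ) : ℤ) := by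
      have h4 : ((2 * b : ℕ) : ℤ) = t * X₁ + ((b + y : ℕ) : ℤ) := by
        rw [← hX1b]
        push_cast
        ring
      rw [h4]
      exact dvd_add (dvd_mul_of_dvd_right h1 t) h2
    have h5 : Nat.gcd X₁ (b + y) ∣ 2 * b := by exact_mod_cast h3
    have h6 : Nat.gcd X₁ (b + y) ∣ a ^ m := by
      rw [← hprod]
      exact dvd_mul_of_dvd_left (Nat.gcd_dvd_left _ _) _
    have h7 : Nat.Coprime (Nat.gcd X₁ (b + y)) b :=
      Nat.Coprime.coprime_dvd_left h6 (Nat.Coprime.pow_left m hs.hab)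
    exact Nat.Coprime.dvd_of_dvd_mul_right h7 h5
  obtain ⟨e₁, e₂, u, v, hE, hodd, hu, hv⟩ := QDC_nat hm hX11 hprod hg
  have hm0 : m ≠ 0 := by omega
  have hu1 : 1 ≤ u := by
    rcases Nat.eq_zero_or_pos u with h | h
    · exfalso
      rw [h, zero_pow hm0, mul_zero] at hu
      omega
    · exact h
  have hv1 : 1 ≤ v := by
    rcases Nat.eq_zero_or_pos v with h | h
    · exfalso
      rw [h, zero_pow hm0, mul_zero] at hv
      omega
    · exact h
  have hamc : Nat.Coprime (a ^ m) w := Nat.Coprime.pow_left m hs.haw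
  refine ⟨e₁, e₂, u, v, hE, ?_, hu1, hv1, ?_, ?_, ?_, ?_⟩
  · intro hce
    apply hodd
    by_contra hao
    rw [Nat.not_odd_iff_even] at hao
    have h8 : 2 ∣ Nat.gcd a w := Nat.dvd_gcd hao.two_dvd hce.two_dvd
    rw [hs.haw] at h8
    omega
  · refine Nat.Coprime.coprime_dvd_left ?_ hamc
    rw [← hprod, hu]
    exact dvd_mul_of_dvd_left (dvd_mul_of_dvd_right (dvd_pow_self u hm0) _) _
  · refine Nat.Coprime.coprime_dvd_left ?_ hamc
    rw [← hprod, hv]
    exact dvd_mul_of_dvd_right (dvd_mul_of_dvd_right (dvd_pow_self v hm0) _) _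
  · rw [hX1b, hu]
    push_cast
    ring
  · have h9 : ((b + y : ℕ) : ℤ) = ((e₂ * v ^ m : ℕ) : ℤ) := by rw [hv]
    push_cast at h9
    exact h9

end Pool.FCR
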