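import Pool.Agent.Work.MP_2738db_R.Defs

set_option autoImplicit false

/-! # MP_2738db_nt, THEOREM T*, block QNW -/

namespace Pool.FCR

open NumberField Pool.FCS

theorem p_QNW : S_QNW := by
  intro m w y t b b' e₁ e₂ u v u' v' hy ht hm h h' huv
  have h1 := h.minus
  have h2 := h.plus
  have h3 := h'.minus
  have h4 := h'.plus
  have hp : ((v : ℤ) * u') ^ m = ((u : ℤ) * v') ^ m := by rw [huv]
  have h5 : ((b : ℤ) - y) * ((b' : ℤ) + y) = t * e₁ * e₂ * ((u : ℤ) * v') ^ m := by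
    rw [h1, h4, mul_pow]
    ring
  have h6 : ((b' : ℤ) - y) * ((b : ℤ) + y) = t * e₁ * e₂ * ((v : ℤ) * u') ^ m := by
    rw [h3, h2, mul_pow]
    ring
  rw [hp, ← h5] at h6
  have h7 : (2 * (y : ℤ)) * b = (2 * y) * b' := by linarith
  have hy0 : (2 * (y : ℤ)) ≠ 0 := by
    have : (1 : ℤ) ≤ y := by exact_mod_cast hy
    omega
  have h8 := mul_left_cancel₀ hy0 h7
  exact_mod_cast h8

end Pool.FCR
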