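import Pool.Agent.Work.MP_2738db_R.Defs
import Pool.Agent.Work.MP_2738db_S.B_QSZ

set_option autoImplicit false

/-! # MP_2738db_nt, THEOREM T*, block QZW (copy of QSZ with the bound `y`) -/

namespace Pool.FCR

open NumberField Pool.FCS

theorem QZW_e (m w y : ℕ) (t : ℤ) (b e₁ e₂ u v : ℕ) (h : DcpW m w y t b e₁ e₂ u v) :
    1 ≤ e₁ ∧ 1 ≤ e₂ := by
  rcases h.e2 with ⟨a, b⟩ | ⟨a, b⟩ | ⟨a, b⟩
  · rw [a, b]
    exact ⟨le_rfl, le_rfl⟩
  · rw [a, b]
    exact ⟨by norm_num, Nat.one_le_two_pow⟩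
  · rw [a, b]
    exact ⟨Nat.one_le_two_pow, by norm_num⟩

/-- the bounds in the first case -/
theorem QZW_small (m w y : ℕ) (t : ℤ) (b e₁ e₂ u v : ℕ) (ht : t = 1 ∨ t = -1)
    (h : DcpW m w y t b e₁ e₂ u v) (hb : b < 8 * y) : u ^ m ≤ 9 * y ∧ v ^ m ≤ 9 * y := by
  obtain ⟨h1, h2⟩ := QZW_e m w y t b e₁ e₂ u v h
  have hm := h.minus
  have hp := h.plus
  have hu : (u : ℤ) ^ m ≤ e₁ * (u : ℤ) ^ m := by
    refine le_mul_of_one_le_left (by positivity) (by exact_mod_cast h1)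
  have hv : (v : ℤ) ^ m ≤ e₂ * (v : ℤ) ^ m := by
    refine le_mul_of_one_le_left (by positivity) (by exact_mod_cast h2)
  have hb' : (b : ℤ) < 8 * y := by exact_mod_cast hb
  have hb0 : (0 : ℤ) ≤ b := by positivity
  have hy0 : (0 : ℤ) ≤ y := by positivity
  constructor
  · have : (u : ℤ) ^ m ≤ 9 * y := by
      rcases ht with ht | ht
      · rw [ht] at hm
        have h3 : (e₁ : ℤ) * (u : ℤ) ^ m = b - y := by linarith
        linarith
      · rw [ht] at hm
        have h3 : (e₁ : ℤ) * (u : ℤ) ^ m = y - b := by linarith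
        linarith
    exact_mod_cast this
  · have : (v : ℤ) ^ m ≤ 9 * y := by linarith
    exact_mod_cast this

/-- `t = 1` in the second case -/
theorem QZW_pos (m w y : ℕ) (t : ℤ) (b e₁ e₂ u v : ℕ) (ht : t = 1 ∨ t = -1)
    (h : DcpW m w y t b e₁ e₂ u v) (hy : 1 ≤ y) (hb : 8 * y ≤ b) : t = 1 := by
  rcases ht with ht | ht
  · exact ht
  · exfalso
    have hm := h.minus
    rw [ht] at hm
    have h3 : (0 : ℤ) ≤ (e₁ : ℤ) * (u : ℤ) ^ m := by positivity
    have hb' : 8 * (y : ℤ) ≤ b := by exact_mod_cast hb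
    have hy' : (1 : ℤ) ≤ y := by exact_mod_cast hy
    linarith

/-- BLOCK QZW -/
theorem p_QZW : S_QZW := by
  intro m c w y t b b' e₁ e₂ u v u' v' hm hc hw hy ht h h' hb hb' hcase
  obtain ⟨j, rfl⟩ : ∃ j, m = j + 3 := ⟨m - 3, by omega⟩
  have hy1 : 1 ≤ y := by
    rcases Nat.eq_zero_or_pos y with h0 | h0
    · rw [h0] at hy
      simp at hy
      omega
    · exact h0
  have hyc : y < c * y := by
    calc y < 2 * y := by omega
      _ ≤ c * y := Nat.mul_le_mul_right _ hc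
  obtain ⟨he1, he2⟩ := QZW_e _ _ _ _ _ _ _ _ _ h
  have hHb : Hb 2 (j + 3) c = 7077888 * (c * (j + 3)) ^ 3 := by
    unfold Hb
    ring
  rw [hHb] at hb hb'
  rcases hcase with ⟨c1, c2⟩ | ⟨c1, c2, c3, c4⟩
  · obtain ⟨hu, hv⟩ := QZW_small _ _ _ _ _ _ _ _ _ ht h c1
    obtain ⟨hu', hv'⟩ := QZW_small _ _ _ _ _ _ _ _ _ ht h' c2
    have hA : (v * u') ^ (j + 3) ≤ 81 * y ^ 2 := by
      rw [mul_pow]
      calc v ^ (j + 3) * u' ^ (j + 3) ≤ (9 * y) * (9 * y) := Nat.mul_le_mul hv hu'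
        _ = 81 * y ^ 2 := by ring
    have hB : (u * v') ^ (j + 3) ≤ 81 * y ^ 2 := by
      rw [mul_pow]
      calc u ^ (j + 3) * v' ^ (j + 3) ≤ (9 * y) * (9 * y) := Nat.mul_le_mul hu hv'
        _ = 81 * y ^ 2 := by ring
    have := QSZ_case1 j c y y (v * u') (u * v') hc hyc hA hB (by omega)
    push_cast at this ⊢
    exact this
  · have ht1 := QZW_pos _ _ _ _ _ _ _ _ _ ht h hy1 c1
    have hc3 : 24 * c ^ 3 ≤ 7077888 * (c * (j + 3)) ^ 3 := by
      have h1 : c ^ 3 ≤ (c * (j + 3)) ^ 3 :=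
        Nat.pow_le_pow_left (Nat.le_mul_of_pos_right _ (by omega)) 3
      omega
    have h1 := h.minus
    have h2 := h.plus
    have h3 := h'.minus
    have h4 := h'.plus
    rw [ht1, one_mul] at h1 h3
    rcases lt_trichotomy (u * v') (v * u') with hlt | heq | hgt
    · have h5 := QSZ_case2 j c y y b b' e₁ e₂ u v u' v' hc hy1 hyc he1 he2 h1 h2 h3 h4
        (by omega) c1 c2 c4 hlt h.hu h'.hv
      have h6 : (0 : ℤ) ≤ (v : ℤ) * u' - u * v' := by
        have : ((u * v' : ℕ) : ℤ) < ((v * u' : ℕ) : ℤ) := by exact_mod_cast hlt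
        push_cast at this
        linarith
      rw [abs_of_nonneg h6]
      exact h5
    · have h6 : (v : ℤ) * u' - u * v' = 0 := by
        have : ((u * v' : ℕ) : ℤ) = ((v * u' : ℕ) : ℤ) := by rw [heq]
        push_cast at this
        linarith
      rw [h6, abs_zero, mul_zero]
      exact_mod_cast hy1
    · have hgt' : u' * v < v' * u := by
        have e1 : u' * v = v * u' := mul_comm _ _
        have e2 : v' * u = u * v' := mul_comm _ _
        omega
      have h5 := QSZ_case2 j c y y b' b e₁ e₂ u' v' u v hc hy1 hyc he1 he2 h3 h4 h1 h2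
        (by omega) c2 c1 c3 hgt' h'.hu h.hv
      have h6 : (v : ℤ) * u' - u * v' ≤ 0 := by
        have : ((v * u' : ℕ) : ℤ) < ((u * v' : ℕ) : ℤ) := by exact_mod_cast hgt
        push_cast at this
        linarith
      rw [abs_of_nonpos h6]
      have h7 : -((v : ℤ) * u' - u * v') = (v' : ℤ) * u - u' * v := by ring
      rw [h7]
      exact h5

end Pool.FCR
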