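import Pool.Agent.Work.MP_2738db_R.Defs

/-! # THEOREM T*: block RDW (numbers with small radical) -/

set_option autoImplicit false

namespace Pool.FCR

open NumberField Pool.FCS

/-- the product of distinct positive integers -/
theorem RDW_fact (s : Finset ℕ) (h : ∀ p ∈ s, 1 ≤ p) : (s.card).factorial ≤ ∏ p ∈ s, p := by
  induction s using Finset.induction_on_max with
  | empty => simp
  | insert a s ha ih =>
    have hnot : a ∉ s := fun h1 => lt_irrefl _ (ha a h1)
    rw [Finset.card_insert_of_notMem hnot, Finset.prod_insert hnot, Nat.factorial_succ]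
    have h1 : s.card + 1 ≤ a := by
      have h2 : s ⊆ Finset.Ico 1 a := fun p hp =>
        Finset.mem_Ico.mpr ⟨h p (Finset.mem_insert_of_mem hp), ha p hp⟩
      have h3 := Finset.card_le_card h2
      rw [Nat.card_Ico] at h3
      have h4 := h a (Finset.mem_insert_self a s)
      omega
    exact Nat.mul_le_mul h1 (ih fun p hp => h p (Finset.mem_insert_of_mem hp))

theorem RDW_div (s : Finset ℕ) (l : ℕ) (h : ∀ p ∈ s, p.Prime) :
    ((∏ p ∈ s, p) ^ l).divisors.card = (l + 1) ^ s.card := by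
  classical
  induction s using Finset.induction_on with
  | empty => simp
  | insert a s ha ih =>
    have hap := h a (Finset.mem_insert_self a s)
    rw [Finset.card_insert_of_notMem ha, Finset.prod_insert ha, mul_pow]
    have hco : Nat.Coprime (a ^ l) ((∏ p ∈ s, p) ^ l) := by
      apply Nat.Coprime.pow
      apply Nat.Coprime.prod_right
      intro p hp
      have hpp := h p (Finset.mem_insert_of_mem hp)
      rw [Nat.coprime_primes hap hpp]
      rintro rfl
      exact ha hp
    rw [hco.card_divisors_mul, ih fun p hp => h p (Finset.mem_insert_of_mem hp),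
      Nat.divisors_prime_pow hap, Finset.card_map, Finset.card_range]
    ring

theorem RDW_dvd (w l : ℕ) (hw : w ≠ 0) (hl : Nat.log 2 w ≤ l) : w ∣ rad w ^ l := by
  have h1 : ∏ p ∈ w.primeFactors, p ^ w.factorization p = w :=
    Nat.prod_factorization_pow_eq_self hw
  have h2 : rad w ^ l = ∏ p ∈ w.primeFactors, p ^ l := by
    unfold rad
    rw [Finset.prod_pow]
  rw [h2]
  conv_lhs => rw [← h1]
  apply Finset.prod_dvd_prod_of_dvd
  intro p hp
  apply pow_dvd_pow
  refine le_trans ?_ hl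
  have hpp := Nat.prime_of_mem_primeFactors hp
  have h3 : p ^ w.factorization p ≤ w := Nat.le_of_dvd (Nat.pos_of_ne_zero hw)
    (Nat.ordProj_dvd w p)
  have h4 : 2 ^ w.factorization p ≤ w := (Nat.pow_le_pow_left hpp.two_le _).trans h3
  exact Nat.le_log_of_pow_le (by norm_num) h4

/-- the estimate of the number of prime factors -/
theorem RDW_om (L K : ℝ) (ω : ℕ) (hL : Real.exp 8 ≤ L) (hK : 1 ≤ K) (hKL : K ≤ L)
    (h : Real.log (ω.factorial : ℝ) ≤ L / K) :
    (ω : ℝ) * (2 * Real.log L) ≤ 24 * (L / K ^ ((2 : ℝ) / 3)) := by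
  have hL8 : 8 ≤ Real.log L := by
    rw [Real.le_log_iff_exp_le (lt_of_lt_of_le (Real.exp_pos _) hL)]
    exact hL
  have hL0 : 0 < L := lt_of_lt_of_le (Real.exp_pos _) hL
  have hK0 : 0 < K := by linarith
  have hK23 : K ^ ((2 : ℝ) / 3) ≤ K := by
    conv_rhs => rw [← Real.rpow_one K]
    exact Real.rpow_le_rpow_of_exponent_le hK (by norm_num)
  have hK23' : 0 < K ^ ((2 : ℝ) / 3) := Real.rpow_pos_of_pos hK0 _
  have hω0 : (0 : ℝ) ≤ ω := by positivity
  rcases le_or_gt (ω : ℝ) (L ^ ((1 : ℝ) / 4)) with h1 | h1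
  · have h2 : Real.log L ≤ 12 * L ^ ((1 : ℝ) / 12) := by
      have h3 := Real.log_le_rpow_div hL0.le (show (0 : ℝ) < 1 / 12 by norm_num)
      calc Real.log L ≤ L ^ ((1 : ℝ) / 12) / (1 / 12) := h3
        _ = 12 * L ^ ((1 : ℝ) / 12) := by ring
    have h3 : L ^ ((1 : ℝ) / 4) * L ^ ((1 : ℝ) / 12) = L ^ ((1 : ℝ) / 3) := by
      rw [← Real.rpow_add hL0]
      norm_num
    have h4 : L ^ ((1 : ℝ) / 3) ≤ L / K ^ ((2 : ℝ) / 3) := by
      rw [le_div_iff₀ hK23']
      calc L ^ ((1 : ℝ) / 3) * K ^ ((2 : ℝ) / 3) ≤ L ^ ((1 : ℝ) / 3) * L ^ ((2 : ℝ) / 3) := by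
            apply mul_le_mul_of_nonneg_left _ (Real.rpow_nonneg hL0.le _)
            exact Real.rpow_le_rpow hK0.le hKL (by norm_num)
        _ = L := by
            rw [← Real.rpow_add hL0]
            norm_num
    calc (ω : ℝ) * (2 * Real.log L) ≤ L ^ ((1 : ℝ) / 4) * (2 * (12 * L ^ ((1 : ℝ) / 12))) := by
          gcongr
      _ = 24 * (L ^ ((1 : ℝ) / 4) * L ^ ((1 : ℝ) / 12)) := by ring
      _ = 24 * L ^ ((1 : ℝ) / 3) := by rw [h3]
      _ ≤ _ := by gcongr
  · have hω1 : (0 : ℝ) < ω := lt_of_le_of_lt (Real.rpow_nonneg hL0.le _) h1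
    have h2 : (1 / 4) * Real.log L < Real.log ω := by
      have h3 := Real.log_lt_log (Real.rpow_pos_of_pos hL0 _) h1
      rwa [Real.log_rpow hL0] at h3
    have h3 : (ω : ℝ) * Real.log ω - ω ≤ L / K := by
      have h4 := Real.pow_div_factorial_le_exp (ω : ℝ) hω0 ω
      have hf : (0 : ℝ) < (ω.factorial : ℝ) := by exact_mod_cast Nat.factorial_pos ω
      have h5 := Real.log_le_log (by positivity) h4
      rw [Real.log_exp, Real.log_div (by positivity) hf.ne', Real.log_pow] at h5
      linarith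
    have h5 : (ω : ℝ) * Real.log L ≤ 8 * (L / K) := by
      have h6 : (ω : ℝ) * ((1 / 4) * Real.log L) ≤ ω * Real.log ω :=
        mul_le_mul_of_nonneg_left h2.le hω0
      have h7 : (ω : ℝ) * 8 ≤ ω * Real.log L := mul_le_mul_of_nonneg_left hL8 hω0
      linarith
    have h8 : L / K ≤ L / K ^ ((2 : ℝ) / 3) := by gcongr
    have h9 : 0 ≤ L / K ^ ((2 : ℝ) / 3) := by positivity
    linarith

theorem p_RDW : S_RDW := by
  refine ⟨25 + Real.exp (Real.exp 8), by positivity, fun X K hX hK hKX => ?_⟩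
  have hX0 : 0 < X := lt_of_lt_of_le (by positivity) hX
  set L := Real.log X with hLdef
  have hL : Real.exp 8 ≤ L := by
    rw [hLdef, Real.le_log_iff_exp_le hX0]
    linarith
  have hL9 : (9 : ℝ) ≤ L := by
    have := Real.add_one_le_exp (8 : ℝ)
    linarith
  have hL0 : 0 < L := by linarith
  have hLL : 8 ≤ Real.log L := by
    rw [Real.le_log_iff_exp_le hL0]
    exact hL
  have hK0 : 0 < K := by linarith
  have hKL : K ≤ L := by
    have h1 : (1 : ℝ) ≤ (25 + Real.exp (Real.exp 8)) * Real.log L := by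
      have : (0 : ℝ) < Real.exp (Real.exp 8) := Real.exp_pos _
      nlinarith
    calc K = K * 1 := (mul_one K).symm
      _ ≤ K * ((25 + Real.exp (Real.exp 8)) * Real.log L) := by gcongr
      _ = (25 + Real.exp (Real.exp 8)) * K * Real.log L := by ring
      _ ≤ L := hKX
  have hK23' : 0 < K ^ ((2 : ℝ) / 3) := Real.rpow_pos_of_pos hK0 _
  have hK23 : K ^ ((2 : ℝ) / 3) ≤ K := by
    conv_rhs => rw [← Real.rpow_one K]
    exact Real.rpow_le_rpow_of_exponent_le (by linarith) (by norm_num)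
  set Q := L / K ^ ((2 : ℝ) / 3) with hQ
  have hQ0 : 0 ≤ Q := by positivity
  have hQK : L / K ≤ Q := by rw [hQ]; gcongr
  set l := Nat.log 2 ⌊X⌋₊ with hl
  have hfl : ⌊X⌋₊ ≠ 0 := by
    have h1 : 1 ≤ ⌊X⌋₊ := by
      rw [Nat.one_le_floor_iff]
      have h2 : (0 : ℝ) < Real.exp (Real.exp 8) := Real.exp_pos _
      linarith
    omega
  have hlL : Real.log ((l : ℝ) + 1) ≤ 2 * Real.log L := by
    have h1 : 2 ^ l ≤ ⌊X⌋₊ := Nat.pow_log_le_self 2 hfl
    have h2 : ((2 : ℝ)) ^ l ≤ X := by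
      have h3 : ((2 ^ l : ℕ) : ℝ) ≤ (⌊X⌋₊ : ℝ) := by exact_mod_cast h1
      push_cast at h3
      exact h3.trans (Nat.floor_le hX0.le)
    have h3 : (l : ℝ) * Real.log 2 ≤ L := by
      rw [hLdef, ← Real.log_pow]
      exact Real.log_le_log (by positivity) h2
    have h4 : (1 : ℝ) / 2 ≤ Real.log 2 := by
      have := Real.log_two_gt_d9
      linarith
    have h5 : (l : ℝ) ≤ 2 * L := by nlinarith [(by positivity : (0 : ℝ) ≤ l)]
    calc Real.log ((l : ℝ) + 1) ≤ Real.log (L ^ 2) := by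
          apply Real.log_le_log (by positivity)
          nlinarith
      _ = 2 * Real.log L := by rw [Real.log_pow]; norm_num
  -- the main facts
  have hmain : ∀ w, RW X K w → w ∣ rad w ^ l ∧
      (((rad w) ^ l).divisors.card : ℝ) ≤ Real.exp (24 * Q) ∧ 1 ≤ rad w ∧
      (rad w : ℝ) ≤ X ^ (1 / K) ∧ w ≤ ⌊X⌋₊ := by
    rintro w ⟨h1, h2, h3⟩
    have hwX : w ≤ ⌊X⌋₊ := Nat.le_floor h2
    have hr : 1 ≤ rad w := by
      unfold rad
      exact Finset.prod_pos fun p hp => (Nat.prime_of_mem_primeFactors hp).pos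
    refine ⟨RDW_dvd w l (by omega) (Nat.log_mono_right hwX), ?_, hr, h3, hwX⟩
    have h4 := RDW_div w.primeFactors l fun p hp => Nat.prime_of_mem_primeFactors hp
    change (((∏ p ∈ w.primeFactors, p) ^ l).divisors.card : ℝ) ≤ _
    rw [h4]
    have h5 := RDW_fact w.primeFactors fun p hp => (Nat.prime_of_mem_primeFactors hp).one_le
    have h6 : Real.log ((w.primeFactors.card.factorial : ℕ) : ℝ) ≤ L / K := by
      have h7 : ((w.primeFactors.card.factorial : ℕ) : ℝ) ≤ X ^ (1 / K) := by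
        refine le_trans ?_ h3
        exact_mod_cast h5
      have h8 : (0 : ℝ) < ((w.primeFactors.card.factorial : ℕ) : ℝ) := by
        exact_mod_cast Nat.factorial_pos _
      have h9 := Real.log_le_log h8 h7
      rw [Real.log_rpow hX0] at h9
      calc _ ≤ 1 / K * Real.log X := h9
        _ = L / K := by rw [hLdef]; ring
    have h7 := RDW_om L K w.primeFactors.card hL (by linarith) hKL h6
    push_cast
    have h8 : ((l : ℝ) + 1) ^ w.primeFactors.card =
        Real.exp (w.primeFactors.card * Real.log ((l : ℝ) + 1)) := by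
      rw [Real.exp_nat_mul, Real.exp_log (by positivity)]
    rw [h8, Real.exp_le_exp]
    calc (w.primeFactors.card : ℝ) * Real.log ((l : ℝ) + 1) ≤
        w.primeFactors.card * (2 * Real.log L) := by gcongr
      _ ≤ 24 * Q := h7
  have hfin : {w : ℕ | RW X K w}.Finite :=
    (Set.finite_Iic ⌊X⌋₊).subset fun w hw => (hmain w hw).2.2.2.2
  have hCQ : 25 * Q ≤ (25 + Real.exp (Real.exp 8)) / K ^ ((2 : ℝ) / 3) * L := by
    have h1 : (25 + Real.exp (Real.exp 8)) / K ^ ((2 : ℝ) / 3) * L =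
        (25 + Real.exp (Real.exp 8)) * Q := by rw [hQ]; ring
    rw [h1]
    have h2 : (0 : ℝ) < Real.exp (Real.exp 8) := Real.exp_pos _
    nlinarith
  refine ⟨hfin, ?_, ?_⟩
  · set T := (Finset.Icc 1 ⌊X ^ (1 / K)⌋₊).filter
      (fun r => ((r ^ l).divisors.card : ℝ) ≤ Real.exp (24 * Q)) with hT
    have hsub : {w : ℕ | RW X K w} ⊆ ↑(T.biUnion fun r => (r ^ l).divisors) := by
      intro w hw
      obtain ⟨h1, h2, h3, h4, h5⟩ := hmain w hw
      rw [Finset.mem_coe, Finset.mem_biUnion]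
      refine ⟨rad w, ?_, ?_⟩
      · rw [hT, Finset.mem_filter, Finset.mem_Icc]
        exact ⟨⟨h3, Nat.le_floor h4⟩, h2⟩
      · rw [Nat.mem_divisors]
        exact ⟨h1, pow_ne_zero _ (by omega)⟩
    have h1 : {w : ℕ | RW X K w}.ncard ≤ (T.biUnion fun r => (r ^ l).divisors).card := by
      rw [← Set.ncard_coe_finset]
      exact Set.ncard_le_ncard hsub (Finset.finite_toSet _)
    have h2 : ((T.biUnion fun r => (r ^ l).divisors).card : ℝ) ≤
        X ^ (1 / K) * Real.exp (24 * Q) := by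
      calc ((T.biUnion fun r => (r ^ l).divisors).card : ℝ)
          ≤ ((∑ r ∈ T, (r ^ l).divisors.card : ℕ) : ℝ) := by
            exact_mod_cast Finset.card_biUnion_le
        _ = ∑ r ∈ T, ((r ^ l).divisors.card : ℝ) := by push_cast; rfl
        _ ≤ ∑ _r ∈ T, Real.exp (24 * Q) := by
            refine Finset.sum_le_sum fun r hr => ?_
            rw [hT, Finset.mem_filter] at hr
            exact hr.2
        _ = T.card * Real.exp (24 * Q) := by rw [Finset.sum_const, nsmul_eq_mul]
        _ ≤ X ^ (1 / K) * Real.exp (24 * Q) := by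
            apply mul_le_mul_of_nonneg_right _ (Real.exp_pos _).le
            have h3 : T.card ≤ ⌊X ^ (1 / K)⌋₊ := by
              refine (Finset.card_filter_le _ _).trans ?_
              rw [Nat.card_Icc]
              omega
            have h4 : (T.card : ℝ) ≤ (⌊X ^ (1 / K)⌋₊ : ℝ) := by exact_mod_cast h3
            exact h4.trans (Nat.floor_le (Real.rpow_nonneg hX0.le _))
    have h3 : X ^ (1 / K) = Real.exp (L / K) := by
      rw [Real.rpow_def_of_pos hX0, hLdef]
      congr 1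
      ring
    calc ({w : ℕ | RW X K w}.ncard : ℝ)
        ≤ ((T.biUnion fun r => (r ^ l).divisors).card : ℝ) := by exact_mod_cast h1
      _ ≤ X ^ (1 / K) * Real.exp (24 * Q) := h2
      _ = Real.exp (L / K + 24 * Q) := by rw [h3, Real.exp_add]
      _ ≤ _ := by
          rw [Real.exp_le_exp]
          linarith
  · intro w hw
    obtain ⟨h1, h2, h3, -, -⟩ := hmain w hw
    have h4 : w.divisors.card ≤ ((rad w) ^ l).divisors.card :=
      Finset.card_le_card (Nat.divisors_subset_of_dvd (pow_ne_zero _ (by omega)) h1)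
    calc (w.divisors.card : ℝ) ≤ (((rad w) ^ l).divisors.card : ℝ) := by exact_mod_cast h4
      _ ≤ Real.exp (24 * Q) := h2
      _ ≤ _ := by
          rw [Real.exp_le_exp]
          linarith

end Pool.FCR

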