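import Pool.Agent.Work.MP_2738db_R.Defs

set_option autoImplicit false

namespace Pool.FCR

open NumberField Pool.FCS

theorem p_REW (h1 : S_COW) (h2 : S_GAM) : S_REW := by
  intro K _ _ n m c R w w₀ w₁ s t θ a₀ b₀ a b a' b' ρ ρ' g g' hm hW hF h₀ h h' hx hx' hg hg' hd
  obtain ⟨p1, -, -, -, p5, p6, p7, p8, -⟩ := h1 K n m c R w w₀ w₁ s t θ a₀ b₀ hW hF h₀
  obtain ⟨q1, -, -, -, q5, q6, q7, q8, -⟩ := h1 K n m c R w w₀ w₁ s t θ a b hW hF h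
  obtain ⟨r1, -, -, -, r5, r6, r7, r8, -⟩ := h1 K n m c R w w₀ w₁ s t θ a' b' hW hF h'
  have hρ : ρ ≠ 0 := by
    intro h0
    rw [h0, zero_pow (by omega), mul_zero] at hx
    exact q5 (RingOfIntegers.coe_eq_zero_iff.1 hx)
  have hxx : (xw θ w₁ b' : K) = (xw θ w₁ b : K) * (ρ' / ρ) ^ m := by
    rw [hx', hx, div_pow]
    field_simp
  refine ⟨hρ, hxx, ?_⟩
  obtain ⟨γ, hγ, hγm⟩ := h2 K a m t _ _ _ (ρ' / ρ) hm h.ht q5 q1 hxx
  refine ⟨γ, hγ, ?_⟩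
  obtain ⟨g₁, hg₁, hg₁m⟩ := h2 K a₀ m t _ _ _ ρ hm h₀.ht p5 p1 hx
  have hgg : g₁ = g := RingOfIntegers.ext (by rw [hg₁, hg])
  subst hgg
  -- coprimality of g
  have htu : IsCoprime (t : 𝓞 K) (R : 𝓞 K) := by
    rcases h.ht with ht | ht
    · rw [ht]
      exact ⟨1, 0, by push_cast; ring⟩
    · rw [ht]
      exact ⟨-1, 0, by push_cast; ring⟩
  have hcop : IsCoprime g₁ (R : 𝓞 K) := by
    have : IsCoprime (g₁ ^ m) (R : 𝓞 K) := by
      rw [hg₁m]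
      exact (htu.mul_left p8).mul_left q7
    exact (IsCoprime.pow_left_iff (by omega)).1 this
  have hmul : γ * g₁ = (a : 𝓞 K) * g' := by
    apply RingOfIntegers.ext
    have : (γ : K) * (g₁ : K) = (a : K) * (g' : K) := by
      rw [hγ, hg, hg']
      field_simp
    simpa using this
  have hdvd : (R : 𝓞 K) ^ 2 ∣ (γ - (a : 𝓞 K)) * g₁ := by
    have e : (γ - (a : 𝓞 K)) * g₁ = -((a : 𝓞 K) * (g₁ - g')) := by
      rw [sub_mul, hmul]
      ring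
    rw [e]
    exact (dvd_neg).2 (Dvd.dvd.mul_left hd _)
  exact (hcop.symm.pow_left (m := 2)).dvd_of_dvd_mul_right hdvd

end Pool.FCR
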