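import Pool.Agent.Work.MP_2738db_R.Defs

set_option autoImplicit false

/-! # MP_2738db_nt, THEOREM T*, block RNK -/

namespace Pool.FCR

open NumberField Pool.FCS

theorem RNK_cl {D : ℕ} (c : Fin D → ℚ) (hc : c ≠ 0) : ∃ (c' : Fin D → ℤ) (N : ℤ), c' ≠ 0 ∧
    ∀ l, ((c' l : ℤ) : ℚ) = N * c l := by
  obtain ⟨b, hb⟩ := IsLocalization.exist_integer_multiples_of_finite (nonZeroDivisors ℤ) c
  choose c' hc' using hb
  have h1 : ((b : ℤ) : ℚ) ≠ 0 := by
    have := nonZeroDivisors.ne_zero b.2
    exact_mod_cast this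
  have h2 : ∀ l, ((c' l : ℤ) : ℚ) = ((b : ℤ) : ℚ) * c l := by
    intro l
    have h3 := hc' l
    rw [Algebra.smul_def] at h3
    exact h3
  refine ⟨c', b, ?_, h2⟩
  intro h0
  apply hc
  funext l
  have h3 := h2 l
  rw [h0] at h3
  simp only [Pi.zero_apply, Int.cast_zero] at h3
  have h4 := h3.symm
  rcases mul_eq_zero.1 h4 with h5 | h5
  · exact absurd h5 h1
  · simpa using h5

theorem p_RNK : S_RNK := by
  intro α S D f hf
  obtain ⟨r, hr⟩ : ∃ r : α → Fin D → ℚ, r = fun x l => ((f l x : ℤ) : ℚ) := ⟨_, rfl⟩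
  by_cases htop : Submodule.span ℚ (r '' S) = ⊤
  · exfalso
    obtain ⟨b, hbS, hbs, hli⟩ := exists_linearIndependent ℚ (r '' S)
    rw [htop] at hbs
    have hspan : ⊤ ≤ Submodule.span ℚ (Set.range ((↑) : b → Fin D → ℚ)) := by
      rw [Subtype.range_coe, hbs]
    let B := Module.Basis.mk hli hspan
    haveI : Fintype b := FiniteDimensional.fintypeBasisIndex B
    have hcard : Fintype.card b = Fintype.card (Fin D) := by
      rw [← Module.finrank_eq_card_basis B]
      simp
    let e : Fin D ≃ b := Fintype.equivOfCardEq hcard.symm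
    have hex : ∀ i : Fin D, ∃ x ∈ S, r x = (e i : Fin D → ℚ) := fun i => hbS (e i).2
    choose k hkS hk using hex
    have h1 := hf k hkS
    have h2 : LinearIndependent ℚ (fun i : Fin D => ((e i : b) : Fin D → ℚ)) :=
      hli.comp e e.injective
    have h3 : ((Matrix.of fun i l => f l (k i)).map ((↑) : ℤ → ℚ)).row =
        fun i : Fin D => ((e i : b) : Fin D → ℚ) := by
      funext i
      rw [← hk i, hr]
      rfl
    have h4 : IsUnit ((Matrix.of fun i l => f l (k i)).map ((↑) : ℤ → ℚ)) := by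
      rw [← Matrix.linearIndependent_rows_iff_isUnit, h3]
      exact h2
    have h5 := (Matrix.isUnit_iff_isUnit_det _).1 h4
    have h6 : ((Matrix.of fun i l => f l (k i)).map ((↑) : ℤ → ℚ)).det =
        (((Matrix.of fun i l => f l (k i)).det : ℤ) : ℚ) :=
      (RingHom.map_det (Int.castRingHom ℚ) _).symm
    rw [h6, h1] at h5
    simp at h5
  · obtain ⟨φ, hφ, hle⟩ := Submodule.exists_le_ker_of_lt_top _ (lt_top_iff_ne_top.2 htop)
    obtain ⟨c, hc⟩ : ∃ c : Fin D → ℚ, c = fun l => φ (Pi.single l 1) := ⟨_, rfl⟩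
    have hφc : ∀ x : Fin D → ℚ, φ x = ∑ l, x l * c l := by
      intro x
      conv_lhs => rw [← Finset.univ_sum_single x]
      rw [map_sum]
      refine Finset.sum_congr rfl fun l _ => ?_
      rw [hc]
      have h1 : (Pi.single l (x l) : Fin D → ℚ) = x l • (Pi.single l 1 : Fin D → ℚ) := by
        rw [← Pi.single_smul, smul_eq_mul, mul_one]
      rw [h1, map_smul, smul_eq_mul]
    have hc0 : c ≠ 0 := by
      intro h0
      apply hφ
      refine LinearMap.ext fun x => ?_
      rw [hφc, h0]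
      simp
    obtain ⟨c', N, hc', hN⟩ := RNK_cl c hc0
    refine ⟨c', hc', ?_⟩
    intro x hx
    have h1 : φ (r x) = 0 := hle (Submodule.subset_span ⟨x, hx, rfl⟩)
    rw [hφc] at h1
    have h2 : ((∑ l, c' l * f l x : ℤ) : ℚ) = N * ∑ l, r x l * c l := by
      push_cast
      rw [Finset.mul_sum]
      refine Finset.sum_congr rfl fun l _ => ?_
      rw [hN, hr]
      ring
    rw [h1, mul_zero] at h2
    exact_mod_cast h2

end Pool.FCR
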