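import Pool.Agent.Work.MP_2738db_R.Defs

set_option autoImplicit false

/-! # MP_2738db_nt, block ROR (helper4): distribution of the value triples -/

namespace Pool.FCR

open NumberField Pool.FCS

theorem ROR_two {m n k : ℕ} (hm : 0 < m) (hn : 0 < n) (hk : 0 < k)
    (h : (1 : ℚ) / m + 1 / n + 1 / k < 1) : 2 ≤ m := by
  by_contra h1
  have h2 : m = 1 := by omega
  subst h2
  have h3 : (0 : ℚ) < 1 / k := one_div_pos.2 (by exact_mod_cast hk)
  have h4 : (0 : ℚ) < 1 / n := one_div_pos.2 (by exact_mod_cast hn)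
  norm_num at h
  rw [one_div] at h3 h4
  linarith

theorem ROR_three {n k : ℕ} (hn : 2 ≤ n) (hk : 0 < k)
    (h : (1 : ℚ) / n + 1 / n + 1 / k < 1) : 3 ≤ n := by
  by_contra h1
  have h2 : n = 2 := by omega
  subst h2
  have h3 : (0 : ℚ) < 1 / k := one_div_pos.2 (by exact_mod_cast hk)
  norm_num at h
  rw [one_div] at h3
  linarith

theorem ROR_swap (i : Fin 6) : ∃ i' : Fin 6, ∀ x y z : ℕ,
    perm6 i (x, y, z) = perm6 i' (y, x, z) := by
  fin_cases i
  · exact ⟨1, fun _ _ _ => rfl⟩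
  · exact ⟨0, fun _ _ _ => rfl⟩
  · exact ⟨4, fun _ _ _ => rfl⟩
  · exact ⟨5, fun _ _ _ => rfl⟩
  · exact ⟨2, fun _ _ _ => rfl⟩
  · exact ⟨3, fun _ _ _ => rfl⟩

theorem ROR_rad (u e : ℕ) (he : 0 < e) : rad (u ^ e) = rad u := by
  unfold rad
  rw [Nat.primeFactors_pow _ he.ne']

/-- larger exponent first -/
theorem ROR_lt {X K : ℝ} (hK : 2 ≤ K) (i : Fin 6) (a b w m n : ℕ) (s t : ℤ) (τ : ℕ × ℕ × ℕ)
    (hw : RW X K w) (ha : 2 ≤ a) (hb : 2 ≤ b) (hn : 2 ≤ n) (hnm : n < m)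
    (hs : s = 1 ∨ s = -1) (ht : t = 1 ∨ t = -1) (hab : Nat.Coprime a b) (haw : Nat.Coprime a w)
    (heq : t * (a : ℤ) ^ m = (b : ℤ) ^ n + s * (w : ℤ)) (h1 : (a : ℝ) ^ m ≤ X)
    (h2 : (b : ℝ) ^ n ≤ X) (hτ : τ = perm6 i (a ^ m, b ^ n, w)) : τ ∈ V1 X K ∪ V2 X K := by
  have hκ : 1 ≤ K ^ ((1 : ℝ) / 3) := Real.one_le_rpow (by linarith) (by norm_num)
  have hsol : SolW n m w s t a b := ⟨hs, ht, by omega, by omega, hab, haw, heq⟩
  by_cases h : K ^ ((1 : ℝ) / 3) ≤ (n : ℝ)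
  · right
    have hnm' : (n : ℝ) ≤ m := by exact_mod_cast hnm.le
    exact ⟨i, a, b, w, m, n, s, t, hw, ha, hb, hn, by omega, h, by linarith, hsol, h1, h2, hτ⟩
  · left
    push Not at h
    exact ⟨i, a, b, w, m, n, s, t, hw, ha, hb, hn, hnm, by linarith, hsol, h1, h2, hτ⟩

theorem ROR_core {X K : ℝ} (hK : 2 ≤ K) (i : Fin 6) (a b w m n : ℕ) (s t : ℤ)
    (τ : ℕ × ℕ × ℕ) (hw : RW X K w) (ha : 1 ≤ a) (hb : 1 ≤ b) (hm : 2 ≤ m) (hn : 2 ≤ n)
    (h3 : m = n → 3 ≤ n) (hs : s = 1 ∨ s = -1) (ht : t = 1 ∨ t = -1)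
    (hab : Nat.Coprime a b) (haw : Nat.Coprime a w) (hbw : Nat.Coprime b w)
    (heq : t * (a : ℤ) ^ m = (b : ℤ) ^ n + s * (w : ℤ)) (h1 : (a : ℝ) ^ m ≤ X)
    (h2 : (b : ℝ) ^ n ≤ X) (hτ : τ = perm6 i (a ^ m, b ^ n, w)) :
    τ ∈ V0 X K ∪ V1 X K ∪ V2 X K ∪ V3 X K := by
  have hκ : 1 ≤ K ^ ((1 : ℝ) / 3) := Real.one_le_rpow (by linarith) (by norm_num)
  by_cases hab1 : a = 1 ∨ b = 1
  · refine Or.inl (Or.inl (Or.inl ⟨i, a ^ m, b ^ n, w, s, t, hw, ?_, hs, ht, ?_, hτ⟩))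
    · rcases hab1 with h | h
      · exact Or.inl (by rw [h, one_pow])
      · exact Or.inr (by rw [h, one_pow])
    · push_cast
      exact heq
  push Not at hab1
  have ha2 : 2 ≤ a := by omega
  have hb2 : 2 ≤ b := by omega
  -- the swapped equation
  obtain ⟨i', hi'⟩ := ROR_swap i
  have hsw : ∃ s' : ℤ, (s' = 1 ∨ s' = -1) ∧ t * (b : ℤ) ^ n = (a : ℤ) ^ m + s' * (w : ℤ) := by
    rcases ht with rfl | rfl
    · refine ⟨-s, ?_, by linarith⟩
      rcases hs with rfl | rfl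
      · right; rfl
      · left; norm_num
    · exact ⟨s, hs, by linarith⟩
  obtain ⟨s', hs', heq'⟩ := hsw
  have hτ' : τ = perm6 i' (b ^ n, a ^ m, w) := by rw [hτ, hi']
  rcases lt_trichotomy m n with h | h | h
  · rcases ROR_lt hK i' b a w n m s' t τ hw hb2 ha2 hm h hs' ht hab.symm hbw heq' h2 h1 hτ'
      with h4 | h4
    · exact Or.inl (Or.inl (Or.inr h4))
    · exact Or.inl (Or.inr h4)
  · subst h
    have hm3 := h3 rfl
    have haX : 0 < (a : ℤ) ^ m := by positivity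
    have hbX : 0 < (b : ℤ) ^ m := by positivity
    have hw0 : 0 < (w : ℤ) := by
      have := hw.1
      exact_mod_cast this
    rcases ht with rfl | rfl
    · rcases hs with rfl | rfl
      · refine Or.inr ⟨i, a, b, w, m, hw, ha2, hm3, ⟨ha, hb, Or.inr ?_⟩, h1, hτ⟩
        have : (a : ℤ) ^ m = (b : ℤ) ^ m + w := by linarith
        exact_mod_cast this
      · refine Or.inr ⟨i', b, a, w, m, hw, hb2, hm3, ⟨hb, ha, Or.inr ?_⟩, h2, hτ'⟩
        have : (b : ℤ) ^ m = (a : ℤ) ^ m + w := by linarith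
        exact_mod_cast this
    · rcases hs with rfl | rfl
      · exfalso
        linarith
      · rcases Nat.even_or_odd m with h4 | h4
        · obtain ⟨l, hl⟩ := h4
          have hl2 : 2 ≤ l := by omega
          have h5 : (b ^ l) ^ 2 = b ^ m := by
            rw [← pow_mul, hl]
            congr 1
            omega
          have h6 : ((b ^ l : ℕ) : ℤ) ^ 2 = (b : ℤ) ^ m := by exact_mod_cast h5
          have h7 : ((b ^ l : ℕ) : ℝ) ^ 2 = (b : ℝ) ^ m := by exact_mod_cast h5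
          have h8 : 2 ≤ b ^ l := le_trans hb2 (Nat.le_self_pow (by omega) b)
          rcases ROR_lt hK i a (b ^ l) w m 2 (-1) (-1) τ hw ha2 h8 le_rfl (by omega)
            (Or.inr rfl) (Or.inr rfl) (hab.pow_right l) haw (by rw [h6]; exact heq) h1
            (by rw [h7]; exact h2) (by rw [hτ, h5]) with h9 | h9
          · exact Or.inl (Or.inl (Or.inr h9))
          · exact Or.inl (Or.inr h9)
        · refine Or.inr ⟨i, a, b, w, m, hw, ha2, hm3, ⟨ha, hb, Or.inl ⟨h4, ?_⟩⟩, h1, hτ⟩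
          have : (a : ℤ) ^ m + (b : ℤ) ^ m = w := by linarith
          exact_mod_cast this
  · rcases ROR_lt hK i a b w m n s t τ hw ha2 hb2 hn h hs ht hab haw heq h1 h2 hτ
      with h4 | h4
    · exact Or.inl (Or.inl (Or.inr h4))
    · exact Or.inl (Or.inr h4)

theorem p_ROR : S_ROR := by
  intro X K hX hK τ hτ
  obtain ⟨a, b, c, m, n, k, ha, hb, hc, hm, hn, hk, hab, hbc, hac, hyp, heq, hcX, hsm, hτ⟩ := hτ
  have hz : (a : ℤ) ^ m + (b : ℤ) ^ n = (c : ℤ) ^ k := by exact_mod_cast heq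
  have hr : (a : ℝ) ^ m + (b : ℝ) ^ n = (c : ℝ) ^ k := by exact_mod_cast heq
  have ha0 : 0 ≤ (a : ℝ) ^ m := by positivity
  have hb0 : 0 ≤ (b : ℝ) ^ n := by positivity
  have haX : (a : ℝ) ^ m ≤ X := by linarith
  have hbX : (b : ℝ) ^ n ≤ X := by linarith
  have hm2 : 2 ≤ m := ROR_two hm hn hk hyp
  have hn2 : 2 ≤ n := ROR_two hn hm hk (by linarith)
  have hk2 : 2 ≤ k := ROR_two hk hm hn (by linarith)
  rcases hsm with h | h | h
  · -- `a` has small radical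
    have hw : RW X K (a ^ m) := ⟨Nat.one_le_pow _ _ ha, by push_cast; exact haX, by
      rw [ROR_rad _ _ hm]; exact h⟩
    refine ROR_core hK 5 c b (a ^ m) k n 1 1 τ hw hc hb hk2 hn2 ?_ (Or.inl rfl) (Or.inl rfl)
      hbc.symm (hac.symm.pow_right m) (hab.symm.pow_right m) ?_ hcX hbX ?_
    · rintro rfl
      exact ROR_three hk2 hm (by linarith)
    · push_cast
      linarith
    · rw [hτ]
      rfl
  · -- `b` has small radical
    have hw : RW X K (b ^ n) := ⟨Nat.one_le_pow _ _ hb, by push_cast; exact hbX, by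
      rw [ROR_rad _ _ hn]; exact h⟩
    refine ROR_core hK 4 c a (b ^ n) k m 1 1 τ hw hc ha hk2 hm2 ?_ (Or.inl rfl) (Or.inl rfl)
      hac.symm (hbc.symm.pow_right n) (hab.pow_right n) ?_ hcX haX ?_
    · rintro rfl
      exact ROR_three hk2 hn (by linarith)
    · push_cast
      linarith
    · rw [hτ]
      rfl
  · -- `c` has small radical
    have hw : RW X K (c ^ k) := ⟨Nat.one_le_pow _ _ hc, by push_cast; exact hcX, by
      rw [ROR_rad _ _ hk]; exact h⟩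
    refine ROR_core hK 0 a b (c ^ k) m n (-1) (-1) τ hw ha hb hm2 hn2 ?_ (Or.inr rfl)
      (Or.inr rfl) hab (hac.pow_right k) (hbc.pow_right k) ?_ haX hbX ?_
    · rintro rfl
      exact ROR_three hm2 hk hyp
    · push_cast
      linarith
    · rw [hτ]
      rfl

end Pool.FCR
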