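import Pool.Agent.Work.MP_2738db_R.Defs

set_option autoImplicit false

/-! # Block THW: THEOREM S for `w` -/

namespace Pool.FCR

open NumberField Pool.FCS

theorem THW_log {X : ℝ} (hX : 3 ≤ X) : 1 ≤ Real.log X := by
  have h1 : Real.exp 1 ≤ X := by
    have := Real.exp_one_lt_d9
    linarith
  have h2 := Real.log_le_log (Real.exp_pos 1) h1
  rwa [Real.log_exp] at h2

theorem THW_l {X : ℝ} (hX : 3 ≤ X) : ((Nat.log 2 ⌊X⌋₊ : ℕ) : ℝ) ≤ 2 * Real.log X := by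
  have hXpos : (0 : ℝ) ≤ X := by linarith
  have h0 : ⌊X⌋₊ ≠ 0 := by
    have : 3 ≤ ⌊X⌋₊ := Nat.le_floor (by exact_mod_cast hX)
    omega
  have h1 : 2 ^ Nat.log 2 ⌊X⌋₊ ≤ ⌊X⌋₊ := Nat.pow_log_le_self 2 h0
  have h2 : ((2 : ℝ)) ^ Nat.log 2 ⌊X⌋₊ ≤ X := by
    calc ((2 : ℝ)) ^ Nat.log 2 ⌊X⌋₊ = ((2 ^ Nat.log 2 ⌊X⌋₊ : ℕ) : ℝ) := by push_cast; rfl
      _ ≤ (⌊X⌋₊ : ℝ) := by exact_mod_cast h1
      _ ≤ X := Nat.floor_le hXpos
  have h3 := Real.log_le_log (by positivity) h2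
  rw [Real.log_pow] at h3
  have h4 := Real.log_two_gt_d9
  have h5 : (0 : ℝ) ≤ ((Nat.log 2 ⌊X⌋₊ : ℕ) : ℝ) := Nat.cast_nonneg _
  nlinarith

theorem THW_rad_pos (w : ℕ) : 1 ≤ rad w :=
  Finset.prod_pos fun _ hp => (Nat.prime_of_mem_primeFactors hp).pos

theorem THW_dvd {w : ℕ} (hw : 1 ≤ w) {p : ℕ} (hp : p.Prime) : p ∣ w ↔ p ∣ rad w := by
  constructor
  · intro h
    exact Finset.dvd_prod_of_mem (fun q => q) (Nat.mem_primeFactors.2 ⟨hp, h, by omega⟩)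
  · intro h
    obtain ⟨q, hq, hpq⟩ := (hp.prime.dvd_finsetProd_iff (fun q => q)).1 h
    have hq1 := Nat.prime_of_mem_primeFactors hq
    have : p = q := (Nat.prime_dvd_prime_iff_eq hp hq1).1 hpq
    rw [this]
    exact Nat.dvd_of_mem_primeFactors hq

theorem p_THW (h1 : S_FXF) (h2 : S_SQW) (h3 : S_BND) : S_THW := by
  obtain ⟨C₀, hC₀, hB⟩ := h3
  refine ⟨C₀ + 5, by linarith, ?_⟩
  intro c n m w s t X hc hn hnm hw hrad hX
  have hX0 : (0 : ℝ) ≤ X := by linarith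
  have hlog := THW_log hX
  have hlX := THW_l hX
  set Z := ⌊X⌋₊ with hZ
  set l := Nat.log 2 Z with hl
  have hZ3 : 3 ≤ Z := Nat.le_floor (by exact_mod_cast hX)
  have hl1 : 1 ≤ l := Nat.le_log_of_pow_le (by norm_num) (by omega)
  set N := Hb n m c + Ncls n m c * (c ^ (2 * n) * m ^ n * (l + 2)) + 3 * c ^ 2 * (l + 2) with hN
  set T : Set (ℕ × ℕ) :=
    {p | SolW n m w s t p.1 p.2 ∧ (p.1 : ℝ) ^ m ≤ X ∧ (p.2 : ℝ) ^ n ≤ X} with hT
  -- the key claim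
  have key0 : {p : ℕ × ℕ | SolW n m w s t p.1 p.2 ∧ p.2 ≤ Z}.Finite ∧
      {p : ℕ × ℕ | SolW n m w s t p.1 p.2 ∧ p.2 ≤ Z}.ncard ≤ N := by
    by_cases hs : s = 1 ∨ s = -1
    · by_cases hsq : n = 2 → s = -1 → ¬ IsSquare w
      · obtain ⟨h4, h5⟩ := h1 n m c w s t Z hc hn hnm hw hrad hs hsq
        refine ⟨h4, h5.trans ?_⟩
        rw [hN]
        exact Nat.le_add_right _ _
      · push Not at hsq
        obtain ⟨hn2, hs1, y, hy⟩ := hsq
        subst hn2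
        subst hs1
        obtain ⟨h4, h5⟩ := h2 c (rad w) m w y t Z hc (THW_rad_pos w) hrad (by omega) hw
          (by rw [hy]; ring) (fun p hp => THW_dvd hw hp)
        rw [← hl] at h5
        refine ⟨h4, h5.trans ?_⟩
        rw [hN]
        have h6 : 0 ≤ Ncls 2 m c * (c ^ (2 * 2) * m ^ 2 * (l + 2)) := Nat.zero_le _
        omega
    · have h7 : {p : ℕ × ℕ | SolW n m w s t p.1 p.2 ∧ p.2 ≤ Z} = ∅ := by
        apply Set.eq_empty_of_forall_notMem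
        rintro p ⟨h8, _⟩
        exact hs h8.hs
      simp only [h7]
      exact ⟨Set.finite_empty, by rw [Set.ncard_empty]; exact Nat.zero_le _⟩
  have hsub : T ⊆ {p : ℕ × ℕ | SolW n m w s t p.1 p.2 ∧ p.2 ≤ Z} := by
    rintro p ⟨hsol, _, hb⟩
    refine ⟨hsol, ?_⟩
    apply Nat.le_floor
    calc ((p.2 : ℕ) : ℝ) ≤ ((p.2 ^ n : ℕ) : ℝ) := by
          exact_mod_cast Nat.le_self_pow (by omega) _
      _ = (p.2 : ℝ) ^ n := by push_cast; rfl
      _ ≤ X := hb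
  have key : T.Finite ∧ T.ncard ≤ l * N := by
    refine ⟨key0.1.subset hsub, ?_⟩
    calc T.ncard ≤ _ := Set.ncard_le_ncard hsub key0.1
      _ ≤ N := key0.2
      _ = 1 * N := (one_mul N).symm
      _ ≤ l * N := Nat.mul_le_mul_right N hl1
  refine ⟨key.1, ?_⟩
  have h9 := hB c n m l hc hn hnm hl1
  have h10 : (T.ncard : ℝ) ≤ ((l * N : ℕ) : ℝ) := by exact_mod_cast key.2
  have hmc6 : (6 : ℝ) ≤ (m : ℝ) * c := by
    have h11 : (3 : ℝ) ≤ m := by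
      have : 3 ≤ m := by omega
      exact_mod_cast this
    have h12 : (2 : ℝ) ≤ c := by exact_mod_cast hc
    nlinarith
  have hmc0 : (0 : ℝ) < (m : ℝ) * c := by linarith
  have hlog2n : 1 ≤ Real.log (2 * n) := by
    apply THW_log
    have h13 : (2 : ℝ) ≤ n := by exact_mod_cast hn
    linarith
  have hn2R : (2 : ℝ) ≤ n := by exact_mod_cast hn
  have hnl : (2 : ℝ) ≤ n * Real.log (2 * n) := by nlinarith
  -- the constant 8
  have h8 : (8 : ℝ) ≤ ((m : ℝ) * c) ^ (5 * n * Real.log (2 * n)) := by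
    calc (8 : ℝ) ≤ 6 ^ (2 : ℝ) := by
          rw [show (2 : ℝ) = ((2 : ℕ) : ℝ) by norm_num, Real.rpow_natCast]
          norm_num
      _ ≤ ((m : ℝ) * c) ^ (2 : ℝ) := Real.rpow_le_rpow (by norm_num) hmc6 (by norm_num)
      _ ≤ ((m : ℝ) * c) ^ (5 * n * Real.log (2 * n)) :=
          Real.rpow_le_rpow_of_exponent_le (by linarith) (by nlinarith)
  have hl3 : (l : ℝ) ^ 3 ≤ 8 * Real.log X ^ 3 := by
    calc (l : ℝ) ^ 3 ≤ (2 * Real.log X) ^ 3 := by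
          apply pow_le_pow_left₀ (Nat.cast_nonneg _) hlX
      _ = 8 * Real.log X ^ 3 := by ring
  have hX3 : Real.log X ^ 3 ≤ Real.log X ^ (C₀ + 5) := by
    rw [← Real.rpow_natCast]
    apply Real.rpow_le_rpow_of_exponent_le hlog
    push_cast
    linarith
  have hpos : (0 : ℝ) ≤ ((m : ℝ) * c) ^ (C₀ * n * Real.log (2 * n)) := Real.rpow_nonneg hmc0.le _
  have hL0 : (0 : ℝ) ≤ Real.log X := by linarith
  calc (T.ncard : ℝ) ≤ ((l * N : ℕ) : ℝ) := h10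
    _ ≤ ((m : ℝ) * c) ^ (C₀ * n * Real.log (2 * n)) * (l : ℝ) ^ 3 := h9
    _ ≤ ((m : ℝ) * c) ^ (C₀ * n * Real.log (2 * n)) * (8 * Real.log X ^ 3) :=
        mul_le_mul_of_nonneg_left hl3 hpos
    _ = ((m : ℝ) * c) ^ (C₀ * n * Real.log (2 * n)) * 8 * Real.log X ^ 3 := by ring
    _ ≤ ((m : ℝ) * c) ^ (C₀ * n * Real.log (2 * n)) *
        ((m : ℝ) * c) ^ (5 * n * Real.log (2 * n)) * Real.log X ^ 3 :=
        mul_le_mul_of_nonneg_right (mul_le_mul_of_nonneg_left h8 hpos) (by positivity)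
    _ = ((m : ℝ) * c) ^ ((C₀ + 5) * n * Real.log (2 * n)) * Real.log X ^ 3 := by
        rw [← Real.rpow_add hmc0]
        congr 2
        ring
    _ ≤ ((m : ℝ) * c) ^ ((C₀ + 5) * n * Real.log (2 * n)) * Real.log X ^ (C₀ + 5) :=
        mul_le_mul_of_nonneg_left hX3 (Real.rpow_nonneg hmc0.le _)

end Pool.FCR
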