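import Pool.Agent.Work.MP_2738db_R.Defs

set_option autoImplicit false

namespace Pool.FCR

open NumberField Pool.FCS

theorem p_V0C (h1 : S_RDW) : S_V0C := by
  obtain ⟨C₁, hC₁, H1⟩ := h1
  obtain ⟨C, hC⟩ : ∃ C : ℝ, C = C₁ + 64 := ⟨_, rfl⟩
  refine ⟨C, by linarith, ?_⟩
  intro X K hX hK hKX
  have hX16 : (64 : ℝ) ≤ X := by linarith
  have hX0 : (0 : ℝ) < X := by linarith
  have hK0 : (0 : ℝ) < K := by linarith
  have hexp : Real.exp (Real.exp 1) ≤ 64 := by
    have h1 : Real.exp 1 < 2.7182818286 := Real.exp_one_lt_d9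
    have h2 : Real.exp (Real.exp 1) ≤ Real.exp 3 := Real.exp_le_exp.2 (by linarith)
    have h3 : Real.exp 3 = (Real.exp 1) ^ 3 := by
      rw [← Real.exp_nat_mul]; norm_num
    have h4 : (Real.exp 1) ^ 3 ≤ 3 ^ 3 :=
      pow_le_pow_left₀ (Real.exp_pos 1).le (by linarith) 3
    rw [h3] at h2
    linarith
  have hL1 : Real.exp 1 ≤ Real.log X := by
    rw [Real.le_log_iff_exp_le hX0]
    linarith
  have hL0 : 0 < Real.log X := lt_of_lt_of_le (Real.exp_pos 1) hL1
  have hLL : 1 ≤ Real.log (Real.log X) := by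
    rw [Real.le_log_iff_exp_le hL0]
    exact hL1
  have hKLL : 0 ≤ K * Real.log (Real.log X) := by positivity
  have step : ∀ C' : ℝ, C' ≤ C → C' * K * Real.log (Real.log X) ≤ Real.log X := by
    intro C' hC'
    have : C' * (K * Real.log (Real.log X)) ≤ C * (K * Real.log (Real.log X)) :=
      mul_le_mul_of_nonneg_right hC' hKLL
    calc C' * K * Real.log (Real.log X) = C' * (K * Real.log (Real.log X)) := by ring
      _ ≤ C * (K * Real.log (Real.log X)) := this
      _ = C * K * Real.log (Real.log X) := by ring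
      _ ≤ Real.log X := hKX
  obtain ⟨F1, B1, -⟩ := H1 X K (by linarith) hK (step C₁ (by linarith))
  -- parametrisation
  let sg : Fin 2 → ℤ := fun i => if i = 0 then 1 else -1
  have hsg : ∀ s : ℤ, (s = 1 ∨ s = -1) → ∃ i : Fin 2, sg i = s := by
    intro s hs
    rcases hs with rfl | rfl
    · exact ⟨0, by simp [sg]⟩
    · exact ⟨1, by simp [sg]⟩
  let φ : ((Fin 6 × Fin 2 × Fin 2) × Fin 2) × ℕ → ℕ × ℕ × ℕ := fun q =>
    if q.1.2 = 0 then
      perm6 q.1.1.1 (1, (sg q.1.1.2.2 - sg q.1.1.2.1 * (q.2 : ℤ)).toNat, q.2)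
    else
      perm6 q.1.1.1 ((sg q.1.1.2.2 * (1 + sg q.1.1.2.1 * (q.2 : ℤ))).toNat, 1, q.2)
  have hsub : V0 X K ⊆ φ '' (Set.univ ×ˢ {w : ℕ | RW X K w}) := by
    rintro τ ⟨i, A, B, w, s, t, hw, hAB, hs, ht, heq, rfl⟩
    obtain ⟨is, his⟩ := hsg s hs
    obtain ⟨it, hit⟩ := hsg t ht
    rcases hAB with hA | hB
    · refine ⟨(((i, is, it), 0), w), ⟨Set.mem_univ _, hw⟩, ?_⟩
      have e : (sg it - sg is * (w : ℤ)).toNat = B := by
        rw [his, hit]
        rw [hA] at heq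
        have : t - s * (w : ℤ) = B := by push_cast at heq; linarith
        rw [this, Int.toNat_natCast]
      simp only [φ, if_true, e, hA]
    · refine ⟨(((i, is, it), 1), w), ⟨Set.mem_univ _, hw⟩, ?_⟩
      have e : (sg it * (1 + sg is * (w : ℤ))).toNat = A := by
        rw [his, hit]
        rw [hB] at heq
        have ht2 : t * t = 1 := by rcases ht with rfl | rfl <;> norm_num
        have : t * (1 + s * (w : ℤ)) = A := by
          push_cast at heq
          rw [← heq, ← mul_assoc, ht2, one_mul]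
        rw [this, Int.toNat_natCast]
      have h01 : ¬ ((1 : Fin 2) = 0) := by decide
      simp only [φ, h01, if_false, e, hB]
  have hfin : (Set.univ ×ˢ {w : ℕ | RW X K w} :
      Set (((Fin 6 × Fin 2 × Fin 2) × Fin 2) × ℕ)).Finite := Set.finite_univ.prod F1
  refine ⟨(hfin.image φ).subset hsub, ?_⟩
  have hcard : ((V0 X K).ncard : ℝ) ≤ 48 * ({w : ℕ | RW X K w}.ncard : ℝ) := by
    have c1 : (V0 X K).ncard ≤ (φ '' (Set.univ ×ˢ {w : ℕ | RW X K w})).ncard :=
      Set.ncard_le_ncard hsub (hfin.image φ)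
    have c2 : (φ '' (Set.univ ×ˢ {w : ℕ | RW X K w})).ncard ≤
        (Set.univ ×ˢ {w : ℕ | RW X K w} :
          Set (((Fin 6 × Fin 2 × Fin 2) × Fin 2) × ℕ)).ncard := Set.ncard_image_le hfin
    have c3 : (Set.univ ×ˢ {w : ℕ | RW X K w} :
          Set (((Fin 6 × Fin 2 × Fin 2) × Fin 2) × ℕ)).ncard = 48 * {w : ℕ | RW X K w}.ncard := by
      rw [Set.ncard_prod, Set.ncard_univ]
      simp
    have : (V0 X K).ncard ≤ 48 * {w : ℕ | RW X K w}.ncard := by
      rw [← c3]; exact c1.trans c2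
    exact_mod_cast this
  -- constants
  obtain ⟨κ, hκ⟩ : ∃ κ : ℝ, κ = K ^ ((2 : ℝ) / 3) := ⟨_, rfl⟩
  have hκ0 : 0 < κ := by rw [hκ]; positivity
  have hκK : κ ≤ K := by
    rw [hκ]
    calc K ^ ((2 : ℝ) / 3) ≤ K ^ (1 : ℝ) :=
          Real.rpow_le_rpow_of_exponent_le (by linarith) (by norm_num)
      _ = K := Real.rpow_one K
  have hl1 : 1 ≤ Real.log (2 * K) := by
    rw [Real.le_log_iff_exp_le (by positivity)]
    have : Real.exp 1 < 2.7182818286 := Real.exp_one_lt_d9
    linarith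
  obtain ⟨E, hE⟩ : ∃ E : ℝ, E = 1 / κ * Real.log X := ⟨_, rfl⟩
  have hE1 : 1 ≤ E := by
    have h2 : (1 : ℝ) ≤ Real.log X / K := by
      rw [le_div_iff₀ hK0, one_mul]
      calc K ≤ 64 * K * Real.log (Real.log X) := by nlinarith
        _ ≤ Real.log X := step 64 (by linarith)
    have h3 : 1 / K ≤ 1 / κ := one_div_le_one_div_of_le hκ0 hκK
    calc (1 : ℝ) ≤ Real.log X / K := h2
      _ = 1 / K * Real.log X := by ring
      _ ≤ 1 / κ * Real.log X := mul_le_mul_of_nonneg_right h3 hL0.le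
      _ = E := hE.symm
  have e48 : (48 : ℝ) ≤ Real.exp 47 := by
    have := Real.add_one_le_exp (47 : ℝ)
    linarith
  calc ((V0 X K).ncard : ℝ) ≤ 48 * ({w : ℕ | RW X K w}.ncard : ℝ) := hcard
    _ ≤ Real.exp 47 * Real.exp (C₁ / K ^ ((2 : ℝ) / 3) * Real.log X) :=
        mul_le_mul e48 B1 (Nat.cast_nonneg _) (Real.exp_pos _).le
    _ = Real.exp (47 + C₁ * E) := by
        rw [← Real.exp_add, hE, hκ]
        congr 1
        ring
    _ ≤ Real.exp (C * (Real.log (2 * K) * E)) := by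
        apply Real.exp_le_exp.2
        have h1 : E ≤ Real.log (2 * K) * E := by nlinarith
        have h2 : C * E ≤ C * (Real.log (2 * K) * E) :=
          mul_le_mul_of_nonneg_left h1 (by linarith)
        have h3 : 47 + C₁ * E ≤ C * E := by
          rw [hC]
          nlinarith
        linarith
    _ = Real.exp (C * Real.log (2 * K) / K ^ ((2 : ℝ) / 3) * Real.log X) := by
        rw [hE, hκ]
        congr 1
        ring

end Pool.FCR
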