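import Pool.Agent.Work.MP_2738db_R.Defs

/-! Block V1C (helper74), adapted from the block W1C of THEOREM T -/

set_option autoImplicit false

namespace Pool.FCR

open NumberField Pool.FCS

/-- the triple given by a solution -/
def V1C_f (i : Fin 6) (n m w : ℕ) (p : ℕ × ℕ) : ℕ × ℕ × ℕ :=
  perm6 i (p.1 ^ m, p.2 ^ n, w)

/-- the solutions with given parameters -/
def V1C_S (X : ℝ) (j : Fin 6 × ℤ × ℤ × ℕ × ℕ × ℕ) : Set (ℕ × ℕ) :=
  {p | SolW j.2.2.2.2.1 j.2.2.2.2.2 j.2.2.2.1 j.2.1 j.2.2.1 p.1 p.2 ∧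
    (p.1 : ℝ) ^ j.2.2.2.2.2 ≤ X ∧ (p.2 : ℝ) ^ j.2.2.2.2.1 ≤ X}

/-- the condition on the parameters -/
def V1C_c (X K : ℝ) (j : Fin 6 × ℤ × ℤ × ℕ × ℕ × ℕ) : Prop :=
  RW X K j.2.2.2.1 ∧ 2 ≤ j.2.2.2.2.1 ∧ j.2.2.2.2.1 < j.2.2.2.2.2 ∧
    (j.2.2.2.2.1 : ℝ) ≤ 2 * K ^ ((1 : ℝ) / 3) ∧ (j.2.2.2.2.2 : ℝ) ≤ 2 * Real.log X

open Classical in
/-- the parameters -/
noncomputable def V1C_J (Wf : Finset ℕ) (X K : ℝ) : Finset (Fin 6 × ℤ × ℤ × ℕ × ℕ × ℕ) :=
  ((Finset.univ : Finset (Fin 6)) ×ˢ (({1, -1} : Finset ℤ) ×ˢ (({1, -1} : Finset ℤ) ×ˢ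
    (Wf ×ˢ (Finset.range (⌊2 * Real.log X⌋₊ + 1) ×ˢ
      Finset.range (⌊2 * Real.log X⌋₊ + 1)))))).filter (V1C_c X K)

open Classical in
/-- the triples with given parameters -/
noncomputable def V1C_F (X : ℝ) (j : Fin 6 × ℤ × ℤ × ℕ × ℕ × ℕ) : Finset (ℕ × ℕ × ℕ) :=
  if h : (V1C_f j.1 j.2.2.2.2.1 j.2.2.2.2.2 j.2.2.2.1 '' V1C_S X j).Finite then h.toFinset else ∅

theorem V1C_card (Wf : Finset ℕ) (X K : ℝ) (hL : 0 ≤ Real.log X) :
    ((V1C_J Wf X K).card : ℝ) ≤ 24 * (Wf.card * (2 * Real.log X + 1) ^ 2) := by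
  classical
  have h1 : (V1C_J Wf X K).card ≤ 6 * (2 * (2 * (Wf.card * ((⌊2 * Real.log X⌋₊ + 1) *
      (⌊2 * Real.log X⌋₊ + 1))))) := by
    unfold V1C_J
    refine (Finset.card_filter_le _ _).trans (le_of_eq ?_)
    rw [Finset.card_product, Finset.card_product, Finset.card_product, Finset.card_product,
      Finset.card_product, Finset.card_univ, Fintype.card_fin, Finset.card_range]
    rfl
  have h3 : (⌊2 * Real.log X⌋₊ : ℝ) ≤ 2 * Real.log X := Nat.floor_le (by linarith)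
  have h4 : ((V1C_J Wf X K).card : ℝ) ≤ 6 * (2 * (2 * ((Wf.card : ℝ) *
      (((⌊2 * Real.log X⌋₊ : ℝ) + 1) * ((⌊2 * Real.log X⌋₊ : ℝ) + 1))))) := by exact_mod_cast h1
  have h5 : (0 : ℝ) ≤ (Wf.card : ℝ) := Nat.cast_nonneg _
  have h6 : (0 : ℝ) ≤ (⌊2 * Real.log X⌋₊ : ℝ) := Nat.cast_nonneg _
  have h7 : ((⌊2 * Real.log X⌋₊ : ℝ) + 1) * ((⌊2 * Real.log X⌋₊ : ℝ) + 1) ≤
      (2 * Real.log X + 1) * (2 * Real.log X + 1) :=
    mul_le_mul (by linarith) (by linarith) (by linarith) (by linarith)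
  have h8 := mul_le_mul_of_nonneg_left h7 h5
  calc ((V1C_J Wf X K).card : ℝ) ≤ _ := h4
    _ ≤ 24 * ((Wf.card : ℝ) * ((2 * Real.log X + 1) * (2 * Real.log X + 1))) := by linarith
    _ = _ := by ring

theorem V1C_sub (X K : ℝ) (hX : 1 ≤ X) (hW : {w : ℕ | RW X K w}.Finite)
    (hfin : ∀ j, V1C_c X K j → (V1C_S X j).Finite) :
    V1 X K ⊆ (((V1C_J hW.toFinset X K).biUnion (V1C_F X) : Finset (ℕ × ℕ × ℕ)) :
      Set (ℕ × ℕ × ℕ)) := by
  classical
  rintro τ ⟨i, a, b, w, m, n, s, t, hRW, ha, hb, hn, hnm, hnK, hsol, haX, hbX, rfl⟩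
  have hL : 0 ≤ Real.log X := Real.log_nonneg hX
  have hm : (m : ℝ) ≤ 2 * Real.log X := by
    have h2 : (2 : ℝ) ^ m ≤ X := by
      refine le_trans (pow_le_pow_left₀ (by norm_num) ?_ m) haX
      exact_mod_cast ha
    have h3 := Real.log_le_log (by positivity) h2
    rw [Real.log_pow] at h3
    have h4 := Real.log_two_gt_d9
    have h5 : (0 : ℝ) ≤ m := Nat.cast_nonneg m
    nlinarith
  have hcond : V1C_c X K (i, s, t, w, n, m) := ⟨hRW, hn, hnm, hnK, hm⟩
  rw [Finset.mem_coe, Finset.mem_biUnion]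
  refine ⟨(i, s, t, w, n, m), ?_, ?_⟩
  · unfold V1C_J
    rw [Finset.mem_filter]
    refine ⟨?_, hcond⟩
    simp only [Finset.mem_product, Finset.mem_univ, true_and, Finset.mem_insert,
      Finset.mem_singleton, Finset.mem_range, Set.Finite.mem_toFinset]
    refine ⟨hsol.hs, hsol.ht, hRW, ?_, ?_⟩
    · have : n ≤ ⌊2 * Real.log X⌋₊ := by
        refine Nat.le_floor (le_trans ?_ hm)
        exact_mod_cast hnm.le
      omega
    · have : m ≤ ⌊2 * Real.log X⌋₊ := Nat.le_floor hm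
      omega
  · unfold V1C_F
    have hf := hfin _ hcond
    have hf2 : (V1C_f i n m w '' V1C_S X (i, s, t, w, n, m)).Finite := hf.image _
    rw [dif_pos hf2, Set.Finite.mem_toFinset]
    exact ⟨(a, b), ⟨hsol, haX, hbX⟩, rfl⟩

theorem p_V1C (h1 : S_RDW) (h2 : S_THW) : S_V1C := by
  classical
  obtain ⟨C₂, hC₂, hR⟩ := h1
  obtain ⟨C₁, hC₁, hS⟩ := h2
  refine ⟨Real.exp (Real.exp 1) + (30 + 13 * C₁ + C₂), by positivity, ?_⟩
  intro X K hCX hK hKL
  set C := Real.exp (Real.exp 1) + (30 + 13 * C₁ + C₂) with hC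
  have hee : 0 < Real.exp (Real.exp 1) := Real.exp_pos _
  have hX1 : Real.exp (Real.exp 1) ≤ X := by linarith
  have hX0 : 0 < X := by linarith
  have hX3 : 3 ≤ X := by linarith
  set L := Real.log X with hLdef
  have hL1 : Real.exp 1 ≤ L := by
    rw [hLdef, Real.le_log_iff_exp_le hX0]
    exact hX1
  have he1 : 2 ≤ Real.exp 1 := by
    have := Real.add_one_le_exp (1 : ℝ)
    linarith
  have hL0 : 0 < L := by linarith
  set y := Real.log L with hydef
  have hy1 : 1 ≤ y := by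
    rw [hydef, Real.le_log_iff_exp_le hL0]
    exact hL1
  have hLy : L = Real.exp y := (Real.exp_log hL0).symm
  have hK0 : 0 < K := by linarith
  have hKy : 0 ≤ K * y := by positivity
  have hyK : y ≤ L / K := by
    rw [le_div_iff₀ hK0]
    have hC1 : 1 ≤ C := by rw [hC]; linarith
    have : K * y ≤ C * K * y := by
      nlinarith
    linarith
  have hC₂K : C₂ * K * y ≤ L := by
    have hC2 : C₂ ≤ C := by rw [hC]; linarith
    have : C₂ * (K * y) ≤ C * (K * y) := mul_le_mul_of_nonneg_right hC2 hKy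
    nlinarith
  obtain ⟨hWfin, hWcard, -⟩ := hR X K (by rw [hC] at hCX; linarith) hK hC₂K
  have hXK : X ^ (1 / K) = Real.exp (L / K) := by
    rw [Real.rpow_def_of_pos hX0]
    congr 1
    ring
  set κ := K ^ ((1 : ℝ) / 3) with hκ
  have hκ0 : 0 < κ := Real.rpow_pos_of_pos hK0 _
  have hκK : κ ≤ K := by
    have := Real.rpow_le_rpow_of_exponent_le (by linarith : (1 : ℝ) ≤ K)
      (by norm_num : (1 : ℝ) / 3 ≤ 1)
    rwa [Real.rpow_one] at this
  have hlog2K : 1 ≤ Real.log (2 * K) := by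
    rw [Real.le_log_iff_exp_le (by linarith)]
    have := Real.exp_one_lt_d9
    linarith
  -- the integer `c`
  have hc2 : 2 ≤ ⌊X ^ (1 / K)⌋₊ := by
    refine Nat.le_floor ?_
    rw [hXK]
    have e1 := Real.add_one_le_exp (L / K)
    push_cast
    linarith
  obtain ⟨c, hcdef⟩ : ∃ c : ℕ, c = ⌊X ^ (1 / K)⌋₊ := ⟨_, rfl⟩
  rw [← hcdef] at hc2
  have hcX : (c : ℝ) ≤ Real.exp (L / K) := by
    rw [hcdef, ← hXK]
    exact Nat.floor_le (by rw [hXK]; exact (Real.exp_pos _).le)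
  -- the bound for one set of parameters
  set W := 1 + y + L / K with hW
  set M := Real.exp (W * (4 * C₁ * κ * Real.log (2 * K)) + y * C₁) with hM
  have hone : ∀ j : Fin 6 × ℤ × ℤ × ℕ × ℕ × ℕ, V1C_c X K j →
      (V1C_S X j).Finite ∧ ((V1C_S X j).ncard : ℝ) ≤ M := by
    rintro ⟨i, s, t, w, n, m⟩ ⟨hRW, hn, hnm, hnK, hm⟩
    simp only at hRW hn hnm hnK hm ⊢
    have hrad : rad w ≤ c := by
      rw [hcdef]
      exact Nat.le_floor hRW.2.2
    obtain ⟨hf, hb⟩ := hS c n m w s t X hc2 hn hnm hRW.1 hrad hX3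
    refine ⟨hf, hb.trans ?_⟩
    have hn0 : (2 : ℝ) ≤ n := by exact_mod_cast hn
    have hm0 : (1 : ℝ) ≤ m := by exact_mod_cast (by omega : 1 ≤ m)
    have hc0 : (1 : ℝ) ≤ c := by exact_mod_cast (by omega : 1 ≤ c)
    have hmc : (m : ℝ) * c ≤ Real.exp W := by
      have a1 : (m : ℝ) ≤ Real.exp 1 * Real.exp y := by
        rw [← hLy]
        refine hm.trans ?_
        exact mul_le_mul_of_nonneg_right he1 hL0.le
      rw [hW, Real.exp_add, Real.exp_add]
      exact mul_le_mul a1 hcX (by linarith) (by positivity)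
    have hlogn : 0 ≤ Real.log (2 * n) := Real.log_nonneg (by linarith)
    have hexp0 : 0 ≤ C₁ * n * Real.log (2 * n) := by positivity
    have hlog4 : Real.log (2 * n) ≤ 2 * Real.log (2 * K) := by
      have a2 : 2 * Real.log (2 * K) = Real.log ((2 * K) ^ 2) := by
        rw [Real.log_pow]
        norm_num
      rw [a2]
      refine Real.log_le_log (by linarith) ?_
      nlinarith
    have hexp1 : C₁ * n * Real.log (2 * n) ≤ 4 * C₁ * κ * Real.log (2 * K) := by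
      calc C₁ * n * Real.log (2 * n) ≤ C₁ * (2 * κ) * (2 * Real.log (2 * K)) :=
            mul_le_mul (mul_le_mul_of_nonneg_left hnK hC₁.le) hlog4 hlogn (by positivity)
        _ = _ := by ring
    have hWp : 0 ≤ W := by
      rw [hW]
      positivity
    have a3 : ((m : ℝ) * c) ^ (C₁ * n * Real.log (2 * n)) ≤
        Real.exp (W * (4 * C₁ * κ * Real.log (2 * K))) := by
      calc ((m : ℝ) * c) ^ (C₁ * n * Real.log (2 * n))
          ≤ (Real.exp W) ^ (C₁ * n * Real.log (2 * n)) :=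
            Real.rpow_le_rpow (by positivity) hmc hexp0
        _ = Real.exp (W * (C₁ * n * Real.log (2 * n))) := by rw [← Real.exp_mul]
        _ ≤ _ := Real.exp_le_exp.2 (mul_le_mul_of_nonneg_left hexp1 hWp)
    have a4 : L ^ C₁ = Real.exp (y * C₁) := by
      rw [hLy, ← Real.exp_mul]
    rw [a4, hM, Real.exp_add]
    exact mul_le_mul_of_nonneg_right a3 (Real.exp_pos _).le
  have hcov := V1C_sub X K (by linarith) hWfin (fun j hj => (hone j hj).1)
  have hM0 : 0 ≤ M := (Real.exp_pos _).le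
  refine ⟨(Finset.finite_toSet _).subset hcov, ?_⟩
  have hcardF : ∀ j ∈ V1C_J hWfin.toFinset X K, (V1C_F X j).card ≤ ⌊M⌋₊ := by
    intro j hj
    have hcond : V1C_c X K j := by
      unfold V1C_J at hj
      exact (Finset.mem_filter.1 hj).2
    obtain ⟨hf, hb⟩ := hone j hcond
    unfold V1C_F
    have hf2 := hf.image (V1C_f j.1 j.2.2.2.2.1 j.2.2.2.2.2 j.2.2.2.1)
    rw [dif_pos hf2, ← Set.ncard_eq_toFinset_card _ hf2]
    refine (Set.ncard_image_le hf).trans (Nat.le_floor hb)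
  have hn1 : (V1 X K).ncard ≤ (V1C_J hWfin.toFinset X K).card * ⌊M⌋₊ := by
    refine (Set.ncard_le_ncard hcov (Finset.finite_toSet _)).trans ?_
    rw [Set.ncard_coe_finset]
    exact Finset.card_biUnion_le_card_mul _ _ _ hcardF
  have hn2 : ((V1 X K).ncard : ℝ) ≤ ((V1C_J hWfin.toFinset X K).card : ℝ) * M := by
    have a5 : ((V1 X K).ncard : ℝ) ≤ ((V1C_J hWfin.toFinset X K).card : ℝ) * (⌊M⌋₊ : ℝ) := by
      exact_mod_cast hn1
    refine a5.trans (mul_le_mul_of_nonneg_left (Nat.floor_le hM0) (Nat.cast_nonneg _))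
  have hJ := V1C_card hWfin.toFinset X K hL0.le
  rw [← Set.ncard_eq_toFinset_card _ hWfin, ← hLdef] at hJ
  -- exponential form
  set Q := K ^ ((2 : ℝ) / 3) with hQ
  have hQ0 : 0 < Q := Real.rpow_pos_of_pos hK0 _
  have hJ2 : ((V1C_J hWfin.toFinset X K).card : ℝ) ≤
      Real.exp (23 + C₂ / Q * L + 2 * (2 + y)) := by
    refine hJ.trans ?_
    have b1 : (24 : ℝ) ≤ Real.exp 23 := by
      have := Real.add_one_le_exp (23 : ℝ)
      linarith
    have b2 : 2 * L + 1 ≤ Real.exp (2 + y) := by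
      have b3 := Real.add_one_le_exp (2 : ℝ)
      rw [Real.exp_add, ← hLy]
      nlinarith
    have b4 : (2 * L + 1) ^ 2 ≤ Real.exp (2 * (2 + y)) := by
      have b5 : Real.exp (2 * (2 + y)) = Real.exp (2 + y) ^ 2 := by
        rw [← Real.exp_nat_mul]
        norm_num
      rw [b5]
      exact pow_le_pow_left₀ (by linarith) b2 2
    rw [Real.exp_add, Real.exp_add, mul_assoc]
    refine mul_le_mul b1 ?_ (by positivity) (Real.exp_pos _).le
    exact mul_le_mul hWcard b4 (by positivity) (Real.exp_pos _).le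
  refine hn2.trans ((mul_le_mul_of_nonneg_right hJ2 hM0).trans ?_)
  rw [hM, ← Real.exp_add]
  refine Real.exp_le_exp.2 ?_
  -- the exponents
  have hκK2 : κ / K = 1 / Q := by
    rw [div_eq_div_iff hK0.ne' hQ0.ne', hκ, hQ, ← Real.rpow_add hK0, one_mul]
    norm_num
  have hQK : Q ≤ K := by
    have := Real.rpow_le_rpow_of_exponent_le (by linarith : (1 : ℝ) ≤ K)
      (by norm_num : (2 : ℝ) / 3 ≤ 1)
    rwa [Real.rpow_one] at this
  set E := Real.log (2 * K) / Q * L with hE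
  have hE0 : 0 ≤ E := by positivity
  have hLQ : L / Q ≤ E := by
    rw [hE]
    have c3 : 0 ≤ L / Q := by positivity
    calc L / Q ≤ Real.log (2 * K) * (L / Q) := by nlinarith
      _ = _ := by ring
  have hLK : L / K ≤ E := (div_le_div_of_nonneg_left hL0.le hQ0 hQK).trans hLQ
  have hT4 : W * (4 * C₁ * κ * Real.log (2 * K)) ≤ 12 * C₁ * E := by
    have c4 : W ≤ 3 * (L / K) := by
      rw [hW]
      linarith
    have c5 : 0 ≤ 4 * C₁ * κ * Real.log (2 * K) := by positivity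
    calc W * (4 * C₁ * κ * Real.log (2 * K)) ≤ 3 * (L / K) * (4 * C₁ * κ * Real.log (2 * K)) :=
          mul_le_mul_of_nonneg_right c4 c5
      _ = 12 * C₁ * (Real.log (2 * K) * (κ / K) * L) := by ring
      _ = 12 * C₁ * E := by
          rw [hκK2, hE]
          ring
  have hT5 : y * C₁ ≤ C₁ * E := by
    have := hyK.trans hLK
    nlinarith
  have hT6 : C₂ / Q * L ≤ C₂ * E := by
    calc C₂ / Q * L = C₂ * (L / Q) := by ring
      _ ≤ C₂ * E := mul_le_mul_of_nonneg_left hLQ hC₂.le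
  have hyE : y ≤ E := hyK.trans hLK
  have hfin : 23 + C₂ / Q * L + 2 * (2 + y) + (W * (4 * C₁ * κ * Real.log (2 * K)) + y * C₁) ≤
      (30 + 13 * C₁ + C₂) * E := by
    nlinarith
  have hfin2 : (30 + 13 * C₁ + C₂) * E ≤ C * E := by
    refine mul_le_mul_of_nonneg_right ?_ hE0
    rw [hC]
    linarith
  calc _ ≤ (30 + 13 * C₁ + C₂) * E := hfin
    _ ≤ C * E := hfin2
    _ = _ := by
        rw [hE]
        ring

end Pool.FCR
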