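import Pool.Agent.Work.MP_2738db_R.Defs

set_option autoImplicit false

/-! # THEOREM T*, block V3C: equal exponents -/

namespace Pool.FCR

open NumberField Pool.FCS

theorem p_V3C (h1 : S_RDW) (h2 : S_EQW) : S_V3C := by
  classical
  obtain ⟨C₁, hC₁, hRD⟩ := h1
  set C : ℝ := 100 + 2 * C₁ with hCdef
  have hC100 : 100 ≤ C := by rw [hCdef]; linarith
  have hCC₁ : C₁ ≤ C := by rw [hCdef]; linarith
  refine ⟨C, by linarith, ?_⟩
  intro X K hX hK hCK
  have hX1 : 1 < X := by linarith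
  have hX0 : 0 < X := by linarith
  have hK0 : 0 < K := by linarith
  set L := Real.log X with hLdef
  have hL3 : 3 ≤ L := by
    rw [hLdef, Real.le_log_iff_exp_le hX0]
    have h3 : Real.exp 3 = Real.exp 1 ^ 3 := by
      rw [← Real.exp_nat_mul]
      norm_num
    rw [h3]
    have h4 := Real.exp_one_lt_d9
    have h5 : Real.exp 1 ^ 3 ≤ (2.7182818286 : ℝ) ^ 3 :=
      pow_le_pow_left₀ (Real.exp_pos _).le h4.le 3
    norm_num at h5 ⊢
    linarith
  have hL0 : 0 < L := by linarith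
  have hlogL : 1 ≤ Real.log L := by
    rw [Real.le_log_iff_exp_le hL0]
    have h4 := Real.exp_one_lt_d9
    linarith
  have hKL0 : 0 < K * Real.log L := by positivity
  obtain ⟨hRfin, hRcard, hRdiv⟩ := hRD X K (hCC₁.trans hX) hK (by
    have : C₁ * K * Real.log L ≤ C * K * Real.log L := by
      have := mul_le_mul_of_nonneg_right hCC₁ hKL0.le
      calc C₁ * K * Real.log L = C₁ * (K * Real.log L) := by ring
        _ ≤ C * (K * Real.log L) := this
        _ = _ := by ring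
    exact this.trans hCK)
  set M := K ^ ((2 : ℝ) / 3) with hM
  have hM0 : 0 < M := Real.rpow_pos_of_pos hK0 _
  have hMK : M ≤ K := by
    have := Real.rpow_le_rpow_of_exponent_le (x := K) (by linarith) (by norm_num : (2 : ℝ) / 3 ≤ 1)
    rwa [Real.rpow_one] at this
  have hLM0 : 0 ≤ L / M := by positivity
  have hLK : 100 * Real.log L ≤ L / M := by
    have h3 : L / K ≤ L / M := by gcongr
    have h4 : 100 * Real.log L ≤ L / K := by
      rw [le_div_iff₀ hK0]
      have h5 := mul_le_mul_of_nonneg_right hC100 hKL0.le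
      calc 100 * Real.log L * K = 100 * (K * Real.log L) := by ring
        _ ≤ C * (K * Real.log L) := h5
        _ = C * K * Real.log L := by ring
        _ ≤ L := hCK
    exact h4.trans h3
  set l := Nat.log 2 ⌊X⌋₊ with hl
  have hle : ∀ (e j : ℕ), 2 ≤ e → (e : ℝ) ^ j ≤ X → j ≤ l := by
    intro e j he hj
    have h3 : e ^ j ≤ ⌊X⌋₊ := Nat.le_floor (by exact_mod_cast hj)
    have h4 : 2 ^ j ≤ ⌊X⌋₊ := (Nat.pow_le_pow_left he j).trans h3
    exact Nat.le_log_of_pow_le (by norm_num) h4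
  -- the index set
  let T : Finset (Fin 6 × ℕ × ℕ) :=
    Finset.univ ×ˢ (hRfin.toFinset ×ˢ Finset.Icc 3 l)
  have hfin : ∀ w n : ℕ, 1 ≤ w → 3 ≤ n → {p : ℕ × ℕ | EqW n w p.1 p.2}.Finite :=
    fun w n hw hn => (h2 w n hw hn).1
  let F : Fin 6 × ℕ × ℕ → Finset (ℕ × ℕ × ℕ) := fun t =>
    if h : 1 ≤ t.2.1 ∧ 3 ≤ t.2.2 then
      (hfin t.2.1 t.2.2 h.1 h.2).toFinset.image
        (fun p => perm6 t.1 (p.1 ^ t.2.2, p.2 ^ t.2.2, t.2.1))
    else ∅
  have hsub : V3 X K ⊆ ((T.biUnion F : Finset (ℕ × ℕ × ℕ)) : Set (ℕ × ℕ × ℕ)) := by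
    rintro τ ⟨i, a, b, w, n, hw, ha, hn, hE, haX, rfl⟩
    rw [Finset.mem_coe, Finset.mem_biUnion]
    refine ⟨(i, w, n), ?_, ?_⟩
    · simp only [T, Finset.mem_product, Finset.mem_univ, Finset.mem_Icc, true_and,
        Set.Finite.mem_toFinset, Set.mem_ofPred_eq]
      exact ⟨hw, hn, hle a n ha haX⟩
    · simp only [F]
      rw [dif_pos ⟨hw.1, hn⟩, Finset.mem_image]
      exact ⟨(a, b), (Set.Finite.mem_toFinset _).2 hE, rfl⟩
  have hfinW : (V3 X K).Finite := (Finset.finite_toSet _).subset hsub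
  refine ⟨hfinW, ?_⟩
  have hcardF : ∀ t ∈ T, ((F t).card : ℝ) ≤ 3 * Real.exp (C₁ / M * L) := by
    rintro ⟨i, w, n⟩ ht
    simp only [T, Finset.mem_product, Finset.mem_univ, Finset.mem_Icc, true_and,
        Set.Finite.mem_toFinset, Set.mem_ofPred_eq] at ht
    obtain ⟨hw, hn, -⟩ := ht
    have h3 := (h2 w n hw.1 hn).2
    simp only [F]
    rw [dif_pos ⟨hw.1, hn⟩]
    have h4 : ((hfin w n hw.1 hn).toFinset.image
        (fun p => perm6 i (p.1 ^ n, p.2 ^ n, w))).card ≤ 3 * w.divisors.card := by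
      refine Finset.card_image_le.trans ?_
      rw [← Set.ncard_eq_toFinset_card _ (hfin w n hw.1 hn)]
      exact h3
    refine (Nat.cast_le.2 h4).trans ?_
    have h5 := hRdiv w hw
    push_cast
    linarith
  have hcardT : (T.card : ℝ) ≤ 6 * (Real.exp (C₁ / M * L) * ((l : ℝ) + 1)) := by
    have h3 : T.card ≤ 6 * ({w : ℕ | RW X K w}.ncard * (l + 1)) := by
      rw [Finset.card_product, Finset.card_product, Finset.card_univ,
        Fintype.card_fin, Nat.card_Icc, ← Set.ncard_eq_toFinset_card _ hRfin]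
      exact Nat.mul_le_mul le_rfl (Nat.mul_le_mul le_rfl (by omega))
    calc (T.card : ℝ) ≤ ((6 * ({w : ℕ | RW X K w}.ncard * (l + 1)) : ℕ) : ℝ) := by
          exact_mod_cast h3
      _ = 6 * (({w : ℕ | RW X K w}.ncard : ℝ) * ((l : ℝ) + 1)) := by push_cast; ring
      _ ≤ _ := by gcongr
  have hcardW : ((V3 X K).ncard : ℝ) ≤
      (6 * (Real.exp (C₁ / M * L) * ((l : ℝ) + 1))) * (3 * Real.exp (C₁ / M * L)) := by
    have h3 : (V3 X K).ncard ≤ (T.biUnion F).card := by
      rw [← Set.ncard_coe_finset]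
      exact Set.ncard_le_ncard hsub (Finset.finite_toSet _)
    have h4 : (T.biUnion F).card ≤ ∑ t ∈ T, (F t).card := Finset.card_biUnion_le
    calc ((V3 X K).ncard : ℝ) ≤ ((∑ t ∈ T, (F t).card : ℕ) : ℝ) := by exact_mod_cast h3.trans h4
      _ = ∑ t ∈ T, ((F t).card : ℝ) := by push_cast; rfl
      _ ≤ ∑ _t ∈ T, 3 * Real.exp (C₁ / M * L) := Finset.sum_le_sum hcardF
      _ = (T.card : ℝ) * (3 * Real.exp (C₁ / M * L)) := by
          rw [Finset.sum_const, nsmul_eq_mul]
      _ ≤ _ := mul_le_mul_of_nonneg_right hcardT (by positivity)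
  refine hcardW.trans ?_
  -- everything in exponentials
  have hl1 : (l : ℝ) + 1 ≤ 3 * L := by
    have h3 : 2 ^ l ≤ ⌊X⌋₊ := Nat.pow_log_le_self 2 (by
      have : 1 ≤ ⌊X⌋₊ := Nat.le_floor (by exact_mod_cast hX1.le)
      omega)
    have h4 : ((2 : ℝ) ^ l) ≤ X := by
      have h5 : ((2 ^ l : ℕ) : ℝ) ≤ (⌊X⌋₊ : ℝ) := Nat.cast_le.2 h3
      push_cast at h5
      exact h5.trans (Nat.floor_le hX0.le)
    have h5 := Real.log_le_log (by positivity) h4
    rw [Real.log_pow] at h5
    have h6 := Real.log_two_gt_d9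
    have h7 : (0 : ℝ) ≤ (l : ℝ) := Nat.cast_nonneg _
    nlinarith
  have hlog2K : 1 ≤ Real.log (2 * K) := by
    have h3 : Real.log 4 ≤ Real.log (2 * K) := Real.log_le_log (by norm_num) (by linarith)
    have h4 : Real.log 4 = 2 * Real.log 2 := by
      have : (4 : ℝ) = 2 ^ (2 : ℕ) := by norm_num
      rw [this, Real.log_pow]
      norm_num
    have h5 := Real.log_two_gt_d9
    linarith
  have hlogl : Real.log ((l : ℝ) + 1) ≤ 3 * Real.log L := by
    have h3 : Real.log ((l : ℝ) + 1) ≤ Real.log (3 * L) :=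
      Real.log_le_log (by positivity) hl1
    rw [Real.log_mul (by norm_num) hL0.ne'] at h3
    have h4 : Real.log 3 ≤ 2 := by
      have := Real.log_le_sub_one_of_pos (show (0 : ℝ) < 3 by norm_num)
      linarith
    linarith
  have e2 : (l : ℝ) + 1 ≤ Real.exp (3 * Real.log L) := by
    calc (l : ℝ) + 1 = Real.exp (Real.log ((l : ℝ) + 1)) := (Real.exp_log (by positivity)).symm
      _ ≤ _ := Real.exp_le_exp.2 hlogl
  have e3 : (18 : ℝ) ≤ Real.exp 3 := by
    have h3 : Real.exp 3 = Real.exp 1 ^ 3 := by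
      rw [← Real.exp_nat_mul]
      norm_num
    have h4 := Real.exp_one_gt_d9
    have h5 : (2.7182818283 : ℝ) ^ 3 ≤ Real.exp 1 ^ 3 :=
      pow_le_pow_left₀ (by norm_num) h4.le 3
    rw [h3]
    norm_num at h5 ⊢
    linarith
  calc 6 * (Real.exp (C₁ / M * L) * ((l : ℝ) + 1)) * (3 * Real.exp (C₁ / M * L))
      = 18 * ((l : ℝ) + 1) * (Real.exp (C₁ / M * L) * Real.exp (C₁ / M * L)) := by ring
    _ ≤ Real.exp 3 * Real.exp (3 * Real.log L) *
        (Real.exp (C₁ / M * L) * Real.exp (C₁ / M * L)) := by gcongr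
    _ = Real.exp (3 + 3 * Real.log L + (C₁ / M * L + C₁ / M * L)) := by
        rw [Real.exp_add, Real.exp_add, Real.exp_add]
    _ ≤ Real.exp (C * Real.log (2 * K) / M * L) := by
        apply Real.exp_le_exp.2
        have h3 : L / M ≤ L / M * Real.log (2 * K) := le_mul_of_one_le_right hLM0 hlog2K
        have h4 : C * Real.log (2 * K) / M * L = C * (L / M * Real.log (2 * K)) := by
          field_simp
        have h5 : C * (L / M) ≤ C * (L / M * Real.log (2 * K)) :=
          mul_le_mul_of_nonneg_left h3 (by linarith)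
        have h6 : C₁ / M * L = C₁ * (L / M) := by ring
        have h7 : C * (L / M) = 100 * (L / M) + 2 * (C₁ * (L / M)) := by rw [hCdef]; ring
        rw [h4, h6]
        linarith

end Pool.FCR
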