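import Pool.Agent.Work.MP_2738db_R.Defs

set_option autoImplicit false

/-! # Block VDM: divisibility of generalized Vandermonde determinants -/

namespace Pool.FCR

open NumberField Pool.FCS Polynomial

theorem VDM_card (D : ℕ) : ∑ i : Fin D, (Finset.Ioi i).card = D * (D - 1) / 2 := by
  have h1 : ∀ i : Fin D, (Finset.Ioi i).card = D - 1 - (i : ℕ) := fun i => Fin.card_Ioi i
  simp only [h1]
  rw [Fin.sum_univ_eq_sum_range (fun i => D - 1 - i) D, Finset.sum_range_reflect (fun i => i) D,
    Finset.sum_range_id]

theorem p_VDM : S_VDM := by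
  intro D p x₀ x Q hx
  classical
  have hdiff : ∀ i j, p ∣ x j - x i := by
    intro i j
    have h1 : x j - x i = (x j - x₀) - (x i - x₀) := by ring
    rw [h1]
    exact dvd_sub (hx j) (hx i)
  have hV : p ^ (D * (D - 1) / 2) ∣ (Matrix.vandermonde x).det := by
    rw [Matrix.det_vandermonde, ← VDM_card, ← Finset.prod_pow_eq_pow_sum]
    apply Finset.prod_dvd_prod_of_dvd
    intro i _
    rw [← Finset.prod_const]
    exact Finset.prod_dvd_prod_of_dvd _ _ fun j _ => hdiff i j
  set f : ℤ[X] := ∏ k : Fin D, (X - C (x k)) with hf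
  have hfm : f.Monic := monic_prod_of_monic _ _ fun k _ => monic_X_sub_C (x k)
  have hfd : f.natDegree = D := by
    rw [hf, natDegree_prod_of_monic _ _ fun k _ => monic_X_sub_C (x k)]
    simp only [natDegree_X_sub_C, Finset.sum_const, Finset.card_univ, Fintype.card_fin,
      smul_eq_mul, mul_one]
  have hf0 : ∀ k, f.eval (x k) = 0 := by
    intro k
    rw [hf, eval_prod]
    exact Finset.prod_eq_zero (Finset.mem_univ k) (by simp)
  have hev : ∀ k l, (Q l).eval (x k) = (Q l %ₘ f).eval (x k) := by
    intro k l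
    conv_lhs => rw [← modByMonic_add_div (Q l) f]
    rw [eval_add, eval_mul, hf0 k, zero_mul, add_zero]
  have hM : (Matrix.of fun k l => (Q l).eval (x k)) = Matrix.vandermonde x *
      (Matrix.of fun (r : Fin D) (l : Fin D) => (Q l %ₘ f).coeff r) := by
    ext k l
    rw [Matrix.mul_apply]
    simp only [Matrix.of_apply, Matrix.vandermonde_apply]
    rw [hev]
    have hDpos : 0 < D := lt_of_le_of_lt (Nat.zero_le _) k.2
    have hf1 : f ≠ 1 := by
      intro h
      rw [h, natDegree_one] at hfd
      omega
    have hlt : (Q l %ₘ f).natDegree < D := by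
      have := natDegree_modByMonic_lt (Q l) hfm hf1
      rwa [hfd] at this
    rw [eval_eq_sum_range' hlt, Finset.sum_range]
    exact Finset.sum_congr rfl fun r _ => by ring
  rw [hM, Matrix.det_mul]
  exact Dvd.dvd.mul_right hV _

end Pool.FCR
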