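import Pool.Agent.Work.MP_2738db_R.Defs

/-!
# MP_2738db_nt, THEOREM T*, block ZER (helper79): common zeros with `y ^ m = g(x)`
-/

set_option autoImplicit false

namespace Pool.FCR

open NumberField Pool.FCS
open Polynomial

/-- multiplication by `∑ φ k y ^ k` in the basis `1, y, ..` when `y ^ m = G` -/
theorem ZER_id {S : Type} [CommRing S] (m : ℕ) (y G : S) (φ : ℕ → S) (hy : y ^ m = G) (j : ℕ)
    (hj : j < m) :
    ∑ r ∈ Finset.range m, y ^ r * (if j ≤ r then φ (r - j) else G * φ (r + m - j)) =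
      y ^ j * ∑ k ∈ Finset.range m, y ^ k * φ k := by
  obtain ⟨q, rfl⟩ : ∃ q, m = j + q := ⟨m - j, by omega⟩
  have h1 : ∑ r ∈ Finset.range (j + q), y ^ r *
      (if j ≤ r then φ (r - j) else G * φ (r + (j + q) - j)) =
      ∑ r ∈ Finset.range j, y ^ j * (y ^ (q + r) * φ (q + r)) +
        ∑ k ∈ Finset.range q, y ^ j * (y ^ k * φ k) := by
    rw [Finset.sum_range_add]
    congr 1
    · apply Finset.sum_congr rfl
      intro r hr
      rw [Finset.mem_range] at hr
      rw [if_neg (by omega), ← hy]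
      have : r + (j + q) - j = q + r := by omega
      rw [this]
      ring
    · apply Finset.sum_congr rfl
      intro k hk
      rw [if_pos (by omega)]
      have : j + k - j = k := by omega
      rw [this]
      ring
  have h2 : ∑ k ∈ Finset.range (j + q), y ^ k * φ k =
      ∑ k ∈ Finset.range q, y ^ k * φ k + ∑ r ∈ Finset.range j, y ^ (q + r) * φ (q + r) := by
    rw [add_comm j q, Finset.sum_range_add]
  rw [h1, h2, mul_add, Finset.mul_sum, Finset.mul_sum, add_comm]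

/-- the polynomial `g` with `a ^ m = g(b)` -/
noncomputable def ZER_g (n w : ℕ) (s t : ℤ) : ℚ[X] := C (t : ℚ) * (X ^ n - C (-((s * w : ℤ) : ℚ)))

theorem ZER_prime (n m w : ℕ) (s t : ℤ) (hn : 1 ≤ n) (hm : 1 ≤ m) (hw : 1 ≤ w)
    (hs : s = 1 ∨ s = -1) (ht : t = 1 ∨ t = -1) :
    Prime (X ^ m - C (ZER_g n w s t) : ℚ[X][X]) := by
  have hsw : (-((s * w : ℤ) : ℚ)) ≠ 0 := by
    have h1 : (s * w : ℤ) ≠ 0 := by
      apply mul_ne_zero
      · rcases hs with h | h <;> rw [h] <;> norm_num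
      · exact_mod_cast (by omega : w ≠ 0)
    exact neg_ne_zero.2 (by exact_mod_cast h1)
  have ht0 : (t : ℚ) ≠ 0 := by
    rcases ht with h | h <;> rw [h] <;> norm_num
  have hsq : Squarefree (X ^ n - C (-((s * w : ℤ) : ℚ)) : ℚ[X]) :=
    (separable_X_pow_sub_C _ (by exact_mod_cast (by omega : n ≠ 0)) hsw).squarefree
  have hdeg : 0 < (X ^ n - C (-((s * w : ℤ) : ℚ)) : ℚ[X]).natDegree := by
    rw [natDegree_X_pow_sub_C]
    omega
  have hnu : ¬ IsUnit (X ^ n - C (-((s * w : ℤ) : ℚ)) : ℚ[X]) :=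
    not_isUnit_of_natDegree_pos _ hdeg
  have hne : (X ^ n - C (-((s * w : ℤ) : ℚ)) : ℚ[X]) ≠ 0 := by
    intro h
    rw [h, natDegree_zero] at hdeg
    exact lt_irrefl _ hdeg
  obtain ⟨π, hπ, hdvd⟩ := WfDvdMonoid.exists_irreducible_factor hnu hne
  have hCt : IsUnit (C (t : ℚ) : ℚ[X]) := isUnit_C.2 (IsUnit.mk0 _ ht0)
  have hg1 : π ∣ ZER_g n w s t := Dvd.dvd.mul_left hdvd _
  have hg2 : ¬ π ^ 2 ∣ ZER_g n w s t := by
    intro h
    unfold ZER_g at h
    rw [hCt.dvd_mul_left] at h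
    exact hπ.not_isUnit (hsq π (by rwa [← sq]))
  have hP : (Ideal.span {π} : Ideal ℚ[X]).IsPrime :=
    (Ideal.span_singleton_prime hπ.ne_zero).2 hπ.prime
  have hmon : (X ^ m - C (ZER_g n w s t) : ℚ[X][X]).Monic :=
    monic_X_pow_sub_C _ (by omega)
  have hd : (X ^ m - C (ZER_g n w s t) : ℚ[X][X]).degree = m := degree_X_pow_sub_C (by omega) _
  refine Irreducible.prime ?_
  refine irreducible_of_eisenstein_criterion hP ?_ ?_ ?_ ?_ hmon.isPrimitive
  · rw [hmon.leadingCoeff, Ideal.mem_span_singleton]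
    intro h
    exact hπ.not_isUnit (isUnit_of_dvd_one h)
  · intro k hk
    rw [hd] at hk
    have hk' : k < m := by exact_mod_cast hk
    rw [Ideal.mem_span_singleton, coeff_sub, coeff_X_pow, if_neg (by omega), zero_sub, coeff_C]
    by_cases h0 : k = 0
    · rw [if_pos h0]
      exact (dvd_neg).2 hg1
    · rw [if_neg h0, neg_zero]
      exact dvd_zero _
  · rw [hd]
    exact_mod_cast hm
  · rw [Ideal.span_singleton_pow, Ideal.mem_span_singleton, coeff_sub, coeff_X_pow,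
      if_neg (by omega), zero_sub, coeff_C_zero, dvd_neg]
    exact hg2

/-- the coefficient of `Y ^ k` -/
noncomputable def ZER_F {I J : ℕ} (c : Fin I → Fin J → ℤ) (k : ℕ) : ℚ[X] :=
  if h : k < J then ∑ i : Fin I, C ((c i ⟨k, h⟩ : ℤ) : ℚ) * X ^ (i : ℕ) else 0

theorem ZER_F_coeff {I J : ℕ} (c : Fin I → Fin J → ℤ) (i : Fin I) (j : Fin J) :
    (ZER_F c j).coeff (i : ℕ) = ((c i j : ℤ) : ℚ) := by
  unfold ZER_F
  rw [dif_pos j.2, finset_sum_coeff]
  simp only [coeff_C_mul, coeff_X_pow]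
  rw [Finset.sum_eq_single i]
  · simp
  · intro b _ hb
    rw [if_neg (fun h => hb (Fin.ext h.symm)), mul_zero]
  · intro h
    exact absurd (Finset.mem_univ i) h

theorem ZER_F_deg {I J : ℕ} (c : Fin I → Fin J → ℤ) (k : ℕ) :
    (ZER_F c k).natDegree ≤ I - 1 := by
  unfold ZER_F
  split_ifs with h
  · refine natDegree_sum_le_of_forall_le _ _ fun i _ => ?_
    refine (natDegree_C_mul_X_pow_le _ _).trans ?_
    have := i.2
    omega
  · simp

theorem ZER_F_eval {I J : ℕ} (c : Fin I → Fin J → ℤ) (m : ℕ) (hJ : J ≤ m) (x y : ℚ) :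
    ∑ k ∈ Finset.range m, y ^ k * (ZER_F c k).eval x =
      ∑ i : Fin I, ∑ j : Fin J, ((c i j : ℤ) : ℚ) * x ^ (i : ℕ) * y ^ (j : ℕ) := by
  have h1 : ∑ k ∈ Finset.range m, y ^ k * (ZER_F c k).eval x =
      ∑ k ∈ Finset.range J, y ^ k * (ZER_F c k).eval x := by
    refine (Finset.sum_subset (Finset.range_mono hJ) fun k _ hk => ?_).symm
    rw [Finset.mem_range] at hk
    unfold ZER_F
    rw [dif_neg hk, eval_zero, mul_zero]
  rw [h1, Finset.sum_range, Finset.sum_comm]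
  refine Finset.sum_congr rfl fun j _ => ?_
  unfold ZER_F
  rw [dif_pos j.2, eval_finset_sum, Finset.mul_sum]
  refine Finset.sum_congr rfl fun i _ => ?_
  rw [eval_mul, eval_C, eval_pow, eval_X]
  ring

/-- the matrix of the multiplication by `F` -/
noncomputable def ZER_M (m : ℕ) (g : ℚ[X]) {I J : ℕ} (c : Fin I → Fin J → ℤ) :
    Matrix (Fin m) (Fin m) ℚ[X] :=
  Matrix.of fun r j => if (j : ℕ) ≤ r then ZER_F c (r - j) else g * ZER_F c (r + m - j)

theorem ZER_det_ne (n m w I J : ℕ) (s t : ℤ) (c : Fin I → Fin J → ℤ) (hn : 1 ≤ n) (hm : 1 ≤ m)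
    (hw : 1 ≤ w) (hs : s = 1 ∨ s = -1) (ht : t = 1 ∨ t = -1) (hJ : J ≤ m) (hc : c ≠ 0) :
    (ZER_M m (ZER_g n w s t) c).det ≠ 0 := by
  intro hdet
  obtain ⟨v, hv, hMv⟩ := Matrix.exists_mulVec_eq_zero_iff.2 hdet
  obtain ⟨f, hf⟩ : ∃ f : ℚ[X][X], f = X ^ m - C (ZER_g n w s t) := ⟨_, rfl⟩
  have hfp : Prime f := by
    rw [hf]
    exact ZER_prime n m w s t hn hm hw hs ht
  have hfd : f.degree = m := by
    rw [hf]
    exact degree_X_pow_sub_C (by omega) _
  obtain ⟨P, hP⟩ : ∃ P : ℚ[X][X], P = ∑ j : Fin m, C (v j) * X ^ (j : ℕ) := ⟨_, rfl⟩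
  obtain ⟨Q, hQ⟩ : ∃ Q : ℚ[X][X], Q = ∑ k : Fin m, C (ZER_F c k) * X ^ (k : ℕ) := ⟨_, rfl⟩
  have hPd : P.degree < m := by rw [hP]; exact degree_sum_fin_lt _
  have hQd : Q.degree < m := by rw [hQ]; exact degree_sum_fin_lt _
  have hroot : (AdjoinRoot.root f) ^ m = AdjoinRoot.of f (ZER_g n w s t) := by
    have h : AdjoinRoot.mk f (X ^ m - C (ZER_g n w s t)) = 0 :=
      AdjoinRoot.mk_eq_zero.2 ⟨1, by rw [mul_one]; exact hf.symm⟩
    rw [map_sub, map_pow, AdjoinRoot.mk_X, AdjoinRoot.mk_C, sub_eq_zero] at h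
    exact h
  have hmk : AdjoinRoot.mk f (Q * P) = 0 := by
    have e1 : AdjoinRoot.mk f P = ∑ j : Fin m, AdjoinRoot.of f (v j) * AdjoinRoot.root f ^ (j : ℕ) := by
      rw [hP, map_sum]
      refine Finset.sum_congr rfl fun j _ => ?_
      rw [map_mul, map_pow, AdjoinRoot.mk_X, AdjoinRoot.mk_C]
    have e2 : AdjoinRoot.mk f Q = ∑ k ∈ Finset.range m,
        AdjoinRoot.root f ^ k * AdjoinRoot.of f (ZER_F c k) := by
      rw [hQ, map_sum, Finset.sum_range]
      refine Finset.sum_congr rfl fun j _ => ?_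
      rw [map_mul, map_pow, AdjoinRoot.mk_X, AdjoinRoot.mk_C, mul_comm]
    rw [map_mul, e1, Finset.mul_sum]
    have e3 : ∀ j : Fin m, AdjoinRoot.mk f Q *
        (AdjoinRoot.of f (v j) * AdjoinRoot.root f ^ (j : ℕ)) =
        ∑ r : Fin m, AdjoinRoot.root f ^ (r : ℕ) *
          AdjoinRoot.of f (ZER_M m (ZER_g n w s t) c r j * v j) := by
      intro j
      have h1 := ZER_id m (AdjoinRoot.root f) (AdjoinRoot.of f (ZER_g n w s t))
        (fun k => AdjoinRoot.of f (ZER_F c k)) hroot j j.2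
      rw [e2, mul_comm, mul_assoc, ← h1, Finset.sum_range, Finset.mul_sum]
      refine Finset.sum_congr rfl fun r _ => ?_
      have h2 : (if (j : ℕ) ≤ (r : ℕ) then AdjoinRoot.of f (ZER_F c ((r : ℕ) - j)) else
          AdjoinRoot.of f (ZER_g n w s t) * AdjoinRoot.of f (ZER_F c ((r : ℕ) + m - j))) =
          AdjoinRoot.of f (ZER_M m (ZER_g n w s t) c r j) := by
        unfold ZER_M
        rw [Matrix.of_apply]
        split_ifs
        · rfl
        · rw [map_mul]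
      rw [h2, map_mul]
      ring
    rw [Finset.sum_congr rfl fun j _ => e3 j, Finset.sum_comm]
    refine Finset.sum_eq_zero fun r _ => ?_
    rw [← Finset.mul_sum, ← map_sum]
    have h3 : ∑ j : Fin m, ZER_M m (ZER_g n w s t) c r j * v j = 0 := congrFun hMv r
    rw [h3, map_zero, mul_zero]
  rw [AdjoinRoot.mk_eq_zero] at hmk
  rcases hfp.dvd_or_dvd hmk with h | h
  · have hQ0 : Q = 0 := by
      by_contra hne
      have := degree_le_of_dvd h hne
      rw [hfd] at this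
      exact absurd hQd (not_lt.2 this)
    apply hc
    funext i j
    have h1 : ZER_F c j = 0 := by
      have h2 := congrArg (fun p => p.coeff (j : ℕ)) hQ0
      simp only [coeff_zero] at h2
      rw [hQ, finset_sum_coeff] at h2
      simp only [coeff_C_mul, coeff_X_pow] at h2
      rw [Finset.sum_eq_single (⟨j, lt_of_lt_of_le j.2 hJ⟩ : Fin m)] at h2
      · simpa using h2
      · intro b _ hb
        rw [if_neg (fun h => hb (Fin.ext h.symm)), mul_zero]
      · intro h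
        exact absurd (Finset.mem_univ _) h
    have h3 := ZER_F_coeff c i j
    rw [h1, coeff_zero] at h3
    exact_mod_cast h3.symm
  · have hP0 : P = 0 := by
      by_contra hne
      have := degree_le_of_dvd h hne
      rw [hfd] at this
      exact absurd hPd (not_lt.2 this)
    apply hv
    funext j
    have h2 := congrArg (fun p => p.coeff (j : ℕ)) hP0
    simp only [coeff_zero] at h2
    rw [hP, finset_sum_coeff] at h2
    simp only [coeff_C_mul, coeff_X_pow] at h2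
    rw [Finset.sum_eq_single j] at h2
    · simpa using h2
    · intro b _ hb
      rw [if_neg (fun h => hb (Fin.ext h.symm)), mul_zero]
    · intro h
      exact absurd (Finset.mem_univ _) h

theorem ZER_g_deg (n w : ℕ) (s t : ℤ) : (ZER_g n w s t).natDegree ≤ n := by
  unfold ZER_g
  refine (natDegree_C_mul_le _ _).trans ?_
  exact (natDegree_X_pow_sub_C (n := n)).le

theorem ZER_entry (n m w I J : ℕ) (s t : ℤ) (c : Fin I → Fin J → ℤ) (r j : Fin m)
    (h0 : ZER_M m (ZER_g n w s t) c r j ≠ 0) :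
    m * (ZER_M m (ZER_g n w s t) c r j).natDegree + n * r ≤
      m * (I - 1) + n * (J - 1) + n * j := by
  unfold ZER_M at h0 ⊢
  rw [Matrix.of_apply] at h0 ⊢
  have hr := r.2
  have hj := j.2
  split_ifs at h0 ⊢ with h
  · have h1 := ZER_F_deg c ((r : ℕ) - j)
    have h2 : (r : ℕ) - j < J := by
      by_contra hcon
      unfold ZER_F at h0
      rw [dif_neg hcon] at h0
      exact h0 rfl
    have h3 : (r : ℕ) ≤ (J - 1) + j := by omega
    have h4 := Nat.mul_le_mul_left m h1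
    have h5 := Nat.mul_le_mul_left n h3
    rw [mul_add] at h5
    omega
  · have h1 := ZER_F_deg c ((r : ℕ) + m - j)
    have h2 : (r : ℕ) + m - j < J := by
      by_contra hcon
      unfold ZER_F at h0
      rw [dif_neg hcon, mul_zero] at h0
      exact h0 rfl
    have h3 : m + (r : ℕ) ≤ (J - 1) + j := by omega
    have h4 : (ZER_g n w s t * ZER_F c ((r : ℕ) + m - j)).natDegree ≤ n + (I - 1) :=
      natDegree_mul_le.trans (add_le_add (ZER_g_deg n w s t) h1)
    have h5 := Nat.mul_le_mul_left m h4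
    have h6 := Nat.mul_le_mul_left n h3
    rw [mul_add] at h5 h6
    rw [mul_add] at h6
    have h7 : m * n = n * m := mul_comm _ _
    omega

theorem ZER_det_deg (n m w I J : ℕ) (s t : ℤ) (c : Fin I → Fin J → ℤ) (hm : 1 ≤ m) :
    (ZER_M m (ZER_g n w s t) c).det.natDegree ≤ m * (I - 1) + n * (J - 1) := by
  rw [Matrix.det_apply]
  refine natDegree_sum_le_of_forall_le _ _ fun σ _ => ?_
  refine (natDegree_smul_le _ _).trans ?_
  by_cases h0 : ∃ i, ZER_M m (ZER_g n w s t) c (σ i) i = 0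
  · obtain ⟨i, hi⟩ := h0
    have hz : ∏ i, ZER_M m (ZER_g n w s t) c (σ i) i = 0 :=
      Finset.prod_eq_zero (Finset.mem_univ i) hi
    have hz2 : (∏ i, ZER_M m (ZER_g n w s t) c (σ i) i).natDegree = 0 := by
      rw [hz, natDegree_zero]
    exact le_trans (le_of_eq hz2) (Nat.zero_le _)
  · push Not at h0
    refine (natDegree_prod_le _ _).trans ?_
    have h1 : ∑ i : Fin m, (m * (ZER_M m (ZER_g n w s t) c (σ i) i).natDegree + n * (σ i : ℕ)) ≤
        ∑ i : Fin m, (m * (I - 1) + n * (J - 1) + n * (i : ℕ)) :=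
      Finset.sum_le_sum fun i _ => ZER_entry n m w I J s t c (σ i) i (h0 i)
    rw [Finset.sum_add_distrib, Finset.sum_add_distrib, ← Finset.mul_sum, ← Finset.mul_sum,
      ← Finset.mul_sum, Finset.sum_const, Finset.card_univ, Fintype.card_fin, smul_eq_mul,
      Equiv.sum_comp σ (fun i : Fin m => (i : ℕ))] at h1
    exact Nat.le_of_mul_le_mul_left (by omega) hm

theorem ZER_root (n m w I J : ℕ) (s t : ℤ) (c : Fin I → Fin J → ℤ) (hm : 1 ≤ m)
    (ht : t = 1 ∨ t = -1) (hJ : J ≤ m) (a b : ℕ)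
    (h1 : t * (a : ℤ) ^ m = (b : ℤ) ^ n + s * (w : ℤ))
    (h2 : ∑ i : Fin I, ∑ j : Fin J, c i j * (b : ℤ) ^ (i : ℕ) * (a : ℤ) ^ (j : ℕ) = 0) :
    (ZER_M m (ZER_g n w s t) c).det.eval (b : ℚ) = 0 := by
  have ht2 : (t : ℚ) * t = 1 := by
    rcases ht with h | h <;> rw [h] <;> norm_num
  have hg : (a : ℚ) ^ m = (ZER_g n w s t).eval (b : ℚ) := by
    unfold ZER_g
    rw [eval_mul, eval_C, eval_sub, eval_pow, eval_X, eval_C]
    have h3 : (t : ℚ) * (a : ℚ) ^ m = (b : ℚ) ^ n + s * w := by exact_mod_cast h1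
    push_cast
    have h4 : (a : ℚ) ^ m = t * (t * (a : ℚ) ^ m) := by
      rw [← mul_assoc, ht2, one_mul]
    rw [h4, h3]
    ring
  have hF : ∑ k ∈ Finset.range m, (a : ℚ) ^ k * (ZER_F c k).eval (b : ℚ) = 0 := by
    rw [ZER_F_eval c m hJ]
    exact_mod_cast h2
  have hdet : (ZER_M m (ZER_g n w s t) c).det.eval (b : ℚ) =
      ((evalRingHom (b : ℚ)).mapMatrix (ZER_M m (ZER_g n w s t) c)).det := by
    rw [← coe_evalRingHom, RingHom.map_det]
  rw [hdet, ← Matrix.exists_vecMul_eq_zero_iff]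
  refine ⟨fun r => (a : ℚ) ^ (r : ℕ), ?_, ?_⟩
  · intro h
    have h3 := congrFun h ⟨0, hm⟩
    simp at h3
  · funext j
    have h3 := ZER_id m (a : ℚ) ((ZER_g n w s t).eval (b : ℚ))
      (fun k => (ZER_F c k).eval (b : ℚ)) hg j j.2
    rw [hF, mul_zero, Finset.sum_range] at h3
    rw [Matrix.vecMul, dotProduct, Pi.zero_apply, ← h3]
    refine Finset.sum_congr rfl fun r _ => ?_
    congr 1
    rw [RingHom.mapMatrix_apply, Matrix.map_apply]
    unfold ZER_M
    rw [Matrix.of_apply, coe_evalRingHom]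
    split_ifs
    · rfl
    · rw [eval_mul]

theorem p_ZER : S_ZER := by
  intro n m w I J s t c hn hm hw hs ht hJ hc
  obtain ⟨S, hS⟩ : ∃ S : Set (ℕ × ℕ), S = {p : ℕ × ℕ |
    t * (p.1 : ℤ) ^ m = (p.2 : ℤ) ^ n + s * (w : ℤ) ∧
      ∑ i : Fin I, ∑ j : Fin J, c i j * (p.2 : ℤ) ^ (i : ℕ) * (p.1 : ℤ) ^ (j : ℕ) = 0} := ⟨_, rfl⟩
  rw [← hS]
  have hne := ZER_det_ne n m w I J s t c hn hm hw hs ht hJ hc
  obtain ⟨D, hD⟩ : ∃ D : ℚ[X], D = (ZER_M m (ZER_g n w s t) c).det := ⟨_, rfl⟩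
  rw [← hD] at hne
  have hdeg : D.natDegree ≤ m * (I - 1) + n * (J - 1) := by
    rw [hD]
    exact ZER_det_deg n m w I J s t c hm
  have hmaps : ∀ p ∈ S, (p.2 : ℚ) ∈ (D.roots.toFinset : Set ℚ) := by
    intro p hp
    rw [hS] at hp
    rw [Finset.mem_coe, Multiset.mem_toFinset, mem_roots hne, IsRoot, hD]
    exact ZER_root n m w I J s t c hm ht hJ p.1 p.2 hp.1 hp.2
  have hinj : Set.InjOn (fun p : ℕ × ℕ => (p.2 : ℚ)) S := by
    intro p hp q hq hpq
    rw [hS] at hp hq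
    have h1' : (p.2 : ℚ) = (q.2 : ℚ) := hpq
    have h2 : p.2 = q.2 := by exact_mod_cast h1'
    have ht0 : t ≠ 0 := by rcases ht with h | h <;> rw [h] <;> norm_num
    have h3 : t * (p.1 : ℤ) ^ m = t * (q.1 : ℤ) ^ m := by
      rw [hp.1, hq.1, h2]
    have h4 : (p.1 : ℤ) ^ m = (q.1 : ℤ) ^ m := mul_left_cancel₀ ht0 h3
    have h5 : p.1 ^ m = q.1 ^ m := by exact_mod_cast h4
    have h6 : p.1 = q.1 := Nat.pow_left_injective (by omega) h5
    exact Prod.ext h6 h2
  have hfin : (D.roots.toFinset : Set ℚ).Finite := Finset.finite_toSet _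
  refine ⟨Set.Finite.of_injOn hmaps hinj hfin, ?_⟩
  refine (Set.ncard_le_ncard_of_injOn _ hmaps hinj hfin).trans ?_
  rw [Set.ncard_coe_finset]
  refine (Multiset.toFinset_card_le _).trans ((card_roots' D).trans (hdeg.trans ?_))
  have h1 : m * (I - 1) ≤ m * I := Nat.mul_le_mul_left m (Nat.sub_le I 1)
  have h2 : n * (J - 1) ≤ n * J := Nat.mul_le_mul_left n (Nat.sub_le J 1)
  omega

end Pool.FCR
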