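import Pool.Agent.Work.MP_2738db_R.Defs
import Pool.Agent.Work.MP_2738db_S.B_SZ2

set_option autoImplicit false

/-! # Block ZW2: size, large `b`, third term `w` (helper88) -/

namespace Pool.FCR

open NumberField Pool.FCS

/-- all conjugates of `θ` have the same absolute value -/
theorem ZW2_norm {K : Type} [Field K] [NumberField K] {n w₀ : ℕ} {s : ℤ} {θ : 𝓞 K}
    (h : FldW K n w₀ s θ) (σ : K →+* ℂ) : ‖σ (θ : K)‖ ^ n = (w₀ : ℝ) := by
  have e1 : (θ : K) ^ n = -(s : K) * (w₀ : K) := by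
    have := congrArg (fun z : 𝓞 K => (z : K)) h.root
    simpa using this
  have e2 := congrArg (fun z => ‖σ z‖) e1
  simp only [map_pow, map_mul, map_neg, map_intCast, map_natCast, norm_pow, norm_mul, norm_neg,
    Complex.norm_natCast] at e2
  rcases h.hs with hs | hs
  · rw [hs] at e2
    simpa using e2
  · rw [hs] at e2
    simpa using e2

/-- the value of `x` -/
theorem ZW2_xw {K : Type} [Field K] [NumberField K] (θ : 𝓞 K) (w₁ b : ℕ) (σ : K →+* ℂ) :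
    σ (xw θ w₁ b : K) = (b : ℂ) - (w₁ : ℂ) * σ (θ : K) := by
  unfold xw
  simp

/-- the size of `a` -/
theorem ZW2_a {n m w a b : ℕ} {s t : ℤ} (h : SolW n m w s t a b) (hk : w ≤ b ^ n) :
    a ^ m ≤ 2 * b ^ n := by
  have e := h.eq
  have hk' : (w : ℤ) ≤ (b : ℤ) ^ n := by exact_mod_cast hk
  have hc0 : (0 : ℤ) ≤ (w : ℤ) := by positivity
  have hb0 : (0 : ℤ) ≤ (b : ℤ) ^ n := by positivity
  have ha0 : (0 : ℤ) ≤ (a : ℤ) ^ m := by positivity
  have : (a : ℤ) ^ m ≤ 2 * (b : ℤ) ^ n := by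
    rcases h.hs with hs | hs <;> rcases h.ht with ht | ht <;> rw [hs, ht] at e <;> linarith
  exact_mod_cast this

theorem p_ZW2 : S_ZW2 := by
  intro K _ _ n m c R w w₀ w₁ s t θ a b a' b' ρ γ hnm hW hF hS hS' hρ hγ hbH hbH' hk hk' hbb hbb'
    σ τ
  have hn2 := hF.hn
  have hc2 := hW.hc
  have hn0 : n ≠ 0 := by omega
  have hc0 : (0 : ℝ) < c := by
    have : 0 < c := by omega
    exact_mod_cast this
  have hw1 : (0 : ℝ) < w₁ := by
    have := hW.hw₁
    exact_mod_cast this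
  -- the number `T`
  have hR : ∀ σ' : K →+* ℂ, ‖σ' (θ : K)‖ = ‖σ (θ : K)‖ := by
    intro σ'
    apply (pow_left_inj₀ (norm_nonneg _) (norm_nonneg _) hn0).1
    rw [ZW2_norm hF σ', ZW2_norm hF σ]
  obtain ⟨T, hT⟩ : ∃ T : ℝ, T = (w₁ : ℝ) * ‖σ (θ : K)‖ := ⟨_, rfl⟩
  have hT0 : 0 ≤ T := by rw [hT]; positivity
  have hTn : T ^ n = (w : ℝ) := by
    rw [hT, mul_pow, ZW2_norm hF σ, hW.dec]
    push_cast
    ring
  have hTlt : T < c * (w₁ : ℝ) := by
    have h1 : ‖σ (θ : K)‖ < c := by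
      apply lt_of_pow_lt_pow_left₀ n hc0.le
      rw [ZW2_norm hF σ]
      exact_mod_cast hW.small
    rw [hT, mul_comm]
    exact mul_lt_mul_of_pos_right h1 hw1
  have hzn : ∀ σ' : K →+* ℂ, ‖(w₁ : ℂ) * σ' (θ : K)‖ ≤ T := by
    intro σ'
    rw [norm_mul, Complex.norm_natCast, hR σ', hT]
  have h8 : ∀ x : ℕ, 8 ^ n * w ≤ x ^ n → 8 * T ≤ x := by
    intro x hx
    apply le_of_pow_le_pow_left₀ hn0 (by positivity)
    rw [mul_pow, hTn]
    exact_mod_cast hx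
  -- `β`
  obtain ⟨β, hβ⟩ : ∃ β : ℕ, β = min b b' := ⟨_, rfl⟩
  have hβH : Hb n m c ≤ β := by rw [hβ]; exact le_min hbH hbH'
  have hβ0 : 0 < β := lt_of_lt_of_le (SZ2_Hb (by omega) (by omega) (by omega)) hβH
  have hβb : β ≤ b := by omega
  have hβb' : β ≤ b' := by omega
  have hb2 : b ≤ 2 * β := by omega
  have h8β : 8 * T ≤ (β : ℝ) := by
    rcases Nat.le_total b b' with h | h
    · rw [hβ, min_eq_left h]
      exact h8 b hk
    · rw [hβ, min_eq_right h]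
      exact h8 b' hk'
  have hβR : (0 : ℝ) < β := by exact_mod_cast hβ0
  have hm0 : (0 : ℝ) < m := by
    have : 0 < m := by omega
    exact_mod_cast this
  have hd : ‖σ ρ - τ ρ‖ ≤ 24 * T / (m * β) := by
    apply SZ2_diff (by omega : 1 ≤ m) hβR (by exact_mod_cast hβb) (by exact_mod_cast hβb') h8β
      (hzn σ) (hzn σ) (hzn τ) (hzn τ) hbb'
    · rw [hρ σ, ZW2_xw, ZW2_xw]
    · rw [hρ τ, ZW2_xw, ZW2_xw]
  have hck : w ≤ b ^ n := le_trans (Nat.le_mul_of_pos_left _ (by positivity)) hk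
  have ha := ZW2_a hS hck
  have hB : (24 : ℝ) * n * c * a ≤ β := by
    exact_mod_cast SZ2_beta hn2 hnm hc2 ha hb2 hβH
  have e1 : ‖σ (γ : K) - τ (γ : K)‖ = a * ‖σ ρ - τ ρ‖ := by
    rw [hγ, map_mul, map_mul, map_natCast, map_natCast, ← mul_sub, norm_mul, Complex.norm_natCast]
  rw [e1]
  have hdn : (Module.finrank ℚ K : ℝ) ≤ n := by exact_mod_cast hF.deg
  have h3 : (m : ℝ) * Module.finrank ℚ K * (a * ‖σ ρ - τ ρ‖) ≤
      (m : ℝ) * n * (a * (24 * T / (m * β))) := by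
    gcongr
  have h4 : (m : ℝ) * n * (a * (24 * T / (m * β))) = 24 * n * a * T / β := by
    field_simp
  have h5 : 24 * (n : ℝ) * a * T / β ≤ T / c := by
    rw [div_le_div_iff₀ hβR hc0]
    nlinarith [mul_le_mul_of_nonneg_left hB hT0]
  have h6 : T / c < (w₁ : ℝ) := by
    rw [div_lt_iff₀ hc0, mul_comm]
    exact hTlt
  linarith

end Pool.FCR
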