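import Pool.Agent.Work.MP_2738db_S.All
import Pool.Agent.Work.MP_2738db_R.B_DCW
import Pool.Agent.Work.MP_2738db_R.B_FLW
import Pool.Agent.Work.MP_2738db_R.B_OMW
import Pool.Agent.Work.MP_2738db_R.B_CLW
import Pool.Agent.Work.MP_2738db_R.B_SEW
import Pool.Agent.Work.MP_2738db_R.B_COW
import Pool.Agent.Work.MP_2738db_R.B_LTW
import Pool.Agent.Work.MP_2738db_R.B_REW
import Pool.Agent.Work.MP_2738db_R.B_PW1
import Pool.Agent.Work.MP_2738db_R.B_PW2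
import Pool.Agent.Work.MP_2738db_R.B_ZW1
import Pool.Agent.Work.MP_2738db_R.B_ZW2
import Pool.Agent.Work.MP_2738db_R.B_FBW
import Pool.Agent.Work.MP_2738db_R.B_FXF
import Pool.Agent.Work.MP_2738db_R.B_QDW
import Pool.Agent.Work.MP_2738db_R.B_QCW
import Pool.Agent.Work.MP_2738db_R.B_QZW
import Pool.Agent.Work.MP_2738db_R.B_QNW
import Pool.Agent.Work.MP_2738db_R.B_SQW
import Pool.Agent.Work.MP_2738db_R.B_THW
import Pool.Agent.Work.MP_2738db_R.B_HEN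
import Pool.Agent.Work.MP_2738db_R.B_VDM
import Pool.Agent.Work.MP_2738db_R.B_DT1
import Pool.Agent.Work.MP_2738db_R.B_RNK
import Pool.Agent.Work.MP_2738db_R.B_ZER
import Pool.Agent.Work.MP_2738db_R.B_FXW
import Pool.Agent.Work.MP_2738db_R.B_RDW
import Pool.Agent.Work.MP_2738db_R.B_EQW
import Pool.Agent.Work.MP_2738db_R.B_ROR
import Pool.Agent.Work.MP_2738db_R.B_V0C
import Pool.Agent.Work.MP_2738db_R.B_V1C
import Pool.Agent.Work.MP_2738db_R.B_V2C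
import Pool.Agent.Work.MP_2738db_R.B_V3C
import Pool.Agent.Work.MP_2738db_R.B_THR
import Pool.Agent.Work.MP_2738db_R.Final

/-!
# MP_2738db_nt: THEOREM T* from all blocks
-/

set_option autoImplicit false

namespace Pool.FCR

open Pool.FCS

/-- THEOREM S for `w` -/
theorem theoremSw : S_THW := by
  have gDEC := Pool.FCS.p_DEC Pool.FCS.p_PRP Pool.FCS.p_VAL
  have gIDC := Pool.FCS.p_IDC (Pool.FCS.p_IDM Pool.FCS.p_PRP)
  have hCLW := p_CLW gDEC gIDC p_OMW Pool.FCS.p_PIG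
  have hSEW := p_SEW hCLW Pool.FCS.p_UNT
  have hLTW := p_LTW Pool.FCS.p_LTE
  have hREW := p_REW p_COW Pool.FCS.p_GAM
  have hPW1 := p_PW1 p_COW Pool.FCS.p_GAM hLTW
  have hPW2 := p_PW2 hPW1 Pool.FCS.p_TRC
  have hZW1 := p_ZW1 p_COW Pool.FCS.p_GAM
  have hFBW := p_FBW p_COW Pool.FCS.p_GAM hREW hPW2 hZW1 p_ZW2 Pool.FCS.p_ROT
  have hFXF := p_FXF p_DCW (p_FLW Pool.FCS.p_FLD) hSEW p_COW hFBW
  have hSQW := p_SQW p_QDW (p_QCW hLTW) p_QZW p_QNW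
  exact p_THW hFXF hSQW Pool.FCS.p_BND

/-- the determinant method for fixed `w` -/
theorem theoremFXW : S_FXW := p_FXW (p_DT1 p_HEN p_VDM) p_RNK p_ZER

/-- THEOREM T* -/
theorem theoremR : S_THR :=
  p_THR p_ROR (p_V0C p_RDW) (p_V1C p_RDW theoremSw) (p_V2C p_RDW theoremFXW)
    (p_V3C p_RDW (p_EQW Pool.FCS.p_EQC))

end Pool.FCR
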