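import Pool.Agent.Work.MP_2738db_R.Defs

set_option autoImplicit false

/-! # Block HEN: integer Newton iteration -/

namespace Pool.FCR

open NumberField Pool.FCS Polynomial

/-- the Newton iteration -/
noncomputable def HEN_P (g : ℤ[X]) (m : ℕ) (u y₀ : ℤ) : ℕ → ℤ[X]
  | 0 => C y₀
  | k + 1 => HEN_P g m u y₀ k - C u * (HEN_P g m u y₀ k ^ m - g)

theorem HEN_claim (p : ℤ) (m : ℕ) (g : ℤ[X]) (x₀ y₀ u : ℤ) (hu : p ∣ 1 - u * (m * y₀ ^ (m - 1)))
    (h0 : p ∣ y₀ ^ m - g.eval x₀) (k : ℕ) :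
    ∀ x : ℤ, p ∣ x - x₀ → p ^ (k + 1) ∣ (HEN_P g m u y₀ k).eval x ^ m - g.eval x ∧
      p ∣ (HEN_P g m u y₀ k).eval x - y₀ := by
  induction k with
  | zero =>
    intro x hx
    simp only [HEN_P, eval_C, zero_add, pow_one, sub_self, dvd_zero, and_true]
    have h1 : p ∣ g.eval x - g.eval x₀ := hx.trans (sub_dvd_eval_sub x x₀ g)
    have h2 : y₀ ^ m - g.eval x = (y₀ ^ m - g.eval x₀) - (g.eval x - g.eval x₀) := by ring
    rw [h2]
    exact dvd_sub h0 h1
  | succ k ih =>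
    intro x hx
    obtain ⟨h1, h2⟩ := ih x hx
    have hp1 : p ∣ (HEN_P g m u y₀ k).eval x ^ m - g.eval x :=
      (dvd_pow_self p (Nat.succ_ne_zero k)).trans h1
    have hev : (HEN_P g m u y₀ (k + 1)).eval x = (HEN_P g m u y₀ k).eval x +
        (-(u * ((HEN_P g m u y₀ k).eval x ^ m - g.eval x))) := by
      simp only [HEN_P, eval_sub, eval_mul, eval_C, eval_pow]
      ring
    rw [hev]
    obtain ⟨z, hz⟩ := powAddExpansion ((HEN_P g m u y₀ k).eval x)
      (-(u * ((HEN_P g m u y₀ k).eval x ^ m - g.eval x))) m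
    set P : ℤ := (HEN_P g m u y₀ k).eval x with hPdef
    set e : ℤ := P ^ m - g.eval x with he
    constructor
    · have h3 : (P + -(u * e)) ^ m - g.eval x =
          e * ((1 - u * (m * P ^ (m - 1))) + z * u ^ 2 * e) := by
        rw [hz]
        have h4 : P ^ m = e + g.eval x := by rw [he]; ring
        rw [h4]
        ring
      rw [h3, pow_succ p (k + 1)]
      apply mul_dvd_mul h1
      apply dvd_add
      · have h5 : P ^ (m - 1) ≡ y₀ ^ (m - 1) [ZMOD p] := by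
          apply Int.ModEq.pow
          exact (Int.modEq_iff_dvd.2 (by
            have : y₀ - P = -(P - y₀) := by ring
            rw [this]
            exact (dvd_neg).2 h2))
        have h6 : p ∣ y₀ ^ (m - 1) - P ^ (m - 1) := Int.modEq_iff_dvd.1 h5
        have h7 : 1 - u * (m * P ^ (m - 1)) =
            (1 - u * (m * y₀ ^ (m - 1))) + u * m * (y₀ ^ (m - 1) - P ^ (m - 1)) := by ring
        rw [h7]
        exact dvd_add hu (Dvd.dvd.mul_left h6 _)
      · exact Dvd.dvd.mul_left hp1 _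
    · have h3 : P + -(u * e) - y₀ = (P - y₀) - u * e := by ring
      rw [h3]
      exact dvd_sub h2 (Dvd.dvd.mul_left hp1 _)

theorem p_HEN : S_HEN := by
  intro p m N g x₀ y₀ hp hm hpm
  have hpp : Prime (p : ℤ) := Nat.prime_iff_prime_int.1 hp
  have hndm : ¬ (p : ℤ) ∣ (m : ℤ) * y₀ ^ (m - 1) := by
    intro h
    rcases hpp.dvd_or_dvd h with h | h
    · exact hpm (Dvd.dvd.mul_right h _)
    · exact hpm (Dvd.dvd.mul_left (hpp.dvd_of_dvd_pow h) _)
  by_cases h0 : (p : ℤ) ∣ y₀ ^ m - g.eval x₀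
  · have hcop : IsCoprime (p : ℤ) ((m : ℤ) * y₀ ^ (m - 1)) :=
      (hpp.irreducible.coprime_iff_not_dvd).2 hndm
    obtain ⟨a, u, hau⟩ := hcop
    have hu : (p : ℤ) ∣ 1 - u * (m * y₀ ^ (m - 1)) := ⟨a, by linarith⟩
    refine ⟨HEN_P g m u y₀ N, ?_⟩
    intro x y hx hy hxy
    obtain ⟨h1, h2⟩ := HEN_claim p m g x₀ y₀ u hu h0 N x hx
    set P : ℤ := (HEN_P g m u y₀ N).eval x with hPdef
    rw [← hxy] at h1
    have h3 : (∑ i ∈ Finset.range m, P ^ i * y ^ (m - 1 - i)) * (P - y) = P ^ m - y ^ m :=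
      (Commute.all P y).geom_sum₂_mul m
    have h4 : (p : ℤ) ∣ (m : ℤ) * y₀ ^ (m - 1) - ∑ i ∈ Finset.range m, P ^ i * y ^ (m - 1 - i) := by
      have h5 : (m : ℤ) * y₀ ^ (m - 1) - ∑ i ∈ Finset.range m, P ^ i * y ^ (m - 1 - i) =
          ∑ i ∈ Finset.range m, (y₀ ^ (m - 1) - P ^ i * y ^ (m - 1 - i)) := by
        rw [Finset.sum_sub_distrib, Finset.sum_const, Finset.card_range, nsmul_eq_mul]
      rw [h5]
      apply Finset.dvd_sum
      intro i hi
      have hi' := Finset.mem_range.1 hi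
      have e1 : P ≡ y₀ [ZMOD p] := (Int.modEq_iff_dvd.2 h2).symm
      have e2 : y ≡ y₀ [ZMOD p] := (Int.modEq_iff_dvd.2 hy).symm
      have e3 : P ^ i * y ^ (m - 1 - i) ≡ y₀ ^ i * y₀ ^ (m - 1 - i) [ZMOD p] :=
        (e1.pow i).mul (e2.pow _)
      have e4 : y₀ ^ i * y₀ ^ (m - 1 - i) = y₀ ^ (m - 1) := by
        rw [← pow_add]
        congr 1
        omega
      rw [e4] at e3
      exact Int.modEq_iff_dvd.1 e3
    have h6 : ¬ (p : ℤ) ∣ ∑ i ∈ Finset.range m, P ^ i * y ^ (m - 1 - i) := by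
      intro h7
      apply hndm
      have := dvd_add h4 h7
      rwa [sub_add_cancel] at this
    have h7 : IsCoprime ((p : ℤ) ^ N) (∑ i ∈ Finset.range m, P ^ i * y ^ (m - 1 - i)) :=
      ((hpp.irreducible.coprime_iff_not_dvd).2 h6).pow_left
    have h8 : (p : ℤ) ^ N ∣ (∑ i ∈ Finset.range m, P ^ i * y ^ (m - 1 - i)) * (P - y) := by
      rw [h3]
      exact (pow_dvd_pow _ (Nat.le_succ N)).trans h1
    have h9 := h7.dvd_of_dvd_mul_left h8
    have h10 : y - P = -(P - y) := by ring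
    rw [h10]
    exact (dvd_neg).2 h9
  · refine ⟨0, ?_⟩
    intro x y hx hy hxy
    exfalso
    apply h0
    have e2 : y ^ m ≡ y₀ ^ m [ZMOD p] := ((Int.modEq_iff_dvd.2 hy).symm).pow m
    have h1 : (p : ℤ) ∣ g.eval x - g.eval x₀ := hx.trans (sub_dvd_eval_sub x x₀ g)
    have h2 : (p : ℤ) ∣ y₀ ^ m - y ^ m := Int.modEq_iff_dvd.1 e2
    have h3 : y₀ ^ m - g.eval x₀ = (y₀ ^ m - y ^ m) + (g.eval x - g.eval x₀) := by
      rw [hxy]
      ring
    rw [h3]
    exact dvd_add h2 h1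

end Pool.FCR
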