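import Pool.Agent.Work.MP_2738db_R.Defs

set_option autoImplicit false

/-! # MP_2738db_nt, THEOREM T*, block PW2 -/

namespace Pool.FCR

open NumberField Pool.FCS

theorem PW2_coe {K : Type} [Field K] [NumberField K] (θ : 𝓞 K) (w₁ b : ℕ) :
    ((xw θ w₁ b : 𝓞 K) : K) = (b : K) - (w₁ : K) * (θ : K) := by
  unfold xw
  push_cast
  rfl

theorem p_PW2 (h1 : S_PW1) (h2 : S_TRC) : S_PW2 := by
  intro K _ _ n m c R w w₀ w₁ s t θ a b a' b' ρ γ hm hW hF hS hS' hx hγ hd hlt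
  have hc : 1 ≤ w₁ := hW.hw₁
  obtain ⟨z, hz⟩ := h2 K γ m w₁ hm hc
    (h1 K n m c R w w₀ w₁ s t θ a b a' b' ρ γ hm hW hF hS hS' hx hγ hd) hlt
  have ha : (a : K) ≠ 0 := by
    have := hS.ha
    exact_mod_cast (by omega : a ≠ 0)
  have hρ : ρ = (z : K) / (a : K) := by
    rw [eq_div_iff ha, mul_comm, ← hγ, hz]
  obtain ⟨l, hl⟩ : ∃ l : ℚ, l = ((z : ℚ) / (a : ℚ)) ^ m := ⟨_, rfl⟩
  have hl' : ρ ^ m = (l : K) := by
    rw [hρ, hl]
    push_cast
    rfl
  rw [hl', PW2_coe, PW2_coe] at hx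
  have hcK : (w₁ : K) ≠ 0 := by
    exact_mod_cast (by omega : w₁ ≠ 0)
  by_cases hl1 : l = 1
  · rw [hl1] at hx
    push_cast at hx
    have h3 : (b' : K) = (b : K) := by linear_combination hx
    exact_mod_cast h3.symm
  · exfalso
    apply hF.irr ((l * b - b') / ((l - 1) * (w₁ : ℚ)))
    have hl2 : (l : K) - 1 ≠ 0 := by
      intro h
      apply hl1
      have h3 : (l : K) = ((1 : ℚ) : K) := by
        push_cast
        linear_combination h
      exact_mod_cast h3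
    push_cast
    rw [eq_div_iff (mul_ne_zero hl2 hcK)]
    linear_combination hx

end Pool.FCR
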