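import Pool.Agent.Work.MP_2738db_R.Defs

set_option autoImplicit false

/-! # THEOREM T*, block V2C: both exponents large -/

namespace Pool.FCR

open NumberField Pool.FCS

theorem p_V2C (h1 : S_RDW) (h2 : S_FXW) : S_V2C := by
  classical
  obtain ⟨C₁, hC₁, hRD⟩ := h1
  obtain ⟨C₂, hC₂, hFX⟩ := h2
  set C : ℝ := 100 + C₁ + 40 * C₂ with hCdef
  have hC100 : 100 ≤ C := by rw [hCdef]; linarith
  have hCC₁ : C₁ ≤ C := by rw [hCdef]; linarith
  have hCC₂ : 30 * C₂ + 6 ≤ C := by rw [hCdef]; linarith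
  have hCC₃ : C₁ + C₂ + 1 ≤ C := by rw [hCdef]; linarith
  refine ⟨C, by linarith, ?_⟩
  intro X K hX hK hCK
  have hX1 : 1 < X := by linarith
  have hX0 : 0 < X := by linarith
  have hX3 : 3 ≤ X := by linarith
  have hK0 : 0 < K := by linarith
  set L := Real.log X with hLdef
  have hL3 : 3 ≤ L := by
    rw [hLdef, Real.le_log_iff_exp_le hX0]
    have h3 : Real.exp 3 = Real.exp 1 ^ 3 := by
      rw [← Real.exp_nat_mul]
      norm_num
    rw [h3]
    have h4 := Real.exp_one_lt_d9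
    have h5 : Real.exp 1 ^ 3 ≤ (2.7182818286 : ℝ) ^ 3 :=
      pow_le_pow_left₀ (Real.exp_pos _).le h4.le 3
    norm_num at h5 ⊢
    linarith
  have hL0 : 0 < L := by linarith
  have hlogL : 1 ≤ Real.log L := by
    rw [Real.le_log_iff_exp_le hL0]
    have h4 := Real.exp_one_lt_d9
    linarith
  have hKL0 : 0 < K * Real.log L := by positivity
  obtain ⟨hRfin, hRcard, hRdiv⟩ := hRD X K (hCC₁.trans hX) hK (by
    have : C₁ * K * Real.log L ≤ C * K * Real.log L := by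
      have := mul_le_mul_of_nonneg_right hCC₁ hKL0.le
      calc C₁ * K * Real.log L = C₁ * (K * Real.log L) := by ring
        _ ≤ C * (K * Real.log L) := this
        _ = _ := by ring
    exact this.trans hCK)
  set M := K ^ ((2 : ℝ) / 3) with hM
  have hM0 : 0 < M := Real.rpow_pos_of_pos hK0 _
  have hMK : M ≤ K := by
    have := Real.rpow_le_rpow_of_exponent_le (x := K) (by linarith) (by norm_num : (2 : ℝ) / 3 ≤ 1)
    rwa [Real.rpow_one] at this
  set κ := K ^ ((1 : ℝ) / 3) with hκ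
  have hκ0 : 0 < κ := Real.rpow_pos_of_pos hK0 _
  have hκM : κ * κ = M := by
    rw [hκ, hM, ← Real.rpow_add hK0]
    norm_num
  have hLM0 : 0 ≤ L / M := by positivity
  have hLK : C * Real.log L ≤ L / M := by
    have h3 : L / K ≤ L / M := by gcongr
    have h4 : C * Real.log L ≤ L / K := by
      rw [le_div_iff₀ hK0]
      calc C * Real.log L * K = C * K * Real.log L := by ring
        _ ≤ L := hCK
    exact h4.trans h3
  set l := Nat.log 2 ⌊X⌋₊ with hl
  have hle : ∀ (e j : ℕ), 2 ≤ e → (e : ℝ) ^ j ≤ X → j ≤ l := by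
    intro e j he hj
    have h3 : e ^ j ≤ ⌊X⌋₊ := Nat.le_floor (by exact_mod_cast hj)
    have h4 : 2 ^ j ≤ ⌊X⌋₊ := (Nat.pow_le_pow_left he j).trans h3
    exact Nat.le_log_of_pow_le (by norm_num) h4
  have hl1 : (l : ℝ) + 1 ≤ 3 * L := by
    have h3 : 2 ^ l ≤ ⌊X⌋₊ := Nat.pow_log_le_self 2 (by
      have : 1 ≤ ⌊X⌋₊ := Nat.le_floor (by exact_mod_cast hX1.le)
      omega)
    have h4 : ((2 : ℝ) ^ l) ≤ X := by
      have h5 : ((2 ^ l : ℕ) : ℝ) ≤ (⌊X⌋₊ : ℝ) := Nat.cast_le.2 h3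
      push_cast at h5
      exact h5.trans (Nat.floor_le hX0.le)
    have h5 := Real.log_le_log (by positivity) h4
    rw [Real.log_pow] at h5
    have h6 := Real.log_two_gt_d9
    have h7 : (0 : ℝ) ≤ (l : ℝ) := Nat.cast_nonneg _
    nlinarith
  have hlogl : Real.log ((l : ℝ) + 1) ≤ 3 * Real.log L := by
    have h3 : Real.log ((l : ℝ) + 1) ≤ Real.log (3 * L) :=
      Real.log_le_log (by positivity) hl1
    rw [Real.log_mul (by norm_num) hL0.ne'] at h3
    have h4 : Real.log 3 ≤ 2 := by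
      have := Real.log_le_sub_one_of_pos (show (0 : ℝ) < 3 by norm_num)
      linarith
    linarith
  have e2 : (l : ℝ) + 1 ≤ Real.exp (3 * Real.log L) := by
    calc (l : ℝ) + 1 = Real.exp (Real.log ((l : ℝ) + 1)) := (Real.exp_log (by positivity)).symm
      _ ≤ _ := Real.exp_le_exp.2 hlogl
  have e22 : ((l : ℝ) + 1) * ((l : ℝ) + 1) ≤ Real.exp (6 * Real.log L) := by
    calc ((l : ℝ) + 1) * ((l : ℝ) + 1) ≤ Real.exp (3 * Real.log L) * Real.exp (3 * Real.log L) := by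
          gcongr
      _ = Real.exp (6 * Real.log L) := by rw [← Real.exp_add]; congr 1; ring
  -- the index set
  let Sg : Finset ℤ := {1, -1}
  have hSg : ∀ s : ℤ, (s = 1 ∨ s = -1) → s ∈ Sg := fun s hs => by
    simp only [Sg, Finset.mem_insert, Finset.mem_singleton]
    exact hs
  have hSgc : Sg.card ≤ 2 := Finset.card_le_two
  let T : Finset (Fin 6 × ℕ × (ℕ × ℕ) × (ℤ × ℤ)) :=
    (Finset.univ ×ˢ (hRfin.toFinset ×ˢ ((Finset.Icc 2 l ×ˢ Finset.Icc 2 l) ×ˢ (Sg ×ˢ Sg)))).filter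
      (fun t => κ ≤ (t.2.2.1.1 : ℝ) ∧ κ ≤ (t.2.2.1.2 : ℝ))
  have hfin : ∀ (n m w : ℕ) (s t : ℤ), 2 ≤ n → 2 ≤ m → 1 ≤ w →
      {p : ℕ × ℕ | SolW n m w s t p.1 p.2 ∧ (p.1 : ℝ) ^ m ≤ X ∧ (p.2 : ℝ) ^ n ≤ X}.Finite :=
    fun n m w s t hn hm hw => (hFX n m w s t X hn hm hw hX3).1
  let F : Fin 6 × ℕ × (ℕ × ℕ) × (ℤ × ℤ) → Finset (ℕ × ℕ × ℕ) := fun t =>
    if h : 2 ≤ t.2.2.1.1 ∧ 2 ≤ t.2.2.1.2 ∧ 1 ≤ t.2.1 then
      (hfin t.2.2.1.1 t.2.2.1.2 t.2.1 t.2.2.2.1 t.2.2.2.2 h.1 h.2.1 h.2.2).toFinset.image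
        (fun p => perm6 t.1 (p.1 ^ t.2.2.1.2, p.2 ^ t.2.2.1.1, t.2.1))
    else ∅
  have hsub : V2 X K ⊆ ((T.biUnion F : Finset (ℕ × ℕ × ℕ)) : Set (ℕ × ℕ × ℕ)) := by
    rintro τ ⟨i, a, b, w, m, n, s, t, hw, ha, hb, hn, hm, hκn, hκm, hS, haX, hbX, rfl⟩
    rw [Finset.mem_coe, Finset.mem_biUnion]
    refine ⟨(i, w, (n, m), (s, t)), ?_, ?_⟩
    · simp only [T, Finset.mem_filter, Finset.mem_product, Finset.mem_univ, Finset.mem_Icc,
        true_and, Set.Finite.mem_toFinset, Set.mem_ofPred_eq]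
      exact ⟨⟨hw, ⟨⟨hn, hle b n hb hbX⟩, ⟨hm, hle a m ha haX⟩⟩, hSg s hS.hs, hSg t hS.ht⟩,
        hκn, hκm⟩
    · simp only [F]
      rw [dif_pos ⟨hn, hm, hw.1⟩, Finset.mem_image]
      exact ⟨(a, b), (Set.Finite.mem_toFinset _).2 ⟨hS, haX, hbX⟩, rfl⟩
  have hfinW : (V2 X K).Finite := (Finset.finite_toSet _).subset hsub
  refine ⟨hfinW, ?_⟩
  have hcardF : ∀ t ∈ T, ((F t).card : ℝ) ≤
      C₂ * Real.exp (6 * Real.log L * C₂) * Real.exp (C₂ * (L / M)) := by
    rintro ⟨i, w, ⟨n, m⟩, ⟨s, t⟩⟩ ht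
    simp only [T, Finset.mem_filter, Finset.mem_product, Finset.mem_univ, Finset.mem_Icc,
        true_and, Set.Finite.mem_toFinset, Set.mem_ofPred_eq] at ht
    obtain ⟨⟨hw, ⟨⟨hn, hnl⟩, ⟨hm, hml⟩⟩, -, -⟩, hκn, hκm⟩ := ht
    have h3 := (hFX n m w s t X hn hm hw.1 hX3).2
    simp only [F]
    rw [dif_pos ⟨hn, hm, hw.1⟩]
    have h4 : ((hfin n m w s t hn hm hw.1).toFinset.image
        (fun p => perm6 i (p.1 ^ m, p.2 ^ n, w))).card ≤
        {p : ℕ × ℕ | SolW n m w s t p.1 p.2 ∧ (p.1 : ℝ) ^ m ≤ X ∧ (p.2 : ℝ) ^ n ≤ X}.ncard := by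
      refine Finset.card_image_le.trans ?_
      rw [← Set.ncard_eq_toFinset_card _ (hfin n m w s t hn hm hw.1)]
    refine (Nat.cast_le.2 h4).trans (h3.trans ?_)
    have hm0 : (0 : ℝ) < m := by exact_mod_cast (by omega : 0 < m)
    have hn0 : (0 : ℝ) < n := by exact_mod_cast (by omega : 0 < n)
    have hml' : (m : ℝ) ≤ (l : ℝ) + 1 := by
      have : (m : ℝ) ≤ (l : ℝ) := by exact_mod_cast hml
      linarith
    have hnl' : (n : ℝ) ≤ (l : ℝ) + 1 := by
      have : (n : ℝ) ≤ (l : ℝ) := by exact_mod_cast hnl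
      linarith
    have h5 : (m : ℝ) * n ≤ Real.exp (6 * Real.log L) :=
      (mul_le_mul hml' hnl' hn0.le (by positivity)).trans e22
    have h6 : ((m : ℝ) * n) ^ C₂ ≤ Real.exp (6 * Real.log L * C₂) := by
      rw [Real.exp_mul]
      exact Real.rpow_le_rpow (by positivity) h5 hC₂.le
    have h7 : M ≤ (m : ℝ) * n := by
      rw [← hκM]
      exact mul_le_mul hκm hκn hκ0.le hm0.le
    have h8 : X ^ (C₂ / ((m : ℝ) * n)) ≤ Real.exp (C₂ * (L / M)) := by
      rw [Real.rpow_def_of_pos hX0, ← hLdef]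
      apply Real.exp_le_exp.2
      have h9 : C₂ / ((m : ℝ) * n) ≤ C₂ / M := by gcongr
      calc L * (C₂ / ((m : ℝ) * n)) ≤ L * (C₂ / M) := mul_le_mul_of_nonneg_left h9 hL0.le
        _ = C₂ * (L / M) := by ring
    gcongr
  have hcardT : (T.card : ℝ) ≤
      24 * (Real.exp (C₁ / M * L) * (((l : ℝ) + 1) * ((l : ℝ) + 1))) := by
    have h3 : T.card ≤ 6 * ({w : ℕ | RW X K w}.ncard * (((l + 1) * (l + 1)) * (2 * 2))) := by
      refine (Finset.card_filter_le _ _).trans ?_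
      rw [Finset.card_product, Finset.card_product, Finset.card_product, Finset.card_product,
        Finset.card_product, Finset.card_univ, Fintype.card_fin, Nat.card_Icc,
        ← Set.ncard_eq_toFinset_card _ hRfin]
      exact Nat.mul_le_mul le_rfl (Nat.mul_le_mul le_rfl (Nat.mul_le_mul
        (Nat.mul_le_mul (by omega) (by omega)) (Nat.mul_le_mul hSgc hSgc)))
    calc (T.card : ℝ) ≤
          ((6 * ({w : ℕ | RW X K w}.ncard * (((l + 1) * (l + 1)) * (2 * 2))) : ℕ) : ℝ) := by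
          exact_mod_cast h3
      _ = 24 * (({w : ℕ | RW X K w}.ncard : ℝ) * (((l : ℝ) + 1) * ((l : ℝ) + 1))) := by
          push_cast; ring
      _ ≤ _ := by gcongr
  have hcardW : ((V2 X K).ncard : ℝ) ≤
      (24 * (Real.exp (C₁ / M * L) * (((l : ℝ) + 1) * ((l : ℝ) + 1)))) *
        (C₂ * Real.exp (6 * Real.log L * C₂) * Real.exp (C₂ * (L / M))) := by
    have h3 : (V2 X K).ncard ≤ (T.biUnion F).card := by
      rw [← Set.ncard_coe_finset]
      exact Set.ncard_le_ncard hsub (Finset.finite_toSet _)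
    have h4 : (T.biUnion F).card ≤ ∑ t ∈ T, (F t).card := Finset.card_biUnion_le
    calc ((V2 X K).ncard : ℝ) ≤ ((∑ t ∈ T, (F t).card : ℕ) : ℝ) := by exact_mod_cast h3.trans h4
      _ = ∑ t ∈ T, ((F t).card : ℝ) := by push_cast; rfl
      _ ≤ ∑ _t ∈ T, C₂ * Real.exp (6 * Real.log L * C₂) * Real.exp (C₂ * (L / M)) :=
          Finset.sum_le_sum hcardF
      _ = (T.card : ℝ) * (C₂ * Real.exp (6 * Real.log L * C₂) * Real.exp (C₂ * (L / M))) := by
          rw [Finset.sum_const, nsmul_eq_mul]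
      _ ≤ _ := mul_le_mul_of_nonneg_right hcardT (by positivity)
  refine hcardW.trans ?_
  -- everything in exponentials
  have hlog2K : 1 ≤ Real.log (2 * K) := by
    have h3 : Real.log 4 ≤ Real.log (2 * K) := Real.log_le_log (by norm_num) (by linarith)
    have h4 : Real.log 4 = 2 * Real.log 2 := by
      have : (4 : ℝ) = 2 ^ (2 : ℕ) := by norm_num
      rw [this, Real.log_pow]
      norm_num
    have h5 := Real.log_two_gt_d9
    linarith
  have e3 : 24 * C₂ ≤ Real.exp (24 * C₂) := by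
    have := Real.add_one_le_exp (24 * C₂)
    linarith
  calc 24 * (Real.exp (C₁ / M * L) * (((l : ℝ) + 1) * ((l : ℝ) + 1))) *
        (C₂ * Real.exp (6 * Real.log L * C₂) * Real.exp (C₂ * (L / M)))
      = (24 * C₂) * (Real.exp (C₁ / M * L) * (((l : ℝ) + 1) * ((l : ℝ) + 1))) *
        (Real.exp (6 * Real.log L * C₂) * Real.exp (C₂ * (L / M))) := by ring
    _ ≤ Real.exp (24 * C₂) * (Real.exp (C₁ / M * L) * Real.exp (6 * Real.log L)) *
        (Real.exp (6 * Real.log L * C₂) * Real.exp (C₂ * (L / M))) := by gcongr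
    _ = Real.exp (24 * C₂ + (C₁ / M * L + 6 * Real.log L) +
        (6 * Real.log L * C₂ + C₂ * (L / M))) := by
        rw [Real.exp_add, Real.exp_add, Real.exp_add, Real.exp_add]
    _ ≤ Real.exp (C * Real.log (2 * K) / M * L) := by
        apply Real.exp_le_exp.2
        have h3 : L / M ≤ L / M * Real.log (2 * K) := le_mul_of_one_le_right hLM0 hlog2K
        have h4 : C * Real.log (2 * K) / M * L = C * (L / M * Real.log (2 * K)) := by
          field_simp
        have h5 : C * (L / M) ≤ C * (L / M * Real.log (2 * K)) :=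
          mul_le_mul_of_nonneg_left h3 (by linarith)
        have h6 : C₁ / M * L = C₁ * (L / M) := by ring
        have h7 : 24 * C₂ ≤ 24 * C₂ * Real.log L := le_mul_of_one_le_right (by positivity) hlogL
        have h8 : (30 * C₂ + 6) * Real.log L ≤ C * Real.log L :=
          mul_le_mul_of_nonneg_right hCC₂ (by linarith)
        have h9 : (C₁ + C₂ + 1) * (L / M) ≤ C * (L / M) :=
          mul_le_mul_of_nonneg_right hCC₃ hLM0
        rw [h4, h6]
        linarith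

end Pool.FCR
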