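import Pool.Agent.Work.MP_2738db_S.Defs

/-!
# MP_2738db_nt (Fermat-Catalan), THEOREM T* (small radicals): definitions and block statements

The third term is an arbitrary `w = w₀ w₁ ^ n` with small radical; the modulus is `w₁`.
`Adm`, `Ncls`, `Hb`, `rt`, `E2`, `perm6` and the statements `S_GAM`, `S_ROT`, `S_TRC`, `S_LTE`, `S_PIG`,
`S_DEC`, `S_IDC`, `S_UNT`, `S_BND`, `S_FLD` are those of `Pool.FCS` (all proved).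
-/

set_option autoImplicit false

namespace Pool.FCR

open NumberField Pool.FCS

/-- the radical -/
def rad (w : ℕ) : ℕ := ∏ p ∈ w.primeFactors, p

/-- `w = w₀ w₁ ^ n`, `c ≥ 2` bounds the radical `R` -/
structure Wd (n c R w w₀ w₁ : ℕ) : Prop where
  hc : 2 ≤ c
  hR : 1 ≤ R
  hRc : R ≤ c
  hw₀ : 1 ≤ w₀
  hw₁ : 1 ≤ w₁
  dec : w = w₀ * w₁ ^ n
  small : w₀ < c ^ n
  prim : ∀ p : ℕ, p.Prime → p ∣ w₁ → p ∣ R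
  back : ∀ p : ℕ, p.Prime → p ∣ R → p ∣ w
  rad₀ : rad w₀ ≤ c

/-- The number field `K = ℚ(θ)`, `θ ^ n = - s w₀`, `θ` not rational. -/
structure FldW (K : Type) [Field K] [NumberField K] (n w₀ : ℕ) (s : ℤ) (θ : 𝓞 K) : Prop where
  hn : 2 ≤ n
  hw : 1 ≤ w₀
  hs : s = 1 ∨ s = -1
  root : θ ^ n = -(s : 𝓞 K) * (w₀ : 𝓞 K)
  irr : ∀ z : ℚ, (θ : K) ≠ (z : K)
  gen : IntermediateField.adjoin ℚ {(θ : K)} = ⊤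
  deg : Module.finrank ℚ K ≤ n

/-- A solution `(a, b)` of `t a ^ m = b ^ n + s w`. -/
structure SolW (n m w : ℕ) (s t : ℤ) (a b : ℕ) : Prop where
  hs : s = 1 ∨ s = -1
  ht : t = 1 ∨ t = -1
  ha : 1 ≤ a
  hb : 1 ≤ b
  hab : Nat.Coprime a b
  haw : Nat.Coprime a w
  eq : t * (a : ℤ) ^ m = (b : ℤ) ^ n + s * (w : ℤ)

section
variable {K : Type} [Field K] [NumberField K]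

/-- `x = b - w₁ θ` -/
noncomputable def xw (θ : 𝓞 K) (w₁ b : ℕ) : 𝓞 K := (b : 𝓞 K) - (w₁ : 𝓞 K) * θ

/-- the cofactor `y = ∑ b ^ i (w₁ θ) ^ (n - 1 - i)` -/
noncomputable def yw (θ : 𝓞 K) (w₁ b n : ℕ) : 𝓞 K :=
  ∑ i ∈ Finset.range n, (b : 𝓞 K) ^ i * ((w₁ : 𝓞 K) * θ) ^ (n - 1 - i)

end

/-! ## part 1: THEOREM S for `w` -/

def S_DCW : Prop :=
  ∀ (n c w : ℕ), 2 ≤ n → 2 ≤ c → 1 ≤ w → rad w ≤ c → ∃ w₀ w₁ : ℕ, Wd n c (rad w) w w₀ w₁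

def S_FLW : Prop :=
  ∀ (n w₀ : ℕ) (s : ℤ), 2 ≤ n → 1 ≤ w₀ → (s = 1 ∨ s = -1) →
    (n = 2 → s = -1 → ¬ IsSquare w₀) →
    ∃ (K : Type) (_ : Field K) (_ : NumberField K) (θ : 𝓞 K), FldW K n w₀ s θ

def S_OMW : Prop :=
  ∀ (K : Type) [Field K] [NumberField K] (c n w₀ : ℕ) (s : ℤ) (θ : 𝓞 K), FldW K n w₀ s θ →
    2 ≤ c → rad w₀ ≤ c →
    ∃ ω : Fin (Module.finrank ℚ K) → 𝓞 K, LinearIndependent ℤ ω ∧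
      ∀ i (σ : K →+* ℂ), ‖σ (ω i : K)‖ ≤ c

def S_CLW : Prop :=
  ∀ (K : Type) [Field K] [NumberField K] (c n w₀ : ℕ) (s : ℤ) (θ : 𝓞 K) (m : ℕ),
    FldW K n w₀ s θ → 2 ≤ c → rad w₀ ≤ c → 1 ≤ m →
    ∃ L : Finset (Ideal (𝓞 K) × Ideal (𝓞 K)),
      L.card ≤ m ^ Nat.log 2 (n ^ n) * ((n * c) ^ n * n ^ Nat.log 2 ((n * c) ^ n)) ∧
      ∀ x : 𝓞 K, Adm K n m x → ∃ p ∈ L, p.2 ≠ ⊥ ∧ ∃ α : 𝓞 K, α ≠ 0 ∧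
        Ideal.span {x} * p.2 ^ m = p.1 * Ideal.span {α} ^ m

def S_SEW : Prop :=
  ∀ (K : Type) [Field K] [NumberField K] (c n w₀ : ℕ) (s : ℤ) (θ : 𝓞 K) (m : ℕ),
    FldW K n w₀ s θ → 2 ≤ c → rad w₀ ≤ c → 1 ≤ m →
    ∃ f : 𝓞 K → ℕ, (∀ x, Adm K n m x → f x < Ncls n m c) ∧
      ∀ x y, Adm K n m x → Adm K n m y → f x = f y → ∃ ρ : K, (y : K) = (x : K) * ρ ^ m

def S_COW : Prop :=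
  ∀ (K : Type) [Field K] [NumberField K] (n m c R w w₀ w₁ : ℕ) (s t : ℤ) (θ : 𝓞 K)
    (a b : ℕ), Wd n c R w w₀ w₁ → FldW K n w₀ s θ → SolW n m w s t a b →
    xw θ w₁ b * yw θ w₁ b n = (t : 𝓞 K) * (a : 𝓞 K) ^ m ∧
    xw θ w₁ b ∣ yw θ w₁ b n - (n : 𝓞 K) * (b : 𝓞 K) ^ (n - 1) ∧
    (w₁ : 𝓞 K) ∣ yw θ w₁ b n - (b : 𝓞 K) ^ (n - 1) ∧
    (w₁ : 𝓞 K) ∣ xw θ w₁ b - (b : 𝓞 K) ∧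
    xw θ w₁ b ≠ 0 ∧ yw θ w₁ b n ≠ 0 ∧
    IsCoprime (xw θ w₁ b) (R : 𝓞 K) ∧ IsCoprime (yw θ w₁ b n) (R : 𝓞 K) ∧
    Adm K n m (xw θ w₁ b)

def S_LTW : Prop :=
  ∀ (A : Type) [CommRing A] [IsDomain A] [CharZero A] (R w₁ m : ℕ) (y d : A), 1 ≤ m → 1 ≤ R →
    1 ≤ w₁ → (∀ p : ℕ, p.Prime → p ∣ w₁ → p ∣ R) → IsCoprime y (R : A) →
    (R : A) ^ 2 ∣ d → (w₁ : A) ∣ (y + d) ^ m - y ^ m → (w₁ : A) ∣ (m : A) * d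

def S_REW : Prop :=
  ∀ (K : Type) [Field K] [NumberField K] (n m c R w w₀ w₁ : ℕ) (s t : ℤ) (θ : 𝓞 K)
    (a₀ b₀ a b a' b' : ℕ) (ρ ρ' : K) (g g' : 𝓞 K), 1 ≤ m → Wd n c R w w₀ w₁ →
    FldW K n w₀ s θ →
    SolW n m w s t a₀ b₀ → SolW n m w s t a b → SolW n m w s t a' b' →
    (xw θ w₁ b : K) = (xw θ w₁ b₀ : K) * ρ ^ m →
    (xw θ w₁ b' : K) = (xw θ w₁ b₀ : K) * ρ' ^ m →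
    (g : K) = (a₀ : K) * ρ → (g' : K) = (a₀ : K) * ρ' → (R : 𝓞 K) ^ 2 ∣ g - g' →
    ρ ≠ 0 ∧ (xw θ w₁ b' : K) = (xw θ w₁ b : K) * (ρ' / ρ) ^ m ∧
    ∃ γ : 𝓞 K, (γ : K) = (a : K) * (ρ' / ρ) ∧ (R : 𝓞 K) ^ 2 ∣ γ - (a : 𝓞 K)

def S_PW1 : Prop :=
  ∀ (K : Type) [Field K] [NumberField K] (n m c R w w₀ w₁ : ℕ) (s t : ℤ) (θ : 𝓞 K)
    (a b a' b' : ℕ) (ρ : K) (γ : 𝓞 K), 1 ≤ m → Wd n c R w w₀ w₁ → FldW K n w₀ s θ →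
    SolW n m w s t a b → SolW n m w s t a' b' →
    (xw θ w₁ b' : K) = (xw θ w₁ b : K) * ρ ^ m →
    (γ : K) = (a : K) * ρ → (R : 𝓞 K) ^ 2 ∣ γ - (a : 𝓞 K) →
    ∀ σ τ : K →+* ℂ, ∃ z : ℂ, IsIntegral ℤ z ∧
      (m : ℂ) * (σ (γ : K) - τ (γ : K)) = (w₁ : ℂ) * z

def S_PW2 : Prop :=
  ∀ (K : Type) [Field K] [NumberField K] (n m c R w w₀ w₁ : ℕ) (s t : ℤ) (θ : 𝓞 K)
    (a b a' b' : ℕ) (ρ : K) (γ : 𝓞 K), 1 ≤ m → Wd n c R w w₀ w₁ → FldW K n w₀ s θ →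
    SolW n m w s t a b → SolW n m w s t a' b' →
    (xw θ w₁ b' : K) = (xw θ w₁ b : K) * ρ ^ m →
    (γ : K) = (a : K) * ρ → (R : 𝓞 K) ^ 2 ∣ γ - (a : 𝓞 K) →
    (∀ σ τ : K →+* ℂ, (m : ℝ) * Module.finrank ℚ K * ‖σ (γ : K) - τ (γ : K)‖ < (w₁ : ℝ)) →
    b = b'

def S_ZW1 : Prop :=
  ∀ (K : Type) [Field K] [NumberField K] (n m c R w w₀ w₁ : ℕ) (s t : ℤ) (θ : 𝓞 K)
    (a b a' b' : ℕ) (ρ : K) (γ : 𝓞 K), n < m → Wd n c R w w₀ w₁ → FldW K n w₀ s θ →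
    SolW n m w s t a b → SolW n m w s t a' b' →
    (xw θ w₁ b' : K) = (xw θ w₁ b : K) * ρ ^ m →
    (γ : K) = (a : K) * ρ → Hb n m c ≤ b → b ^ n < 8 ^ n * w → b' ^ n < 8 ^ n * w →
    ∀ σ τ : K →+* ℂ, (m : ℝ) * Module.finrank ℚ K * ‖σ (γ : K) - τ (γ : K)‖ < (w₁ : ℝ)

def S_ZW2 : Prop :=
  ∀ (K : Type) [Field K] [NumberField K] (n m c R w w₀ w₁ : ℕ) (s t : ℤ) (θ : 𝓞 K)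
    (a b a' b' : ℕ) (ρ : K) (γ : 𝓞 K), n < m → Wd n c R w w₀ w₁ → FldW K n w₀ s θ →
    SolW n m w s t a b → SolW n m w s t a' b' →
    (∀ σ : K →+* ℂ, σ ρ = rt m (σ (xw θ w₁ b' : K)) / rt m (σ (xw θ w₁ b : K))) →
    (γ : K) = (a : K) * ρ → Hb n m c ≤ b → Hb n m c ≤ b' →
    8 ^ n * w ≤ b ^ n → 8 ^ n * w ≤ b' ^ n → b ≤ 2 * b' → b' ≤ 2 * b →
    ∀ σ τ : K →+* ℂ, (m : ℝ) * Module.finrank ℚ K * ‖σ (γ : K) - τ (γ : K)‖ < (w₁ : ℝ)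

def S_FBW : Prop :=
  ∀ (K : Type) [Field K] [NumberField K] (n m c R w w₀ w₁ : ℕ) (s t : ℤ) (θ : 𝓞 K)
    (a₀ b₀ Z : ℕ), n < m → Wd n c R w w₀ w₁ → FldW K n w₀ s θ → SolW n m w s t a₀ b₀ →
    {p : ℕ × ℕ | SolW n m w s t p.1 p.2 ∧ Hb n m c ≤ p.2 ∧ p.2 ≤ Z ∧
      ∃ ρ : K, (xw θ w₁ p.2 : K) = (xw θ w₁ b₀ : K) * ρ ^ m}.Finite ∧
    {p : ℕ × ℕ | SolW n m w s t p.1 p.2 ∧ Hb n m c ≤ p.2 ∧ p.2 ≤ Z ∧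
      ∃ ρ : K, (xw θ w₁ p.2 : K) = (xw θ w₁ b₀ : K) * ρ ^ m}.ncard ≤
      c ^ (2 * n) * m ^ n * (Nat.log 2 Z + 2)

def S_FXF : Prop :=
  ∀ (n m c w : ℕ) (s t : ℤ) (Z : ℕ), 2 ≤ c → 2 ≤ n → n < m → 1 ≤ w → rad w ≤ c →
    (s = 1 ∨ s = -1) → (n = 2 → s = -1 → ¬ IsSquare w) →
    {p : ℕ × ℕ | SolW n m w s t p.1 p.2 ∧ p.2 ≤ Z}.Finite ∧
    {p : ℕ × ℕ | SolW n m w s t p.1 p.2 ∧ p.2 ≤ Z}.ncard ≤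
      Hb n m c + Ncls n m c * (c ^ (2 * n) * m ^ n * (Nat.log 2 Z + 2))

/-- `(a, b)` is decomposed by `(e₁, e₂, u, v)`, case `w = y ^ 2` -/
structure DcpW (m w y : ℕ) (t : ℤ) (b e₁ e₂ u v : ℕ) : Prop where
  e2 : E2 m e₁ e₂
  even : Even w → e₁ = 1 ∧ e₂ = 1
  hu : 1 ≤ u
  hv : 1 ≤ v
  uw : Nat.Coprime u w
  vw : Nat.Coprime v w
  minus : (b : ℤ) - y = t * e₁ * (u : ℤ) ^ m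
  plus : (b : ℤ) + y = e₂ * (v : ℤ) ^ m

def S_QDW : Prop :=
  ∀ (m w y : ℕ) (t : ℤ) (a b : ℕ), 3 ≤ m → 1 ≤ w → y ^ 2 = w →
    SolW 2 m w (-1) t a b → ∃ e₁ e₂ u v : ℕ, DcpW m w y t b e₁ e₂ u v

def S_QCW : Prop :=
  ∀ (m R w y : ℕ) (t : ℤ) (b b' e₁ e₂ u v u' v' : ℕ), 3 ≤ m → 1 ≤ R → 1 ≤ w → y ^ 2 = w →
    (∀ p : ℕ, p.Prime → (p ∣ w ↔ p ∣ R)) →
    (t = 1 ∨ t = -1) → DcpW m w y t b e₁ e₂ u v → DcpW m w y t b' e₁ e₂ u' v' →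
    (R : ℤ) ^ 2 ∣ (v : ℤ) * u' - u * v' → (y : ℤ) ∣ (m : ℤ) * ((v : ℤ) * u' - u * v')

def S_QZW : Prop :=
  ∀ (m c w y : ℕ) (t : ℤ) (b b' e₁ e₂ u v u' v' : ℕ), 3 ≤ m → 2 ≤ c → 1 ≤ w → y ^ 2 = w →
    (t = 1 ∨ t = -1) → DcpW m w y t b e₁ e₂ u v → DcpW m w y t b' e₁ e₂ u' v' →
    Hb 2 m c ≤ b → Hb 2 m c ≤ b' →
    ((b < 8 * y ∧ b' < 8 * y) ∨ (8 * y ≤ b ∧ 8 * y ≤ b' ∧ b ≤ 2 * b' ∧ b' ≤ 2 * b)) →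
    (m : ℤ) * |(v : ℤ) * u' - u * v'| < (y : ℤ)

def S_QNW : Prop :=
  ∀ (m w y : ℕ) (t : ℤ) (b b' e₁ e₂ u v u' v' : ℕ), 1 ≤ y → (t = 1 ∨ t = -1) → 3 ≤ m →
    DcpW m w y t b e₁ e₂ u v → DcpW m w y t b' e₁ e₂ u' v' → (v : ℤ) * u' = u * v' → b = b'

def S_SQW : Prop :=
  ∀ (c R m w y : ℕ) (t : ℤ) (Z : ℕ), 2 ≤ c → 1 ≤ R → R ≤ c → 3 ≤ m → 1 ≤ w → y ^ 2 = w →
    (∀ p : ℕ, p.Prime → (p ∣ w ↔ p ∣ R)) →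
    {p : ℕ × ℕ | SolW 2 m w (-1) t p.1 p.2 ∧ p.2 ≤ Z}.Finite ∧
    {p : ℕ × ℕ | SolW 2 m w (-1) t p.1 p.2 ∧ p.2 ≤ Z}.ncard ≤
      Hb 2 m c + 3 * c ^ 2 * (Nat.log 2 Z + 2)

/-- THEOREM S for `w` -/
def S_THW : Prop :=
  ∃ C : ℝ, 0 < C ∧ ∀ (c n m w : ℕ) (s t : ℤ) (X : ℝ), 2 ≤ c → 2 ≤ n → n < m → 1 ≤ w →
    rad w ≤ c → 3 ≤ X →
    {p : ℕ × ℕ | SolW n m w s t p.1 p.2 ∧ (p.1 : ℝ) ^ m ≤ X ∧ (p.2 : ℝ) ^ n ≤ X}.Finite ∧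
    ({p : ℕ × ℕ | SolW n m w s t p.1 p.2 ∧ (p.1 : ℝ) ^ m ≤ X ∧ (p.2 : ℝ) ^ n ≤ X}.ncard : ℝ) ≤
      ((m : ℝ) * c) ^ (C * n * Real.log (2 * n)) * Real.log X ^ C

/-! ## part 2: the determinant method for fixed `w` -/

def S_HEN : Prop :=
  ∀ (p m N : ℕ) (g : Polynomial ℤ) (x₀ y₀ : ℤ), p.Prime → 1 ≤ m → ¬ (p : ℤ) ∣ m * y₀ →
    ∃ P : Polynomial ℤ, ∀ x y : ℤ, (p : ℤ) ∣ x - x₀ → (p : ℤ) ∣ y - y₀ → y ^ m = g.eval x →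
      (p : ℤ) ^ N ∣ y - P.eval x

def S_VDM : Prop :=
  ∀ (D : ℕ) (p x₀ : ℤ) (x : Fin D → ℤ) (Q : Fin D → Polynomial ℤ), (∀ k, p ∣ x k - x₀) →
    p ^ (D * (D - 1) / 2) ∣ (Matrix.of fun k l => (Q l).eval (x k)).det

def S_DT1 : Prop :=
  ∀ (p m D : ℕ) (g : Polynomial ℤ) (x₀ y₀ : ℤ) (x y : Fin D → ℤ) (i j : Fin D → ℕ), p.Prime →
    1 ≤ m → ¬ (p : ℤ) ∣ m * y₀ → (∀ k, (p : ℤ) ∣ x k - x₀) → (∀ k, (p : ℤ) ∣ y k - y₀) →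
    (∀ k, y k ^ m = g.eval (x k)) →
    (p : ℤ) ^ (D * (D - 1) / 2) ∣ (Matrix.of fun k l => x k ^ i l * y k ^ j l).det

def S_RNK : Prop :=
  ∀ (α : Type) (S : Set α) (D : ℕ) (f : Fin D → α → ℤ),
    (∀ k : Fin D → α, (∀ i, k i ∈ S) → (Matrix.of fun i l => f l (k i)).det = 0) →
    ∃ c : Fin D → ℤ, c ≠ 0 ∧ ∀ x ∈ S, ∑ l, c l * f l x = 0

def S_ZER : Prop :=
  ∀ (n m w I J : ℕ) (s t : ℤ) (c : Fin I → Fin J → ℤ), 1 ≤ n → 1 ≤ m → 1 ≤ w →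
    (s = 1 ∨ s = -1) → (t = 1 ∨ t = -1) → J ≤ m → c ≠ 0 →
    {p : ℕ × ℕ | t * (p.1 : ℤ) ^ m = (p.2 : ℤ) ^ n + s * (w : ℤ) ∧
      ∑ i : Fin I, ∑ j : Fin J, c i j * (p.2 : ℤ) ^ (i : ℕ) * (p.1 : ℤ) ^ (j : ℕ) = 0}.Finite ∧
    {p : ℕ × ℕ | t * (p.1 : ℤ) ^ m = (p.2 : ℤ) ^ n + s * (w : ℤ) ∧
      ∑ i : Fin I, ∑ j : Fin J, c i j * (p.2 : ℤ) ^ (i : ℕ) * (p.1 : ℤ) ^ (j : ℕ) = 0}.ncard ≤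
      m * I + n * J

def S_FXW : Prop :=
  ∃ C : ℝ, 0 < C ∧ ∀ (n m w : ℕ) (s t : ℤ) (X : ℝ), 2 ≤ n → 2 ≤ m → 1 ≤ w → 3 ≤ X →
    {p : ℕ × ℕ | SolW n m w s t p.1 p.2 ∧ (p.1 : ℝ) ^ m ≤ X ∧ (p.2 : ℝ) ^ n ≤ X}.Finite ∧
    ({p : ℕ × ℕ | SolW n m w s t p.1 p.2 ∧ (p.1 : ℝ) ^ m ≤ X ∧ (p.2 : ℝ) ^ n ≤ X}.ncard : ℝ) ≤
      C * ((m : ℝ) * n) ^ C * X ^ (C / (m * n))

/-! ## part 3: THEOREM T* -/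

/-- `w ≤ X` has radical at most `X ^ (1 / K)` -/
def RW (X K : ℝ) (w : ℕ) : Prop := 1 ≤ w ∧ (w : ℝ) ≤ X ∧ (rad w : ℝ) ≤ X ^ (1 / K)

def S_RDW : Prop :=
  ∃ C : ℝ, 0 < C ∧ ∀ X K : ℝ, C ≤ X → 2 ≤ K → C * K * Real.log (Real.log X) ≤ Real.log X →
    {w : ℕ | RW X K w}.Finite ∧
    ({w : ℕ | RW X K w}.ncard : ℝ) ≤ Real.exp (C / K ^ ((2 : ℝ) / 3) * Real.log X) ∧
    ∀ w, RW X K w → (w.divisors.card : ℝ) ≤ Real.exp (C / K ^ ((2 : ℝ) / 3) * Real.log X)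

/-- equal exponents -/
def EqW (n w a b : ℕ) : Prop :=
  1 ≤ a ∧ 1 ≤ b ∧ ((Odd n ∧ a ^ n + b ^ n = w) ∨ a ^ n = b ^ n + w)

def S_EQW : Prop :=
  ∀ w n : ℕ, 1 ≤ w → 3 ≤ n → {p : ℕ × ℕ | EqW n w p.1 p.2}.Finite ∧
    {p : ℕ × ℕ | EqW n w p.1 p.2}.ncard ≤ 3 * w.divisors.card

/-- the value triples `≤ X` of solutions with a term of radical `≤ X ^ (1 / K)` -/
def VTR (X K : ℝ) : Set (ℕ × ℕ × ℕ) :=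
  {τ | ∃ a b c m n k : ℕ, 0 < a ∧ 0 < b ∧ 0 < c ∧ 0 < m ∧ 0 < n ∧ 0 < k ∧ Nat.Coprime a b ∧
    Nat.Coprime b c ∧ Nat.Coprime a c ∧ (1 : ℚ) / m + 1 / n + 1 / k < 1 ∧
    a ^ m + b ^ n = c ^ k ∧ (c : ℝ) ^ k ≤ X ∧
    ((rad a : ℝ) ≤ X ^ (1 / K) ∨ (rad b : ℝ) ≤ X ^ (1 / K) ∨ (rad c : ℝ) ≤ X ^ (1 / K)) ∧
    τ = (a ^ m, b ^ n, c ^ k)}

def V0 (X K : ℝ) : Set (ℕ × ℕ × ℕ) :=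
  {τ | ∃ (i : Fin 6) (A B w : ℕ) (s t : ℤ), RW X K w ∧ (A = 1 ∨ B = 1) ∧ (s = 1 ∨ s = -1) ∧
    (t = 1 ∨ t = -1) ∧ t * (A : ℤ) = B + s * w ∧ τ = perm6 i (A, B, w)}

def V1 (X K : ℝ) : Set (ℕ × ℕ × ℕ) :=
  {τ | ∃ (i : Fin 6) (a b w m n : ℕ) (s t : ℤ), RW X K w ∧ 2 ≤ a ∧ 2 ≤ b ∧ 2 ≤ n ∧ n < m ∧
    (n : ℝ) ≤ 2 * K ^ ((1 : ℝ) / 3) ∧ SolW n m w s t a b ∧ (a : ℝ) ^ m ≤ X ∧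
    (b : ℝ) ^ n ≤ X ∧ τ = perm6 i (a ^ m, b ^ n, w)}

def V2 (X K : ℝ) : Set (ℕ × ℕ × ℕ) :=
  {τ | ∃ (i : Fin 6) (a b w m n : ℕ) (s t : ℤ), RW X K w ∧ 2 ≤ a ∧ 2 ≤ b ∧ 2 ≤ n ∧ 2 ≤ m ∧
    K ^ ((1 : ℝ) / 3) ≤ n ∧ K ^ ((1 : ℝ) / 3) ≤ m ∧ SolW n m w s t a b ∧ (a : ℝ) ^ m ≤ X ∧
    (b : ℝ) ^ n ≤ X ∧ τ = perm6 i (a ^ m, b ^ n, w)}

def V3 (X K : ℝ) : Set (ℕ × ℕ × ℕ) :=
  {τ | ∃ (i : Fin 6) (a b w n : ℕ), RW X K w ∧ 2 ≤ a ∧ 3 ≤ n ∧ EqW n w a b ∧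
    (a : ℝ) ^ n ≤ X ∧ τ = perm6 i (a ^ n, b ^ n, w)}

def S_ROR : Prop := ∀ X K : ℝ, 1 ≤ X → 2 ≤ K → VTR X K ⊆ V0 X K ∪ V1 X K ∪ V2 X K ∪ V3 X K

def S_V0C : Prop :=
  ∃ C : ℝ, 0 < C ∧ ∀ X K : ℝ, C ≤ X → 2 ≤ K → C * K * Real.log (Real.log X) ≤ Real.log X →
    (V0 X K).Finite ∧ ((V0 X K).ncard : ℝ) ≤
      Real.exp (C * Real.log (2 * K) / K ^ ((2 : ℝ) / 3) * Real.log X)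

def S_V1C : Prop :=
  ∃ C : ℝ, 0 < C ∧ ∀ X K : ℝ, C ≤ X → 2 ≤ K → C * K * Real.log (Real.log X) ≤ Real.log X →
    (V1 X K).Finite ∧ ((V1 X K).ncard : ℝ) ≤
      Real.exp (C * Real.log (2 * K) / K ^ ((2 : ℝ) / 3) * Real.log X)

def S_V2C : Prop :=
  ∃ C : ℝ, 0 < C ∧ ∀ X K : ℝ, C ≤ X → 2 ≤ K → C * K * Real.log (Real.log X) ≤ Real.log X →
    (V2 X K).Finite ∧ ((V2 X K).ncard : ℝ) ≤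
      Real.exp (C * Real.log (2 * K) / K ^ ((2 : ℝ) / 3) * Real.log X)

def S_V3C : Prop :=
  ∃ C : ℝ, 0 < C ∧ ∀ X K : ℝ, C ≤ X → 2 ≤ K → C * K * Real.log (Real.log X) ≤ Real.log X →
    (V3 X K).Finite ∧ ((V3 X K).ncard : ℝ) ≤
      Real.exp (C * Real.log (2 * K) / K ^ ((2 : ℝ) / 3) * Real.log X)

/-- THEOREM T* -/
def S_THR : Prop :=
  ∃ C : ℝ, 0 < C ∧ ∀ X K : ℝ, C ≤ X → 2 ≤ K → C * K * Real.log (Real.log X) ≤ Real.log X →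
    (VTR X K).Finite ∧ ((VTR X K).ncard : ℝ) ≤ X ^ (C * Real.log (2 * K) / K ^ ((2 : ℝ) / 3))

end Pool.FCR
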