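import Pool.Agent.Work.MP_2738db_R.Defs

/-!
# MP_2738db_nt, THEOREM T* (small radicals): the blocks

For the block `X` write `Pool/Agent/Work/MP_2738db_R/B_X.lean`, which imports
`Pool.Agent.Work.MP_2738db_R.Defs` only, and proves in `namespace Pool.FCR` (`open NumberField Pool.FCS`)
the theorem `p_X` with exactly the header below.  Part 1 are copies of the finished files of
`Pool/Agent/Work/MP_2738db_S/B_*.lean` with `c ^ q` replaced by `w₁`, `c ^ k` by `w`, `c ^ r` by `w₀`, the residue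
modulus `c ^ 2` by `R ^ 2`; `T = w₁ |σ θ|`, `T ^ n = w`, `T < c w₁` (`w₀ < c ^ n`).
-/

set_option autoImplicit false

namespace Pool.FCR

open NumberField Pool.FCS

/-- 120 lines. `R = rad w`. `w₁ = ∏ p ∈ w.primeFactors, p ^ (w.factorization p / n)`, `w₀ = ∏ p ^ (w.factorization p % n)`.
`w = ∏ p ^ factorization p` (`Nat.factorization_prod_pow_eq_self`), `e = n (e / n) + e % n`. `w₀ ≤ ∏ p ^ (n-1) = R ^ (n-1)
≤ c ^ (n-1) < c ^ n`. A prime dividing `w₁` or `R` divides `w`, and the primes dividing `w` divide `R`. `rad w₀ ≤ rad w` since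
`w₀.primeFactors ⊆ w.primeFactors` (`w₀ ∣ w`), factors `≥ 1`. -/
theorem p_DCW : S_DCW := sorry

/-- 30 lines. From h1: if `w₀ ≥ 2` apply it to `c := w₀`, `r := 1` (`1 < n`), `c ^ r = w₀`; if `w₀ = 1` to `c := 2`, `r := 0`. -/
theorem p_FLW (h1 : S_FLD) : S_FLW := sorry

/-- 150 lines. Compare `B_OMG`. `e_p = w₀.factorization p`, `D i = ∏ p ∈ w₀.primeFactors, p ^ (i * e_p / n)` (natural division),
`ω i = θ ^ i / D i`, `i < d`. `(ω i) ^ n = (-s) ^ i w₀ ^ i / (D i) ^ n = (-s) ^ i ∏ p ^ (i e_p % n)` is an integer, so `ω i` is integral, and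
`‖σ (ω i)‖ ^ n = ∏ p ^ (i e_p % n) ≤ (rad w₀) ^ n ≤ c ^ n`. Linear independence as in `B_OMG`. -/
theorem p_OMW : S_OMW := sorry

/-- 90 lines. Copy of `B_CLS` (OMW instead of OMG). -/
theorem p_CLW (h1 : S_DEC) (h2 : S_IDC) (h3 : S_OMW) (h4 : S_PIG) : S_CLW := sorry

/-- 150 lines. Copy of `B_SEL`. -/
theorem p_SEW (h1 : S_CLW) (h2 : S_UNT) : S_SEW := sorry

/-- 110 lines. Copy of `B_COF`: `(w₁ θ) ^ n = - s w₀ w₁ ^ n = - s w`; `a` is coprime to `w`, hence to `R` (`Wd.back`). -/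
theorem p_COW : S_COW := sorry

/-- 60 lines. From h1 (one prime power at a time): for a prime `p ∣ w₁`, `q = w₁.factorization p`, h1 with `c := p`: `p ∣ R`, so
`IsCoprime y p`, `p ^ 2 ∣ R ^ 2 ∣ d`, `p ^ q ∣ w₁ ∣ (y + d) ^ m - y ^ m`, hence `p ^ q ∣ m d`. The prime powers are pairwise coprime
(`Nat.Coprime` cast to `IsCoprime` in `A`), so their product `w₁` divides `m d` (`Finset.prod_dvd_of_coprime`). -/
theorem p_LTW (h1 : S_LTE) : S_LTW := sorry

/-- 90 lines. Copy of `B_RES`. -/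
theorem p_REW (h1 : S_COW) (h2 : S_GAM) : S_REW := sorry

/-- 120 lines. Copy of `B_PA1` (`c ^ q` is now `w₁`, `c ^ 2` is `R ^ 2`, lifting by h3; `γ` is coprime to `R` because `a` is). -/
theorem p_PW1 (h1 : S_COW) (h2 : S_GAM) (h3 : S_LTW) : S_PW1 := sorry

/-- 60 lines. Copy of `B_PA2`. -/
theorem p_PW2 (h1 : S_PW1) (h2 : S_TRC) : S_PW2 := sorry

/-- 150 lines. Copy of `B_SZ1`. -/
theorem p_ZW1 (h1 : S_COW) (h2 : S_GAM) : S_ZW1 := sorry

/-- 200 lines. Copy of `B_SZ2`. -/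
theorem p_ZW2 : S_ZW2 := sorry

/-- 200 lines. Copy of `B_FIB`; residues modulo `R ^ 2`, `R ^ (2 d) ≤ c ^ (2 n)`. -/
theorem p_FBW (h1 : S_COW) (h2 : S_GAM) (h3 : S_REW) (h4 : S_PW2) (h5 : S_ZW1) (h6 : S_ZW2)
    (h7 : S_ROT) : S_FBW := sorry

/-- 130 lines. Copy of `B_FIX`. h0 gives `w₀, w₁` with `R = rad w`. If `n = 2`, `s = -1`: `w₀` is not a square (else `w = w₀ w₁ ^ 2` is). -/
theorem p_FXF (h0 : S_DCW) (h1 : S_FLW) (h2 : S_SEW) (h3 : S_COW) (h4 : S_FBW) : S_FXF := sorry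

/-- 150 lines. Copy of `B_QDC` (`c ^ k` is `w`; `a` coprime to `w`). -/
theorem p_QDW : S_QDW := sorry

/-- 80 lines. Compare `B_QCG`; the modulus is `y` itself: `2 y = e₂ v ^ m - t e₁ u ^ m`, the same for `u', v'`; modulo `y`:
`e₂ v ^ m = t e₁ u ^ m`, `e₂ v' ^ m = t e₁ u' ^ m`, so `y ∣ t e₁ e₂ ((v u') ^ m - (u v') ^ m)`, and `t e₁ e₂` is coprime to `y`
(if `w` is even `e₁ = e₂ = 1`, otherwise `y` is odd and `e₁ e₂` a power of 2). h1 over `ℤ` with `w₁ := y` (a prime dividing `y` divides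
`w`, so `R`), `y := u v'`, `d := v u' - u v'`. -/
theorem p_QCW (h1 : S_LTW) : S_QCW := sorry

/-- 180 lines. Compare `B_QSZ`; now the bound is `y` (no factor `c`). `A = v u'`, `B = u v'`. Case `b, b' < 8 y`: `A ^ m, B ^ m ≤ (9 y) ^ 2`; if
`y ≤ m |A - B| ≤ m G` then `y ^ (m-2) ≤ 81 m ^ m ≤ (81 m ^ 3) ^ (m-2)`, `y ≤ 81 m ^ 3`, but `y > b / 8 ≥ (192 c m) ^ 3 / 8`. Case
`b, b' ≥ 8 y`: as in `B_QSZ` `m |A - B| ≤ 3 G y / β` with `G ^ m ≤ 5 β ^ 2`, and `3 G < β`. -/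
theorem p_QZW : S_QZW := sorry

/-- 30 lines. Copy of `B_QEN`. -/
theorem p_QNW : S_QNW := sorry

/-- 170 lines. Copy of `B_SQF`; label `v * u⁻¹` in `ZMod (R ^ 2)`, at most `c ^ 2` values. -/
theorem p_SQW (h1 : S_QDW) (h2 : S_QCW) (h3 : S_QZW) (h4 : S_QNW) : S_SQW := sorry

/-- 120 lines. Compare `B_THS`, simpler (no sum over `k`). `Z = ⌊X⌋₊ ≥ 3`, `l = Nat.log 2 Z ≥ 1`, `b ≤ Z`. If `n = 2`, `s = -1`, `w = y ^ 2`: h2 with
`R = rad w`; otherwise h1. Then h3 with this `l` (its left side is at least the bound), `l ≤ log X / log 2`. If `s` or `t` is not `±1` the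
set is empty. -/
theorem p_THW (h1 : S_FXF) (h2 : S_SQW) (h3 : S_BND) : S_THW := sorry

/-- 100 lines. If `p ∤ y₀ ^ m - g (x₀)` there are no `(x, y)` (`g x ≡ g x₀`, `y ^ m ≡ y₀ ^ m` modulo `p`): `P = 0`. Otherwise
choose an integer `u` with `p ∣ 1 - u m y₀ ^ (m-1)`. Newton: `P₁ = y₀` (constant), `P_{N+1} = P_N - u (P_N ^ m - g)` in `ℤ[X]`. Claim by
induction on `N ≥ 1`: for all `x` with `p ∣ x - x₀`: `p ^ N ∣ P_N(x) ^ m - g(x)` and `p ∣ P_N(x) - y₀`. Step: `e = P_N(x) ^ m - g(x)`,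
`(P_N - u e) ^ m = P_N ^ m - m P_N ^ (m-1) u e + (u e) ^ 2 z` (`add_pow` / `Polynomial.binomExpansion`, or `Commute` lemma
`exists z, (a + b) ^ m = a ^ m + m a ^ (m-1) b + b ^ 2 z`), so the new value is `e (1 - u m P_N ^ (m-1)) + u ^ 2 e ^ 2 z`, divisible by
`p ^ (N+1)`. Finally if `y ^ m = g(x)`, `y ≡ y₀`: `p ^ N ∣ P ^ m - y ^ m = (P - y) * ∑ P ^ i y ^ (m-1-i)` and the sum is
`≡ m y₀ ^ (m-1)` modulo `p`, coprime to `p`; so `p ^ N ∣ P - y`. (`N = 0` trivial.) -/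
theorem p_HEN : S_HEN := sorry

/-- 90 lines. `f = ∏ k, (X - x k)` monic of degree `D`; `Q l %ₘ f = ∑_{r < D} c l r X ^ r` has the same values at the `x k`. So the matrix is
`vandermonde x * (c)ᵀ` and the determinant is divisible by `(Matrix.vandermonde x).det = ∏_{i<j} (x j - x i)` (`Matrix.det_vandermonde`), a
product of `D (D-1) / 2` multiples of `p` (count: `Finset.card` of the pairs, `Finset.prod_pow...`, `Finset.sum_range_id`). -/
theorem p_VDM : S_VDM := sorry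

/-- 60 lines. h1 with `N = D (D-1) / 2` gives `P` with `p ^ N ∣ y k - P (x k)`; `Q l = X ^ i l * P ^ j l`; the entries `x k ^ i l * y k ^ j l` and
`(Q l) (x k)` are congruent modulo `p ^ N`, so are the determinants (map to `ZMod (p ^ N)`, `RingHom.map_det`), and h2. -/
theorem p_DT1 (h1 : S_HEN) (h2 : S_VDM) : S_DT1 := sorry

/-- 80 lines. The rows `r x = (f l x)_l ∈ ℚ ^ D`, `x ∈ S`. If they span `ℚ ^ D` choose a basis among them
(`exists_linearIndependent`, `finrank`), that is `k : Fin D → S` with nonzero determinant, a contradiction. So the span is a proper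
subspace and there is a nonzero linear form `∑ c l (·) l` vanishing on it (`Submodule.exists_le_ker_of_lt_top`); clear denominators. -/
theorem p_RNK : S_RNK := sorry

/-- 200 lines. `g = t (X ^ n + s w) ∈ ℚ[X]`, `n ≥ 1`, `w ≠ 0`: separable (`g' = t n X ^ (n-1)`), so an irreducible factor `π` of `g` divides it exactly once;
`Y ^ m - g` is irreducible over `ℚ[X]` by Eisenstein at `π` (`Polynomial.irreducible_of_eisenstein_criterion`, monic) and over `ℚ(X)` (Gauss).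
Let `F = ∑ c i j X ^ i Y ^ j ≠ 0`, `deg_Y < m`. Let `M` be the `m × m` matrix over `ℚ[X]` (or `ℤ[X]`) of multiplication by `F` on
`ℚ[X][Y] / (Y ^ m - g)` in the basis `1, Y, ..`: entry `(r, j')` is `F_{r-j'}` for `r ≥ j'`, `g F_{r-j'+m}` for `r < j'`
(`F_j = ∑ c i j X ^ i`, 0 for `j ≥ J`). `det M ≠ 0` (the quotient is a domain, `F ≠ 0` in it). Degree: the entry has degree
`≤ (I-1) + (n/m)(J-1) + (n/m)(j'-r)` (as rational numbers), so `deg det M ≤ m (I-1) + n (J-1)` (sum over permutations). If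
`t a ^ m = b ^ n + s w` and `F(b, a) = 0` then `a ^ m = g(b)` and the vector `(1, a, .., a ^ (m-1)) ≠ 0` is killed by `M(b)` (from
the left: `∑_r a ^ r M(b)_{r j'} = F(b, a) a ^ j' = 0`), so `(det M)(b) = 0`: at most `m I + n J` values of `b`, and `b` determines `a`. (Other
proofs of the same bound, for example with `Polynomial.resultant` or `Algebra.norm`, are as good; the bound `m I + n J` is what is needed.) -/
theorem p_ZER : S_ZER := sorry

/-- 300 lines. `I = (n+1)/2`, `J = (m+1)/2`, `D = I J ≥ m n / 4`. If `D = 1` then `m = n = 2`: `b ≤ X ^ (1/2)` determines `a`: at most `X ^ (1/2) + 1`. Let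
`D ≥ 2`, so `D - 1 ≥ m n / 8`, `D ≤ m n`. `p` a prime with `P < p ≤ 2 P + 2`, `P = ⌈(D ^ 2 X) ^ (8/(mn))⌉₊ + m + n`
(`Nat.exists_prime_lt_and_le_two_mul`); so `p ∤ m n` and `p ^ (D-1) > D ^ 2 X`. Split the solutions into the `p ^ 2` classes of
`(a, b)` modulo `p`. In one class `p ∤ a` or `p ∤ b` (`a, b` coprime). For `D` points `(a_k, b_k)` of the class,
`Δ = det (b_k ^ i_l * a_k ^ j_l)`, `l = (i_l, j_l)` over the box `i < I`, `j < J` (`finProdFinEquiv`): if `p ∤ a`, h1 with `x = b`, `y = a`,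
`g = t (X ^ n + s w)` gives `p ^ (D(D-1)/2) ∣ Δ`; if `p ∤ b`, h1 with `x = a`, `y = b`, exponent `n`, `g = t X ^ m - s w`. Size: `a ≤ X ^ (1/m)`,
`b ≤ X ^ (1/n)`, each of the `D!` terms is at most `∏_l X ^ (i_l/n + j_l/m) ≤ X ^ (D/2)` (`∑_l i_l / n = D (I-1)/(2n) ≤ D/4`), so
`|Δ| ≤ D ^ D X ^ (D/2) < p ^ (D(D-1)/2)` and `Δ = 0`. h2: a relation `c ≠ 0` on all points of the class, h3: at most
`m I + n J ≤ 2 m n` points. Total `≤ 2 m n p ^ 2`, and `(D ^ 2) ^ (8/(mn))` is bounded by an absolute constant (or by `(m n) ^ 16`). -/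
theorem p_FXW (h1 : S_DT1) (h2 : S_RNK) (h3 : S_ZER) : S_FXW := sorry

/-- 250 lines. `L = log X`, `l = Nat.log 2 ⌊X⌋₊ ≤ 2 L`, `ω = card w.primeFactors`. (a) A `w ≤ X` is determined by its radical `r` and the exponents
`1 ≤ e_p ≤ l` at the primes dividing `r`: the number of `w` in the set is at most `X ^ (1/K) * l ^ ω` with the maximal `ω`; the number of
divisors of `w` is `∏ (e_p + 1) ≤ (l + 1) ^ ω` (`Nat.card_divisors`). (b) `ω ! ≤ r ≤ X ^ (1/K)` (the product of `ω` distinct primes,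
the `i`-th is `≥ i`; e.g. induction or `Nat.factorial_le..`), so `ω log (ω / 3) ≤ L / K` (`(ω/3) ^ ω ≤ ω !`, `(ω/e)^ω ≤ ω!`).
(c) `ω log (l + 1) ≤ C' L / K ^ (2/3)`: if `ω ≤ L ^ (1/4)` it is at most `L ^ (1/4) log (3 L) ≤ C' L ^ (1/3) ≤ C' L / K ^ (2/3)` (`K ≤ L`);
otherwise `log (ω / 3) ≥ (1/8) log L ≥ c' log (l + 1)` for large `L` and `ω log (l+1) ≤ C' ω log (ω/3) ≤ C' L / K`. Also `1/K ≤ 1/K ^ (2/3)`. -/
theorem p_RDW : S_RDW := sorry

/-- 40 lines. `w = 1`: no solutions. `w ≥ 2`: h1 (`S_EQC`) with `c := w`, `k := 1`. -/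
theorem p_EQW (h1 : S_EQC) : S_EQW := sorry

/-- 250 lines. Compare `B_ROL`. `κ = K ^ (1/3) ≥ 1`. All three terms of `τ = (a ^ m, b ^ n, c ^ k)` are `≤ X`; `m, n, k ≥ 2`
(else `1/m + 1/n + 1/k ≥ 1`). `rad (u ^ e) = rad u` for `e ≥ 1` (`Nat.primeFactors_pow`). Let `w` be a term of small radical, `A`, `B` the two
other terms with bases `A = a ^ m`, `B = b ^ n` (renamed) and signs as in `B_ROL`: (I) `w = c ^ k`: `- A = B - w`; (II) `w = a ^ m`: `c ^ k = b ^ n + w`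
or `b ^ n = c ^ k - w`; (III) `w = b ^ n` similarly. If one of the two bases is 1: `V0`. Otherwise both are `≥ 2`: if both
exponents are `≥ κ`: `V2`; if they are different: `V1` with the larger exponent as `m` (the smaller one is `< κ ≤ 2 κ`); if they are equal, `= n ≥ 3`:
difference (`A = B + w`): `V3`; sum (`A + B = w`) with `n` odd: `V3`; sum with `n` even, `n ≥ 4`: `V1` with exponents `n` and `2` and the bases
`a`, `b ^ (n/2)`, `s = t = -1`. The permutations `i` are as in `B_ROL`. -/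
theorem p_ROR : S_ROR := sorry

/-- 80 lines. Given `w, s, t, i` there are at most 2 pairs `(A, B)` (`A = 1`: `B = t - s w`; `B = 1`: `t A = 1 + s w`): at most `48 * #w` elements. h1;
`log (2 K) ≥ 1`, `48 ≤ exp (4 * L / K ^ (2/3))` since `L / K ^ (2/3) ≥ L / K ≥ C log L ≥ 1`. -/
theorem p_V0C (h1 : S_RDW) : S_V0C := sorry

/-- 200 lines. Compare `B_W1C`. `2 ^ m ≤ a ^ m ≤ X`: `n < m ≤ l ≤ 2 L`. h2 with `c = ⌊X ^ (1/K)⌋₊ ≥ 2` (`L / K ≥ C log L ≥ 1`), for each of the `#w` (h1) `w`, 6 `i`, 4 sign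
pairs, `≤ l ^ 2` pairs `(m, n)`. The logarithm of the count as in `B_W1C`, with `C₂ L / K ^ (2/3)` for the number of `w`. -/
theorem p_V1C (h1 : S_RDW) (h2 : S_THW) : S_V1C := sorry

/-- 150 lines. `2 ^ m, 2 ^ n ≤ X`: `m, n ≤ l ≤ 2 L`. `m n ≥ κ ^ 2 = K ^ (2/3)`. The count is at most
`24 * #w * l ^ 2 * C₁ (l ^ 2) ^ C₁ * X ^ (C₁ / K ^ (2/3))`; `log l ≤ 2 log L ≤ 2 L / (C K)`. -/
theorem p_V2C (h1 : S_RDW) (h2 : S_FXW) : S_V2C := sorry

/-- 120 lines. `2 ^ n ≤ X`: `n ≤ l`. At most `6 * #w * l * 3 * max (card divisors)` elements (h1, h2). -/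
theorem p_V3C (h1 : S_RDW) (h2 : S_EQW) : S_V3C := sorry

/-- 100 lines. Copy of `B_THT` with four parts. -/
theorem p_THR (h : S_ROR) (h0 : S_V0C) (h1 : S_V1C) (h2 : S_V2C) (h3 : S_V3C) : S_THR := sorry

end Pool.FCR
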