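import Pool.Agent.Work.MP_2738db_R.Interface

set_option autoImplicit false

namespace Pool.FCR

open Pool.FCS

/-- the blocks compose -/
theorem skel (gFLD : S_FLD) (gDEC : S_DEC) (gIDC : S_IDC) (gPIG : S_PIG) (gUNT : S_UNT)
    (gLTE : S_LTE) (gGAM : S_GAM) (gTRC : S_TRC) (gROT : S_ROT) (gBND : S_BND) (gEQC : S_EQC) :
    S_THR := by
  have hCLW := p_CLW gDEC gIDC p_OMW gPIG
  have hSEW := p_SEW hCLW gUNT
  have hLTW := p_LTW gLTE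
  have hREW := p_REW p_COW gGAM
  have hPW1 := p_PW1 p_COW gGAM hLTW
  have hPW2 := p_PW2 hPW1 gTRC
  have hZW1 := p_ZW1 p_COW gGAM
  have hFBW := p_FBW p_COW gGAM hREW hPW2 hZW1 p_ZW2 gROT
  have hFXF := p_FXF p_DCW (p_FLW gFLD) hSEW p_COW hFBW
  have hSQW := p_SQW p_QDW (p_QCW hLTW) p_QZW p_QNW
  have hTHW := p_THW hFXF hSQW gBND
  have hFXW := p_FXW (p_DT1 p_HEN p_VDM) p_RNK p_ZER
  exact p_THR p_ROR (p_V0C p_RDW) (p_V1C p_RDW hTHW) (p_V2C p_RDW hFXW)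
    (p_V3C p_RDW (p_EQW gEQC))

end Pool.FCR
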